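import Pool.Agent.GZero.Basic

/-!
# Classes in `G_0(A)` of modules over a ring `B` with a surjection `B → A`
-/

universe u v

set_option linter.style.haveILetI false

namespace Pool.Agent.GZero

variable {A B : Type u} [CommRing A] [CommRing B]

/-- The elements of the kernel of `ε` act as zero on `N`. -/
def Killed (ε : B →+* A) (N : Type u) [AddCommGroup N] [Module B N] : Prop :=
  ∀ b : B, ε b = 0 → ∀ n : N, b • n = 0

/-- The `A`-module structure of a `B`-module killed by the kernel of `ε : B → A`. -/
@[reducible] noncomputable def modVia (ε : B →+* A) (hε : Function.Surjective ε) (N : Type u)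
    [AddCommGroup N] [Module B N] (h : Killed ε N) : Module A N :=
  have key : ∀ (b c : B) (n : N), ε b = ε c → b • n = c • n := fun b c n hbc => by
    have h1 : ε (b - c) = 0 := by rw [map_sub, hbc, sub_self]
    have h2 := h _ h1 n
    rwa [sub_smul, sub_eq_zero] at h2
  { smul := fun a n => Function.surjInv hε a • n
    one_smul := fun n => by
      change Function.surjInv hε 1 • n = n
      rw [key _ 1 n (by rw [Function.surjInv_eq hε, map_one]), one_smul]
    mul_smul := fun a a' n => by
      change Function.surjInv hε (a * a') • n = Function.surjInv hε a • Function.surjInv hε a' • n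
      rw [← mul_smul]
      exact key _ _ n (by rw [map_mul]; simp only [Function.surjInv_eq])
    smul_zero := fun a => smul_zero _
    smul_add := fun a m n => smul_add _ _ _
    add_smul := fun a a' n => by
      change Function.surjInv hε (a + a') • n =
        Function.surjInv hε a • n + Function.surjInv hε a' • n
      rw [← add_smul]
      exact key _ _ n (by rw [map_add]; simp only [Function.surjInv_eq])
    zero_smul := fun n => by
      change Function.surjInv hε 0 • n = 0
      exact h _ (Function.surjInv_eq hε 0) n }

theorem modVia_smul (ε : B →+* A) (hε : Function.Surjective ε) (N : Type u)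
    [AddCommGroup N] [Module B N] (h : Killed ε N) (b : B) (n : N) :
    letI := modVia ε hε N h
    ε b • n = b • n := by
  change Function.surjInv hε (ε b) • n = b • n
  have h1 : ε (Function.surjInv hε (ε b) - b) = 0 := by
    rw [map_sub, Function.surjInv_eq hε, sub_self]
  have h2 := h _ h1 n
  rwa [sub_smul, sub_eq_zero] at h2

theorem modVia_finite (ε : B →+* A) (hε : Function.Surjective ε) (N : Type u)
    [AddCommGroup N] [Module B N] (h : Killed ε N) [hN : Module.Finite B N] :
    letI := modVia ε hε N h
    Module.Finite A N := by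
  letI := modVia ε hε N h
  obtain ⟨s, hs⟩ := hN.fg_top
  refine ⟨⟨s, ?_⟩⟩
  rw [eq_top_iff]
  intro x _
  have hx : x ∈ Submodule.span B (s : Set N) := by rw [hs]; trivial
  refine Submodule.span_induction (p := fun x _ => x ∈ Submodule.span A (s : Set N))
    (fun x hx => Submodule.subset_span hx) (Submodule.zero_mem _)
    (fun x y _ _ h1 h2 => Submodule.add_mem _ h1 h2) ?_ hx
  intro b x _ h1
  rw [← modVia_smul ε hε N h b x]
  exact Submodule.smul_mem _ _ h1

/-- The conditions under which a `B`-module has a class in `G_0(A)`. -/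
def Good (ε : B →+* A) (N : Type u) [AddCommGroup N] [Module B N] : Prop :=
  Function.Surjective ε ∧ Module.Finite B N ∧ Killed ε N

open Classical in
/-- The class in `G_0(A)` of a finitely generated `B`-module killed by the kernel of the
surjection `ε : B → A`; it is `0` if these conditions fail. -/
noncomputable def clV (ε : B →+* A) (N : Type u) [AddCommGroup N] [Module B N] : G0 A :=
  if h : Good ε N then
    letI := modVia ε h.1 N h.2.2
    haveI := h.2.1
    haveI := modVia_finite ε h.1 N h.2.2
    G0.cls A N
  else 0

theorem clV_eq (ε : B →+* A) (N : Type u) [AddCommGroup N] [Module B N] (h : Good ε N) :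
    clV ε N = (letI := modVia ε h.1 N h.2.2
      haveI := h.2.1
      haveI := modVia_finite ε h.1 N h.2.2
      G0.cls A N) := by
  unfold clV
  rw [dif_pos h]

/-- A `B`-linear map between modules killed by the kernel of `ε` is `A`-linear. -/
noncomputable def mapVia (ε : B →+* A) (hε : Function.Surjective ε) {N N' : Type u}
    [AddCommGroup N] [Module B N] [AddCommGroup N'] [Module B N'] (h : Killed ε N)
    (h' : Killed ε N') (f : N →ₗ[B] N') :
    letI := modVia ε hε N h
    letI := modVia ε hε N' h'
    N →ₗ[A] N' :=
  letI := modVia ε hε N h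
  letI := modVia ε hε N' h'
  { toFun := f
    map_add' := f.map_add
    map_smul' := fun a n => by
      obtain ⟨b, rfl⟩ := hε a
      rw [modVia_smul ε hε N h b n, RingHom.id_apply, modVia_smul ε hε N' h' b (f n)]
      exact f.map_smul b n }

theorem Good.of_injective [IsNoetherianRing B] {ε : B →+* A} {N N' : Type u} [AddCommGroup N]
    [Module B N] [AddCommGroup N'] [Module B N'] (h : Good ε N) (i : N' →ₗ[B] N)
    (hi : Function.Injective i) : Good ε N' := by
  refine ⟨h.1, ?_, ?_⟩
  · haveI := h.2.1
    haveI : IsNoetherian B N := isNoetherian_of_isNoetherianRing_of_finite B N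
    exact Module.Finite.of_injective i hi
  · intro b hb n
    apply hi
    rw [map_smul, map_zero, h.2.2 b hb]

theorem Good.of_surjective {ε : B →+* A} {N N' : Type u} [AddCommGroup N]
    [Module B N] [AddCommGroup N'] [Module B N'] (h : Good ε N) (p : N →ₗ[B] N')
    (hp : Function.Surjective p) : Good ε N' := by
  refine ⟨h.1, ?_, ?_⟩
  · haveI := h.2.1
    exact Module.Finite.of_surjective p hp
  · intro b hb n
    obtain ⟨m, rfl⟩ := hp n
    rw [← map_smul, h.2.2 b hb, map_zero]

theorem clV_exact [IsNoetherianRing B] (ε : B →+* A) {N' N N'' : Type u}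
    [AddCommGroup N'] [Module B N'] [AddCommGroup N] [Module B N]
    [AddCommGroup N''] [Module B N''] (hN : Good ε N) (i : N' →ₗ[B] N) (p : N →ₗ[B] N'')
    (hi : Function.Injective i) (hp : Function.Surjective p)
    (h : LinearMap.range i = LinearMap.ker p) :
    clV ε N = clV ε N' + clV ε N'' := by
  have hN' := hN.of_injective i hi
  have hN'' := hN.of_surjective p hp
  rw [clV_eq ε N hN, clV_eq ε N' hN', clV_eq ε N'' hN'']
  letI := modVia ε hN.1 N hN.2.2
  letI := modVia ε hN.1 N' hN'.2.2
  letI := modVia ε hN.1 N'' hN''.2.2
  haveI := hN.2.1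
  haveI := hN'.2.1
  haveI := hN''.2.1
  haveI := modVia_finite ε hN.1 N hN.2.2
  haveI := modVia_finite ε hN.1 N' hN'.2.2
  haveI := modVia_finite ε hN.1 N'' hN''.2.2
  refine G0.cls_exact (R := A) (mapVia ε hN.1 hN'.2.2 hN.2.2 i)
    (mapVia ε hN.1 hN.2.2 hN''.2.2 p) hi hp ?_
  ext x
  have := congrArg (fun s : Submodule B N => x ∈ s) h
  exact this.to_iff

theorem clV_congr {ε : B →+* A} {N N' : Type u} [AddCommGroup N]
    [Module B N] [AddCommGroup N'] [Module B N'] (e : N ≃ₗ[B] N') : clV ε N = clV ε N' := by
  by_cases h : Good ε N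
  · have h' : Good ε N' := h.of_surjective e.toLinearMap e.surjective
    rw [clV_eq ε N h, clV_eq ε N' h']
    letI := modVia ε h.1 N h.2.2
    letI := modVia ε h.1 N' h'.2.2
    haveI := h.2.1
    haveI := h'.2.1
    haveI := modVia_finite ε h.1 N h.2.2
    haveI := modVia_finite ε h.1 N' h'.2.2
    exact G0.cls_congr (R := A) (LinearEquiv.ofBijective
      (mapVia ε h.1 h.2.2 h'.2.2 e.toLinearMap) e.bijective)
  · have h' : ¬ Good ε N' := fun h' => h (h'.of_surjective e.symm.toLinearMap e.symm.surjective)
    unfold clV
    rw [dif_neg h, dif_neg h']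

theorem clV_subsingleton (ε : B →+* A) (hε : Function.Surjective ε) (N : Type u)
    [AddCommGroup N] [Module B N] [Subsingleton N] : clV ε N = 0 := by
  have h : Good ε N := ⟨hε, inferInstance, fun b _ n => Subsingleton.elim _ _⟩
  rw [clV_eq ε N h]
  letI := modVia ε h.1 N h.2.2
  haveI := h.2.1
  haveI := modVia_finite ε h.1 N h.2.2
  exact G0.cls_subsingleton (R := A) N

/-- The class of an `A`-module, considered as a `B`-module through `ε`. -/
theorem clV_restrict (ε : B →+* A) (hε : Function.Surjective ε) (N N₀ : Type u)
    [AddCommGroup N] [Module A N] [hf : Module.Finite A N] [AddCommGroup N₀] [Module B N₀]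
    (e : N₀ ≃+ N) (he : ∀ (b : B) (n : N₀), e (b • n) = ε b • e n) :
    clV ε N₀ = G0.cls A N := by
  have hk : Killed ε N₀ := fun b hb n => by
    apply e.injective
    rw [he, hb, zero_smul, map_zero]
  have hfin : Module.Finite B N₀ := by
    obtain ⟨s, hs⟩ := hf.fg_top
    classical
    refine ⟨⟨s.image e.symm, ?_⟩⟩
    rw [eq_top_iff]
    intro x _
    have hx : e x ∈ Submodule.span A (s : Set N) := by rw [hs]; trivial
    have key : ∀ y : N, y ∈ Submodule.span A (s : Set N) →
        e.symm y ∈ Submodule.span B ((s.image e.symm : Finset N₀) : Set N₀) := by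
      intro y hy
      refine Submodule.span_induction (p := fun y _ => e.symm y ∈
        Submodule.span B ((s.image e.symm : Finset N₀) : Set N₀)) ?_ ?_ ?_ ?_ hy
      · intro y hy
        apply Submodule.subset_span
        rw [Finset.coe_image]
        exact ⟨y, hy, rfl⟩
      · rw [map_zero]; exact Submodule.zero_mem _
      · intro y z _ _ h1 h2
        rw [map_add]; exact Submodule.add_mem _ h1 h2
      · intro a y _ h1
        obtain ⟨b, rfl⟩ := hε a
        have : e.symm (ε b • y) = b • e.symm y := by
          apply e.injective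
          rw [he, e.apply_symm_apply, e.apply_symm_apply]
        rw [this]
        exact Submodule.smul_mem _ _ h1
    have := key _ hx
    rwa [e.symm_apply_apply] at this
  have h : Good ε N₀ := ⟨hε, hfin, hk⟩
  rw [clV_eq ε N₀ h]
  letI := modVia ε h.1 N₀ h.2.2
  haveI := h.2.1
  haveI := modVia_finite ε h.1 N₀ h.2.2
  refine G0.cls_congr (R := A) (LinearEquiv.ofBijective
      ({ toFun := e, map_add' := e.map_add, map_smul' := ?_ } : N₀ →ₗ[A] N) e.bijective)
  intro a n
  obtain ⟨b, rfl⟩ := hε a
  rw [modVia_smul ε hε N₀ hk b n, he]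
  rfl

end Pool.Agent.GZero
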