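import Pool.Agent.GZero.MF

/-!
# The homology of a matrix factorisation with coefficients in a module
-/

universe u v

set_option linter.style.haveILetI false
set_option linter.unusedSectionVars false

namespace Pool.Agent.GZero

open LinearMap (ker range)
open Matrix

variable {R : Type u} [CommRing R]

section act

variable {E O P : Type} [Fintype E] [Fintype O] [Fintype P] [DecidableEq E] [DecidableEq O]
variable (M : Type u) [AddCommGroup M] [Module R M]

/-- The action of a matrix on vectors with entries in a module. -/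
def act (Φ : Matrix O E R) : (E → M) →ₗ[R] (O → M) where
  toFun v o := ∑ e, Φ o e • v e
  map_add' v v' := by
    funext o
    simp [smul_add, Finset.sum_add_distrib]
  map_smul' r v := by
    funext o
    simp only [Pi.smul_apply, RingHom.id_apply, Finset.smul_sum]
    exact Finset.sum_congr rfl fun e _ => smul_comm _ _ _

theorem act_apply (Φ : Matrix O E R) (v : E → M) (o : O) : act M Φ v o = ∑ e, Φ o e • v e := rfl

theorem act_mul (Ψ : Matrix P O R) (Φ : Matrix O E R) (v : E → M) :
    act M (Ψ * Φ) v = act M Ψ (act M Φ v) := by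
  funext p
  simp only [act_apply, Matrix.mul_apply, Finset.sum_smul, Finset.smul_sum, mul_smul]
  rw [Finset.sum_comm]

theorem act_smul_one (s : R) (v : E → M) : act M (s • (1 : Matrix E E R)) v = s • v := by
  funext e
  rw [act_apply, Finset.sum_eq_single e]
  · simp
  · intro b _ hb
    simp [Matrix.one_apply_ne (Ne.symm hb)]
  · intro h
    exact absurd (Finset.mem_univ _) h

theorem act_add (Φ Φ' : Matrix O E R) (v : E → M) : act M (Φ + Φ') v = act M Φ v + act M Φ' v := by
  funext o
  simp [act_apply, add_smul, Finset.sum_add_distrib]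

theorem act_blk (Φ : Matrix O E R) (Ψ : Matrix E O R) (y f : R) (v : E ⊕ O → M) :
    act M (blk Φ Ψ y f) v = Sum.elim (act M Φ (v ∘ Sum.inl) + y • (v ∘ Sum.inr))
      (f • (v ∘ Sum.inl) - act M Ψ (v ∘ Sum.inr)) := by
  funext o
  rcases o with o | e
  · rw [act_apply, Fintype.sum_sum_type]
    simp only [blk, fromBlocks_apply₁₁, fromBlocks_apply₁₂, Sum.elim_inl, Pi.add_apply,
      act_apply, Function.comp_apply, Pi.smul_apply]
    congr 1
    rw [Finset.sum_eq_single o]
    · simp
    · intro b _ hb
      simp [Matrix.one_apply_ne (Ne.symm hb)]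
    · intro h
      exact absurd (Finset.mem_univ _) h
  · rw [act_apply, Fintype.sum_sum_type]
    simp only [blk, fromBlocks_apply₂₁, fromBlocks_apply₂₂, Sum.elim_inr, Pi.sub_apply,
      act_apply, Function.comp_apply, Pi.smul_apply]
    rw [sub_eq_add_neg]
    congr 1
    · rw [Finset.sum_eq_single e]
      · simp
      · intro b _ hb
        simp [Matrix.one_apply_ne (Ne.symm hb)]
      · intro h
        exact absurd (Finset.mem_univ _) h
    · rw [← Finset.sum_neg_distrib]
      exact Finset.sum_congr rfl fun b _ => by rw [Matrix.neg_apply, neg_smul]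

variable {M} {N : Type u} [AddCommGroup N] [Module R N]

theorem act_comp (Φ : Matrix O E R) (φ : M →ₗ[R] N) (v : E → M) :
    act N Φ (φ ∘ v) = φ ∘ act M Φ v := by
  funext o
  simp [act_apply, map_sum]

end act

section homology

variable {w : R} (X : MF R w) (M : Type u) [AddCommGroup M] [Module R M]

/-- The even homology of `X` with coefficients in `M`. -/
abbrev MF.H : Type u := Hm (act M X.Ψ) (act M X.Φ)

variable {X M}

theorem MF.Φ_Ψ (hw : ∀ m : M, w • m = 0) (v : X.O → M) : act M X.Φ (act M X.Ψ v) = 0 := by
  rw [← act_mul, X.h₁, act_smul_one]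
  funext o
  exact hw _

theorem MF.Ψ_Φ (hw : ∀ m : M, w • m = 0) (v : X.E → M) : act M X.Ψ (act M X.Φ v) = 0 := by
  rw [← act_mul, X.h₀, act_smul_one]
  funext o
  exact hw _

/-- Elements homotopic to zero act as zero on the homology. -/
theorem MF.Null.smul {s : R} (h : X.Null s) (x : X.H M) : s • x = 0 := by
  obtain ⟨v, hv, rfl⟩ := hcl_surj _ _ x
  obtain ⟨a, a', h1, _⟩ := h
  have h2 : act M (X.Ψ * a + a' * X.Φ) v = s • v := by rw [h1, act_smul_one]
  rw [act_add, act_mul, act_mul, hv, map_zero, add_zero] at h2
  change hcl _ _ (s • v) (by rw [map_smul, hv, smul_zero]) = 0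
  rw [hcl_eq_zero]
  exact ⟨act M a v, h2⟩

theorem MF.H_finite [IsNoetherianRing R] [Module.Finite R M] : Module.Finite R (X.H M) := by
  haveI : IsNoetherian R M := isNoetherian_of_isNoetherianRing_of_finite R M
  infer_instance

/-- The homology is good. -/
theorem MF.good [IsNoetherianRing R] {A : Type u} [CommRing A] (ε : R →+* A)
    (hε : Function.Surjective ε) [Module.Finite R M]
    (hN : ∀ b, ε b = 0 → b ∈ Ideal.span {s : R | X.Null s}) : Good ε (X.H M) := by
  refine ⟨hε, MF.H_finite, fun b hb x => ?_⟩
  have h1 : Ideal.span {s : R | X.Null s} ≤ Module.annihilator R (X.H M) := by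
    rw [Ideal.span_le]
    intro s hs
    rw [SetLike.mem_coe, Module.mem_annihilator]
    exact fun m => MF.Null.smul hs m
  exact Module.mem_annihilator.1 (h1 (hN b hb)) x

end homology

section additivity

variable [IsNoetherianRing R] {A : Type u} [CommRing A]

/-- The Euler characteristic of the homology. -/
noncomputable def MF.chi {w : R} (X : MF R w) (ε : R →+* A) (M : Type u) [AddCommGroup M]
    [Module R M] : G0 A := clV ε (X.H M) - clV ε (X.op.H M)

theorem MF.chi_add {X : MF R 0} (ε : R →+* A)
    (hε : Function.Surjective ε) (hN : ∀ b, ε b = 0 → b ∈ Ideal.span {s : R | X.Null s})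
    {M' M M'' : Type u} [AddCommGroup M'] [Module R M'] [AddCommGroup M] [Module R M]
    [AddCommGroup M''] [Module R M''] [Module.Finite R M'] [Module.Finite R M]
    [Module.Finite R M''] (i : M' →ₗ[R] M) (p : M →ₗ[R] M'')
    (hi : Function.Injective i) (hp : Function.Surjective p) (h : range i = ker p) :
    X.chi ε M = X.chi ε M' + X.chi ε M'' := by
  have hN' : ∀ b, ε b = 0 → b ∈ Ideal.span {s : R | X.op.Null s} := fun b hb =>
    Ideal.span_mono (fun s hs => MF.Null.op hs) (hN b hb)
  have hz : ∀ m : M, (0 : R) • m = 0 := fun m => zero_smul _ _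
  have hinj : ∀ I : Type, Function.Injective (i.compLeft I) := fun I v v' hv => by
    funext e
    exact hi (congrFun hv e)
  have hsur : ∀ I : Type, Function.Surjective (p.compLeft I) := fun I v => by
    choose u hu using fun e => hp (v e)
    exact ⟨u, funext hu⟩
  have hex : ∀ (I : Type) (x : I → M), p.compLeft I x = 0 ↔ ∃ y, i.compLeft I y = x := by
    intro I x
    constructor
    · intro hx
      have h1 : ∀ e, ∃ y, i y = x e := fun e => by
        have h2 : x e ∈ ker p := congrFun hx e
        rw [← h] at h2
        exact h2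
      choose y hy using h1
      exact ⟨y, funext hy⟩
    · rintro ⟨y, rfl⟩
      funext e
      have h2 : i (y e) ∈ range i := ⟨_, rfl⟩
      rw [h] at h2
      exact h2
  exact euler_add ε (act M' X.Φ) (act M' X.Ψ) (act M X.Φ) (act M X.Ψ) (act M'' X.Φ) (act M'' X.Ψ)
    (i.compLeft X.E) (i.compLeft X.O) (p.compLeft X.E) (p.compLeft X.O)
    (fun x => act_comp X.Φ i x) (fun x => act_comp X.Ψ i x)
    (fun x => act_comp X.Φ p x) (fun x => act_comp X.Ψ p x)
    (hinj _) (hinj _) (hsur _) (hsur _) (hex _) (hex _)
    (MF.Ψ_Φ hz) (MF.Φ_Ψ hz)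
    (MF.good ε hε hN) (MF.good (X := X.op) ε hε hN')
    (MF.good ε hε hN) (MF.good (X := X.op) ε hε hN')
    (MF.good ε hε hN) (MF.good (X := X.op) ε hε hN')

end additivity

end Pool.Agent.GZero
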