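import Mathlib

/-!
# The group `G_0` of a commutative ring

`G0 R` is the Grothendieck group of finitely generated `R`-modules: one generator for each
finitely generated `R`-module, one relation `[M] = [M'] + [M'']` for each short exact sequence.
-/

universe u v

namespace Pool.Agent.GZero

/-- A finitely generated module over the commutative ring `R`. -/
structure FMod (R : Type u) [CommRing R] where
  /-- the underlying type -/
  carrier : Type u
  [grp : AddCommGroup carrier]
  [mod : Module R carrier]
  [fin : Module.Finite R carrier]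

attribute [instance] FMod.grp FMod.mod FMod.fin

/-- The relations `[M] - [M'] - [M'']`, one for each short exact sequence
`0 → M' → M → M'' → 0` of finitely generated modules. -/
def relations (R : Type u) [CommRing R] : Set (FreeAbelianGroup (FMod R)) :=
  {x | ∃ (M' M M'' : FMod R) (i : M'.carrier →ₗ[R] M.carrier)
      (p : M.carrier →ₗ[R] M''.carrier), Function.Injective i ∧ Function.Surjective p ∧
      LinearMap.range i = LinearMap.ker p ∧
      x = FreeAbelianGroup.of M - FreeAbelianGroup.of M' - FreeAbelianGroup.of M''}

/-- The Grothendieck group `G_0(R)` of finitely generated `R`-modules. -/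
def G0 (R : Type u) [CommRing R] : Type (u + 1) :=
  FreeAbelianGroup (FMod R) ⧸ AddSubgroup.closure (relations R)

noncomputable instance (R : Type u) [CommRing R] : AddCommGroup (G0 R) :=
  QuotientAddGroup.Quotient.addCommGroup (AddSubgroup.closure (relations R))

variable {R : Type u} [CommRing R]

/-- The class of a finitely generated module. -/
noncomputable def G0.mk (M : FMod R) : G0 R :=
  QuotientAddGroup.mk (s := AddSubgroup.closure (relations R)) (FreeAbelianGroup.of M)

/-- The class of a finitely generated module. -/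
noncomputable def G0.cls (R : Type u) [CommRing R] (M : Type u) [AddCommGroup M] [Module R M]
    [Module.Finite R M] : G0 R := G0.mk ⟨M⟩

theorem G0.mk_exact (M' M M'' : FMod R) (i : M'.carrier →ₗ[R] M.carrier)
    (p : M.carrier →ₗ[R] M''.carrier) (hi : Function.Injective i)
    (hp : Function.Surjective p) (h : LinearMap.range i = LinearMap.ker p) :
    G0.mk M = G0.mk M' + G0.mk M'' := by
  have hx : FreeAbelianGroup.of M - FreeAbelianGroup.of M' - FreeAbelianGroup.of M'' ∈
      AddSubgroup.closure (relations R) :=
    AddSubgroup.subset_closure ⟨M', M, M'', i, p, hi, hp, h, rfl⟩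
  have h0 := (QuotientAddGroup.eq_zero_iff _).2 hx
  have h1 : G0.mk M - G0.mk M' - G0.mk M'' = 0 := h0
  rw [sub_sub, sub_eq_zero] at h1
  exact h1

theorem G0.cls_exact {M' M M'' : Type u} [AddCommGroup M'] [Module R M'] [Module.Finite R M']
    [AddCommGroup M] [Module R M] [Module.Finite R M]
    [AddCommGroup M''] [Module R M''] [Module.Finite R M'']
    (i : M' →ₗ[R] M) (p : M →ₗ[R] M'') (hi : Function.Injective i)
    (hp : Function.Surjective p) (h : LinearMap.range i = LinearMap.ker p) :
    G0.cls R M = G0.cls R M' + G0.cls R M'' :=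
  G0.mk_exact ⟨M'⟩ ⟨M⟩ ⟨M''⟩ i p hi hp h

theorem G0.cls_subsingleton (M : Type u) [AddCommGroup M] [Module R M] [Module.Finite R M]
    [Subsingleton M] : G0.cls R M = 0 := by
  have h := G0.cls_exact (R := R) (M' := M) (M := M) (M'' := M) LinearMap.id LinearMap.id
    (fun _ _ h => h) (fun x => ⟨x, rfl⟩) (by
      ext x; simp [Subsingleton.elim x 0])
  have h2 : G0.cls R M + 0 = G0.cls R M + G0.cls R M := by rw [add_zero]; exact h
  exact (add_left_cancel h2).symm

theorem G0.cls_congr {M N : Type u} [AddCommGroup M] [Module R M] [Module.Finite R M]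
    [AddCommGroup N] [Module R N] [Module.Finite R N] (e : M ≃ₗ[R] N) :
    G0.cls R M = G0.cls R N := by
  have h := G0.cls_exact (R := R) (M' := M) (M := N) (M'' := PUnit) e.toLinearMap 0
    e.injective (fun x => ⟨0, Subsingleton.elim _ _⟩) (by
      rw [LinearMap.ker_zero, LinearEquiv.range])
  rw [G0.cls_subsingleton (R := R) PUnit, add_zero] at h
  exact h.symm

/-- Additive functions of modules define homomorphisms from `G_0`. -/
noncomputable def G0.lift {Γ : Type v} [AddCommGroup Γ] (φ : FMod R → Γ)
    (hφ : ∀ (M' M M'' : FMod R) (i : M'.carrier →ₗ[R] M.carrier)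
      (p : M.carrier →ₗ[R] M''.carrier), Function.Injective i → Function.Surjective p →
      LinearMap.range i = LinearMap.ker p → φ M = φ M' + φ M'') : G0 R →+ Γ :=
  QuotientAddGroup.lift (AddSubgroup.closure (relations R)) (FreeAbelianGroup.lift φ) (by
    rw [AddSubgroup.closure_le]
    rintro x ⟨M', M, M'', i, p, hi, hp, h, rfl⟩
    simp only [SetLike.mem_coe, AddMonoidHom.mem_ker, map_sub, FreeAbelianGroup.lift_apply_of]
    rw [hφ M' M M'' i p hi hp h]
    abel)

theorem G0.lift_mk {Γ : Type v} [AddCommGroup Γ] (φ : FMod R → Γ) (hφ) (M : FMod R) :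
    G0.lift φ hφ (G0.mk M) = φ M := by
  unfold G0.lift G0.mk
  exact (QuotientAddGroup.lift_mk _ _ _).trans (FreeAbelianGroup.lift_apply_of _ _)

theorem G0.hom_ext {Γ : Type v} [AddCommGroup Γ] {f g : G0 R →+ Γ}
    (h : ∀ M : FMod R, f (G0.mk M) = g (G0.mk M)) : f = g := by
  apply QuotientAddGroup.addMonoidHom_ext
  apply FreeAbelianGroup.lift_ext
  intro M
  exact h M

end Pool.Agent.GZero
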