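import Pool.Agent.GZero.Basic

/-!
# The hypersurface `y_1 f_1(x) + … + y_r f_r(x) + z - z^2 = 0`
-/

universe u v

namespace Pool.Agent.GZero

open scoped TensorProduct

/-- Extension of scalars: `S ⊗ M`. -/
noncomputable def FMod.ext {R : Type u} [CommRing R] (M : FMod R) (S : Type u) [CommRing S]
    [Algebra R S] : FMod S := ⟨S ⊗[R] M.carrier⟩

variable {k : Type u} [CommRing k] {m r : ℕ}

/-- The polynomial `y_1 f_1(x) + … + y_r f_r(x) + z - z^2` in the variables `y_l`, `z`, `x_i`. -/
noncomputable def cubic (f : Fin r → MvPolynomial (Fin m) k) :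
    MvPolynomial (Fin r ⊕ Option (Fin m)) k :=
  ∑ l, MvPolynomial.X (Sum.inl l) *
    MvPolynomial.rename (fun i => Sum.inr (some i)) (f l) +
    (MvPolynomial.X (Sum.inr none) - MvPolynomial.X (Sum.inr none) ^ 2)

/-- The algebra `A = k[x_1, …, x_m]/(f_1, …, f_r)`. -/
def Quo (f : Fin r → MvPolynomial (Fin m) k) : Type u :=
  MvPolynomial (Fin m) k ⧸ Ideal.span (Set.range f)

noncomputable instance (f : Fin r → MvPolynomial (Fin m) k) : CommRing (Quo f) :=
  Ideal.Quotient.commRing (Ideal.span (Set.range f))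

noncomputable instance (f : Fin r → MvPolynomial (Fin m) k) : Algebra k (Quo f) :=
  Ideal.Quotient.algebra k

/-- The algebra `S = k[x, y, z]/(y_1 f_1(x) + … + y_r f_r(x) + z - z^2)`. -/
def Cub (f : Fin r → MvPolynomial (Fin m) k) : Type u :=
  MvPolynomial (Fin r ⊕ Option (Fin m)) k ⧸ Ideal.span {cubic f}

noncomputable instance (f : Fin r → MvPolynomial (Fin m) k) : CommRing (Cub f) :=
  Ideal.Quotient.commRing (Ideal.span {cubic f})

noncomputable instance (f : Fin r → MvPolynomial (Fin m) k) : Algebra k (Cub f) :=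
  Ideal.Quotient.algebra k

end Pool.Agent.GZero
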