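import Mathlib

/-!
# Every finitely presented algebra has a presentation by polynomials of degree at most two
-/

set_option linter.style.haveILetI false

universe u v

namespace Pool.Agent.GZero

open MvPolynomial (X C monomial coeff aeval totalDegree)

section

variable {k : Type u} [CommRing k] {n s : ℕ} (h : Fin s → MvPolynomial (Fin n) k) (D : ℕ)

/-- The new variables: the monomials of degree at most `D`. -/
abbrev Mon (n D : ℕ) : Type := {m : Fin n →₀ ℕ // m.degree ≤ D}

theorem mon_finite (n D : ℕ) : Finite (Mon n D) :=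
  (Finsupp.finite_of_degree_le (σ := Fin n) D).to_subtype

/-- The indices of the relations. -/
abbrev Rel (n D s : ℕ) : Type := Unit ⊕ ({m : Fin n →₀ ℕ // m.degree < D} × Fin n) ⊕ Fin s

/-- The trivial monomial. -/
def mon0 (n D : ℕ) : Mon n D := ⟨0, by rw [map_zero]; exact Nat.zero_le _⟩

/-- The monomial `m x_i`. -/
noncomputable def monS {n D : ℕ} (m : {m : Fin n →₀ ℕ // m.degree < D}) (i : Fin n) : Mon n D :=
  ⟨m.1 + Finsupp.single i 1, by
    rw [map_add, Finsupp.degree_single]
    exact m.2⟩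

/-- The inclusion. -/
def monI {n D : ℕ} (m : {m : Fin n →₀ ℕ // m.degree < D}) : Mon n D := ⟨m.1, m.2.le⟩

/-- The monomial `x_i`. -/
noncomputable def mon1 {n D : ℕ} (hD : 0 < D) (i : Fin n) : Mon n D :=
  ⟨Finsupp.single i 1, by rw [Finsupp.degree_single]; exact hD⟩

open Classical in
/-- The new variable attached to a monomial. -/
noncomputable def newX (k : Type u) [CommRing k] {n : ℕ} (D : ℕ) (m : Fin n →₀ ℕ) :
    MvPolynomial (Mon n D) k :=
  if hm : m.degree ≤ D then X ⟨m, hm⟩ else 0

theorem newX_pos {n D : ℕ} {m : Fin n →₀ ℕ} (hm : m.degree ≤ D) :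
    newX k D m = X ⟨m, hm⟩ := dif_pos hm

/-- The linear form attached to a polynomial. -/
noncomputable def lin (D : ℕ) {n : ℕ} (p : MvPolynomial (Fin n) k) : MvPolynomial (Mon n D) k :=
  ∑ m ∈ p.support, C (p.coeff m) * newX k D m

theorem lin_eq {B : Type v} [CommRing B] [Algebra k B] (φ : MvPolynomial (Mon n D) k →ₐ[k] B)
    (ψ : MvPolynomial (Fin n) k →ₐ[k] B)
    (H : ∀ (m : Fin n →₀ ℕ) (hm : m.degree ≤ D), φ (X ⟨m, hm⟩) = ψ (monomial m 1))
    (p : MvPolynomial (Fin n) k) (hp : p.totalDegree ≤ D) : φ (lin D p) = ψ p := by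
  have h1 : p = ∑ m ∈ p.support, C (p.coeff m) * monomial m 1 := by
    conv_lhs => rw [p.as_sum]
    refine Finset.sum_congr rfl fun m _ => ?_
    rw [MvPolynomial.C_mul_monomial, mul_one]
  have h2 : φ (lin D p) = ∑ m ∈ p.support, φ (C (p.coeff m) * newX k D m) := map_sum φ _ _
  have h3 : ψ p = ∑ m ∈ p.support, ψ (C (p.coeff m) * monomial m 1) := by
    rw [← map_sum, ← h1]
  rw [h2, h3]
  refine Finset.sum_congr rfl fun m hm => ?_
  have hmD : m.degree ≤ D := by
    refine le_trans ?_ hp
    exact MvPolynomial.le_totalDegree hm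
  rw [newX_pos hmD, map_mul, map_mul, H m hmD]
  have h4 : φ (C (p.coeff m)) = ψ (C (p.coeff m)) := by
    rw [← MvPolynomial.algebraMap_eq, ← MvPolynomial.algebraMap_eq, φ.commutes, ψ.commutes]
  rw [h4]

theorem lin_degree (p : MvPolynomial (Fin n) k) : (lin D p).totalDegree ≤ 1 := by
  rcases subsingleton_or_nontrivial k with hk | hk
  · rw [Subsingleton.elim (lin D p) 0, MvPolynomial.totalDegree_zero]
    norm_num
  refine (MvPolynomial.totalDegree_finsetSum _ _).trans ?_
  refine Finset.sup_le fun m _ => ?_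
  refine (MvPolynomial.totalDegree_mul _ _).trans ?_
  rw [MvPolynomial.totalDegree_C, zero_add]
  by_cases hm : m.degree ≤ D
  · rw [newX_pos hm, MvPolynomial.totalDegree_X]
  · unfold newX
    rw [dif_neg hm, MvPolynomial.totalDegree_zero]
    norm_num

/-- The relations. -/
noncomputable def relq (hD : 0 < D) : Rel n D s → MvPolynomial (Mon n D) k
  | Sum.inl _ => X (mon0 n D) - 1
  | Sum.inr (Sum.inl (m, i)) => X (monS m i) - X (monI m) * X (mon1 hD i)
  | Sum.inr (Sum.inr j) => lin D (h j)

theorem relq_degree (hD : 0 < D) (x : Rel n D s) : (relq h D hD x).totalDegree ≤ 2 := by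
  rcases subsingleton_or_nontrivial k with hk | hk
  · rw [Subsingleton.elim (relq h D hD x) 0, MvPolynomial.totalDegree_zero]
    norm_num
  rcases x with _ | ⟨m, i⟩ | j
  · refine (MvPolynomial.totalDegree_sub _ _).trans ?_
    rw [MvPolynomial.totalDegree_X, MvPolynomial.totalDegree_one]
    norm_num
  · refine (MvPolynomial.totalDegree_sub _ _).trans (max_le ?_ ?_)
    · rw [MvPolynomial.totalDegree_X]
      norm_num
    · refine (MvPolynomial.totalDegree_mul _ _).trans ?_
      rw [MvPolynomial.totalDegree_X, MvPolynomial.totalDegree_X]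
  · exact (lin_degree D (h j)).trans (by norm_num)

/-- The ideal of the relations. -/
noncomputable abbrev relI (hD : 0 < D) : Ideal (MvPolynomial (Mon n D) k) :=
  Ideal.span (Set.range (relq h D hD))

/-- The map to the old quotient, before passing to the quotient. -/
noncomputable def phi0 : MvPolynomial (Mon n D) k →ₐ[k]
    (MvPolynomial (Fin n) k ⧸ Ideal.span (Set.range h)) :=
  aeval fun m => Ideal.Quotient.mkₐ k (Ideal.span (Set.range h)) (monomial m.1 1)

theorem phi0_X (m : Mon n D) : phi0 h D (X m) =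
    Ideal.Quotient.mkₐ k (Ideal.span (Set.range h)) (monomial m.1 1) := by
  unfold phi0
  rw [MvPolynomial.aeval_X]

theorem phi_rel (hD : 0 < D) (hdeg : ∀ j, (h j).totalDegree ≤ D) (x : Rel n D s) :
    phi0 h D (relq h D hD x) = 0 := by
  rcases x with _ | ⟨m, i⟩ | j
  · have h1 : relq h D hD (Sum.inl ()) = X (mon0 n D) - 1 := rfl
    have h2 : (monomial (mon0 n D).1 (1 : k)) = (1 : MvPolynomial (Fin n) k) := rfl
    rw [h1, map_sub, phi0_X, h2]
    erw [map_one, map_one]
    exact sub_self _
  · have h1 : relq h D hD (Sum.inr (Sum.inl (m, i))) =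
      X (monS m i) - X (monI m) * X (mon1 hD i) := rfl
    have h2 : (monomial (monS m i).1 (1 : k)) = monomial (monI m).1 1 * monomial (mon1 hD i).1 1 := by
      rw [MvPolynomial.monomial_mul, one_mul]
      rfl
    rw [h1, map_sub, map_mul, phi0_X, phi0_X, phi0_X, h2, map_mul, sub_self]
  · have h1 : relq h D hD (Sum.inr (Sum.inr j)) = lin D (h j) := rfl
    rw [h1, lin_eq D (phi0 h D) (Ideal.Quotient.mkₐ k (Ideal.span (Set.range h)))
      (fun m hm => phi0_X h D ⟨m, hm⟩) (h j) (hdeg j)]
    exact Ideal.Quotient.eq_zero_iff_mem.2 (Ideal.subset_span ⟨j, rfl⟩)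

/-- The map from the new polynomial ring. -/
noncomputable def phi (hD : 0 < D) (hdeg : ∀ j, (h j).totalDegree ≤ D) :
    (MvPolynomial (Mon n D) k ⧸ relI h D hD) →ₐ[k]
      (MvPolynomial (Fin n) k ⧸ Ideal.span (Set.range h)) :=
  Ideal.Quotient.liftₐ _ (phi0 h D) (by
    intro a ha
    have h1 : relI h D hD ≤ RingHom.ker (phi0 h D) := by
      rw [Ideal.span_le]
      rintro _ ⟨x, rfl⟩
      exact phi_rel h D hD hdeg x
    exact h1 ha)

/-- The map to the new ring, before passing to the quotient. -/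
noncomputable def psi0 (hD : 0 < D) :
    MvPolynomial (Fin n) k →ₐ[k] (MvPolynomial (Mon n D) k ⧸ relI h D hD) :=
  aeval fun i => Ideal.Quotient.mkₐ k (relI h D hD) (X (mon1 hD i))

theorem psi0_X (hD : 0 < D) (i : Fin n) : psi0 h D hD (X i) =
    Ideal.Quotient.mkₐ k (relI h D hD) (X (mon1 hD i)) := by
  unfold psi0
  rw [MvPolynomial.aeval_X]

theorem rel_zero (hD : 0 < D) (x : Rel n D s) :
    (Ideal.Quotient.mkₐ k (relI h D hD)) (relq h D hD x) = 0 :=
  Ideal.Quotient.eq_zero_iff_mem.2 (Ideal.subset_span ⟨x, rfl⟩)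

theorem psi0_monomial (hD : 0 < D) : ∀ (d : ℕ) (m : Fin n →₀ ℕ) (hm : m.degree ≤ D),
    m.degree = d → psi0 h D hD (monomial m 1) = Ideal.Quotient.mkₐ k (relI h D hD) (X ⟨m, hm⟩) := by
  intro d
  induction d with
  | zero =>
    intro m hm hd
    have hm0 : m = 0 := (Finsupp.degree_eq_zero_iff m).1 hd
    subst hm0
    have h1 : (monomial (0 : Fin n →₀ ℕ) (1 : k)) = 1 := rfl
    have h2 := rel_zero h D hD (Sum.inl ())
    have h3 : relq h D hD (Sum.inl ()) = X (mon0 n D) - 1 := rfl
    have h4 : Ideal.Quotient.mkₐ k (relI h D hD) 1 = 1 := map_one _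
    have h5 : psi0 h D hD 1 = 1 := map_one _
    rw [h3, map_sub, h4, sub_eq_zero] at h2
    rw [h1, h5]
    exact h2.symm
  | succ d ih =>
    intro m hm hd
    have hm0 : m ≠ 0 := by
      rintro rfl
      rw [map_zero] at hd
      omega
    obtain ⟨i, hi⟩ : ∃ i, m i ≠ 0 := by
      by_contra hcon
      push Not at hcon
      exact hm0 (Finsupp.ext hcon)
    have hsplit : m = (m - Finsupp.single i 1) + Finsupp.single i 1 := by
      refine (tsub_add_cancel_of_le ?_).symm
      rw [Finsupp.single_le_iff]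
      exact Nat.one_le_iff_ne_zero.2 hi
    generalize m - Finsupp.single i 1 = m' at hsplit
    have hdeg' : m'.degree = d := by
      have := congrArg Finsupp.degree hsplit
      rw [map_add, Finsupp.degree_single] at this
      omega
    have hlt : m'.degree < D := by omega
    have h2 := rel_zero h D hD (Sum.inr (Sum.inl (⟨m', hlt⟩, i)))
    have h3 : relq h D hD (Sum.inr (Sum.inl (⟨m', hlt⟩, i))) =
      X (monS ⟨m', hlt⟩ i) - X (monI ⟨m', hlt⟩) * X (mon1 hD i) := rfl
    rw [h3, map_sub, map_mul, sub_eq_zero] at h2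
    have h5 : (⟨m, hm⟩ : Mon n D) = monS ⟨m', hlt⟩ i := Subtype.ext hsplit
    have h4 : (monomial m (1 : k)) = monomial m' 1 * X i := by
      rw [MvPolynomial.X, MvPolynomial.monomial_mul, mul_one, ← hsplit]
    rw [h5, h2, h4, map_mul, ih m' hlt.le hdeg', psi0_X]
    rfl

/-- The map to the new ring. -/
noncomputable def psi (hD : 0 < D) (hdeg : ∀ j, (h j).totalDegree ≤ D) :
    (MvPolynomial (Fin n) k ⧸ Ideal.span (Set.range h)) →ₐ[k]
      (MvPolynomial (Mon n D) k ⧸ relI h D hD) :=
  Ideal.Quotient.liftₐ _ (psi0 h D hD) (by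
    intro a ha
    have h1 : Ideal.span (Set.range h) ≤ RingHom.ker (psi0 h D hD) := by
      rw [Ideal.span_le]
      rintro _ ⟨j, rfl⟩
      rw [SetLike.mem_coe, RingHom.mem_ker]
      have h2 := rel_zero h D hD (Sum.inr (Sum.inr j))
      have h3 : relq h D hD (Sum.inr (Sum.inr j)) = lin D (h j) := rfl
      rw [h3] at h2
      rw [← h2]
      exact (lin_eq D (Ideal.Quotient.mkₐ k (relI h D hD)) (psi0 h D hD)
        (fun m hm => (psi0_monomial h D hD _ m hm rfl).symm) (h j) (hdeg j)).symm
    exact h1 ha)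

/-- The quadratic presentation. -/
noncomputable def quadEquiv (hD : 0 < D) (hdeg : ∀ j, (h j).totalDegree ≤ D) :
    (MvPolynomial (Mon n D) k ⧸ relI h D hD) ≃ₐ[k]
      (MvPolynomial (Fin n) k ⧸ Ideal.span (Set.range h)) :=
  AlgEquiv.ofAlgHom (phi h D hD hdeg) (psi h D hD hdeg)
    (by
      apply Ideal.Quotient.algHom_ext
      apply MvPolynomial.algHom_ext
      intro i
      have h1 : phi h D hD hdeg (psi0 h D hD (X i)) =
          Ideal.Quotient.mkₐ k (Ideal.span (Set.range h)) (X i) := by
        rw [psi0_X]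
        exact phi0_X h D (mon1 hD i)
      exact h1)
    (by
      apply Ideal.Quotient.algHom_ext
      apply MvPolynomial.algHom_ext
      intro m
      have h1 : psi h D hD hdeg (phi0 h D (X m)) = Ideal.Quotient.mkₐ k (relI h D hD) (X m) := by
        rw [phi0_X]
        exact psi0_monomial h D hD _ m.1 m.2 rfl
      exact h1)

end

/-- Every finitely presented algebra has a presentation by polynomials of degree at most two. -/
theorem exists_quadratic (k A : Type u) [CommRing k] [IsNoetherianRing k] [CommRing A]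
    [Algebra k A] [Algebra.FiniteType k A] : ∃ (I : Type) (_ : Finite I) (r : ℕ)
    (f : Fin r → MvPolynomial I k), (∀ l, (f l).totalDegree ≤ 2) ∧
    Nonempty ((MvPolynomial I k ⧸ Ideal.span (Set.range f)) ≃ₐ[k] A) := by
  obtain ⟨n, π, hπ⟩ := Algebra.FiniteType.iff_quotient_mvPolynomial''.1
    (inferInstance : Algebra.FiniteType k A)
  have hfg : (RingHom.ker π).FG := IsNoetherian.noetherian _
  obtain ⟨t, ht⟩ := hfg
  let h : Fin t.card → MvPolynomial (Fin n) k := fun j => (t.equivFin.symm j : t)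
  have hr : Set.range h = t := by
    ext x
    constructor
    · rintro ⟨j, rfl⟩
      exact (t.equivFin.symm j).2
    · intro hx
      exact ⟨t.equivFin ⟨x, hx⟩, by simp [h]⟩
  have hspan : Ideal.span (Set.range h) = RingHom.ker π := by rw [hr]; exact ht
  let D : ℕ := (Finset.univ.sup fun j => (h j).totalDegree) + 1
  have hD : 0 < D := Nat.succ_pos _
  have hdeg : ∀ j, (h j).totalDegree ≤ D := fun j =>
    (Finset.le_sup (f := fun j => (h j).totalDegree) (Finset.mem_univ j)).trans (Nat.le_succ _)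
  have e1 := quadEquiv h D hD hdeg
  have e2 : (MvPolynomial (Fin n) k ⧸ Ideal.span (Set.range h)) ≃ₐ[k]
      (MvPolynomial (Fin n) k ⧸ RingHom.ker π) := Ideal.quotientEquivAlgOfEq k hspan
  have e3 := Ideal.quotientKerAlgEquivOfSurjective hπ
  haveI := mon_finite n D
  haveI : Finite {m : Fin n →₀ ℕ // m.degree < D} :=
    Finite.of_injective (fun m => (monI m : Mon n D)) (fun a b hab => by
      have := congrArg Subtype.val hab
      exact Subtype.ext this)
  haveI : Finite (Rel n D t.card) := inferInstance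
  let e4 := Finite.equivFin (Rel n D t.card)
  refine ⟨Mon n D, inferInstance, _, fun l => relq h D hD (e4.symm l),
    fun l => relq_degree h D hD _, ?_⟩
  have hrange : Set.range (fun l => relq h D hD (e4.symm l)) = Set.range (relq h D hD) :=
    e4.symm.surjective.range_comp (relq h D hD)
  rw [hrange]
  exact ⟨(e1.trans e2).trans e3⟩

end Pool.Agent.GZero
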