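import Pool.Agent.GZero.Summand
import Pool.Agent.GZero.Quad

/-!
# `G_0` of every algebra of finite type is a direct summand of `G_0` of a cubic hypersurface
-/

set_option linter.style.haveILetI false

universe u v

namespace Pool.Agent.GZero

open MvPolynomial (X C)

section

variable {k : Type u} [CommRing k] {I : Type} {r n : ℕ}

/-- The polynomials in the variables `y_l` over the ring of polynomials in the variables `x_i`. -/
noncomputable def flat (e : Fin r ⊕ I ≃ Fin n) :
    MvPolynomial (Fin r) (MvPolynomial I k) ≃ₐ[k] MvPolynomial (Fin n) k :=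
  (MvPolynomial.sumAlgEquiv k (Fin r) I).symm.trans (MvPolynomial.renameEquiv k e)

theorem flat_X (e : Fin r ⊕ I ≃ Fin n) (l : Fin r) :
    flat (k := k) e (X l) = X (e (Sum.inl l)) := by
  have h1 : (MvPolynomial.sumAlgEquiv k (Fin r) I).symm (X l) = X (Sum.inl l) := by
    rw [AlgEquiv.symm_apply_eq]
    simp
  unfold flat
  rw [AlgEquiv.trans_apply, h1]
  simp

theorem flat_C (e : Fin r ⊕ I ≃ Fin n) (p : MvPolynomial I k) :
    flat (k := k) e (C p) = MvPolynomial.rename (fun i => e (Sum.inr i)) p := by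
  have h1 : (flat (k := k) e).toAlgHom.comp (IsScalarTower.toAlgHom k (MvPolynomial I k)
      (MvPolynomial (Fin r) (MvPolynomial I k))) =
      MvPolynomial.rename (fun i => e (Sum.inr i)) := by
    apply MvPolynomial.algHom_ext
    intro i
    have h2 : (MvPolynomial.sumAlgEquiv k (Fin r) I).symm (C (X i)) = X (Sum.inr i) := by
      rw [AlgEquiv.symm_apply_eq]
      simp
    change flat e (C (X i)) = _
    unfold flat
    rw [AlgEquiv.trans_apply, h2]
    simp
  exact DFunLike.congr_fun h1 p

theorem flat_degree (e : Fin r ⊕ I ≃ Fin n) (f : Fin r → MvPolynomial I k)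
    (hf : ∀ l, (f l).totalDegree ≤ 2) : (flat e (pairing f)).totalDegree ≤ 3 := by
  rcases subsingleton_or_nontrivial k with hk | hk
  · rw [Subsingleton.elim (flat e (pairing f)) 0, MvPolynomial.totalDegree_zero]
    norm_num
  unfold pairing
  rw [map_sum]
  refine (MvPolynomial.totalDegree_finsetSum _ _).trans (Finset.sup_le fun l _ => ?_)
  rw [map_mul, flat_X, flat_C]
  refine (MvPolynomial.totalDegree_mul _ _).trans ?_
  have h1 := (MvPolynomial.totalDegree_rename_le (fun i => e (Sum.inr i)) (f l)).trans (hf l)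
  rw [MvPolynomial.totalDegree_X]
  omega

end

/-- `G_0` of every algebra of finite type over a noetherian ring `k` is a direct summand of `G_0`
of a hypersurface of degree at most three. -/
theorem exists_cubic (k A : Type u) [CommRing k] [IsNoetherianRing k] [CommRing A]
    [Algebra k A] [Algebra.FiniteType k A] :
    ∃ (n : ℕ) (F : MvPolynomial (Fin n) k), F.totalDegree ≤ 3 ∧
      ∃ (i : G0 A →+ G0 (MvPolynomial (Fin n) k ⧸ Ideal.span {F}))
        (t : G0 (MvPolynomial (Fin n) k ⧸ Ideal.span {F}) →+ G0 A), ∀ x, t (i x) = x := by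
  obtain ⟨I, hI, r, f, hf, ⟨e⟩⟩ := exists_quadratic k A
  obtain ⟨n, ⟨e0⟩⟩ := Finite.exists_equiv_fin (Fin r ⊕ I)
  refine ⟨n, flat e0 (pairing f), flat_degree e0 f hf, ?_⟩
  let E : Hyp f ≃+* (MvPolynomial (Fin n) k ⧸ Ideal.span {flat e0 (pairing f)}) :=
    Ideal.quotientEquiv _ _ (flat (k := k) e0).toRingEquiv (by
      rw [Ideal.map_span, Set.image_singleton]
      rfl)
  let g1 : G0 (Base f) ≃+ G0 A := G0.congrRing e.toRingEquiv
  let g2 : G0 (Hyp f) ≃+ G0 (MvPolynomial (Fin n) k ⧸ Ideal.span {flat e0 (pairing f)}) :=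
    G0.congrRing E
  refine ⟨(g2.toAddMonoidHom.comp (incl f)).comp g1.symm.toAddMonoidHom,
    (g1.toAddMonoidHom.comp (retr f)).comp g2.symm.toAddMonoidHom, fun x => ?_⟩
  change g1 (retr f (g2.symm (g2 (incl f (g1.symm x))))) = x
  rw [g2.symm_apply_apply, retr_incl, g1.apply_symm_apply]

end Pool.Agent.GZero
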