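import Pool.Agent.GZero.Functor
import Pool.Agent.GZero.Cub

/-!
# The modules `A[y] ⊗ M` over the hypersurface
-/

universe u v

set_option linter.style.haveILetI false

namespace Pool.Agent.GZero

open scoped TensorProduct

/-- Restriction of scalars along a surjection. -/
noncomputable def FMod.res {R S : Type u} [CommRing R] [CommRing S] (M : FMod S) (σ : R →+* S)
    (hσ : Function.Surjective σ) : FMod R :=
  letI := Module.compHom M.carrier σ
  haveI := finite_compHom σ hσ M.carrier
  ⟨M.carrier⟩

variable {k : Type u} [CommRing k] {m r : ℕ}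

/-- The homomorphism `k[x] → A`. -/
noncomputable def Quo.mk (f : Fin r → MvPolynomial (Fin m) k) :
    MvPolynomial (Fin m) k →ₐ[k] Quo f := Ideal.Quotient.mkₐ k (Ideal.span (Set.range f))

theorem Quo.mk_surjective (f : Fin r → MvPolynomial (Fin m) k) :
    Function.Surjective (Quo.mk f) := Ideal.Quotient.mk_surjective

theorem Quo.mk_f (f : Fin r → MvPolynomial (Fin m) k) (l : Fin r) : Quo.mk f (f l) = 0 :=
  Ideal.Quotient.eq_zero_iff_mem.2 (Ideal.subset_span ⟨l, rfl⟩)

/-- The homomorphism `k[x, y, z] → S`. -/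
noncomputable def Cub.mk (f : Fin r → MvPolynomial (Fin m) k) :
    MvPolynomial (Fin r ⊕ Option (Fin m)) k →ₐ[k] Cub f :=
  Ideal.Quotient.mkₐ k (Ideal.span {cubic f})

theorem Cub.mk_surjective (f : Fin r → MvPolynomial (Fin m) k) :
    Function.Surjective (Cub.mk f) := Ideal.Quotient.mk_surjective

/-- The images of the variables in `A[y]`: `x_i ↦ x_i`, `y_l ↦ y_l`, `z ↦ 1`. -/
noncomputable def values (f : Fin r → MvPolynomial (Fin m) k) :
    Fin r ⊕ Option (Fin m) → MvPolynomial (Fin r) (Quo f)
  | Sum.inl l => MvPolynomial.X l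
  | Sum.inr none => 1
  | Sum.inr (some i) => MvPolynomial.C (Quo.mk f (MvPolynomial.X i))

theorem aeval_values_rename (f : Fin r → MvPolynomial (Fin m) k) (p : MvPolynomial (Fin m) k) :
    MvPolynomial.aeval (values f) (MvPolynomial.rename (fun i => Sum.inr (some i)) p) =
      MvPolynomial.C (Quo.mk f p) := by
  rw [MvPolynomial.aeval_rename]
  induction p using MvPolynomial.induction_on with
  | C a =>
    rw [MvPolynomial.aeval_C]
    have h1 : Quo.mk f (MvPolynomial.C a) = algebraMap k (Quo f) a := (Quo.mk f).commutes a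
    rw [h1]
    rfl
  | add p q hp hq => rw [map_add, hp, hq, map_add, map_add]
  | mul_X p i hp =>
    rw [map_mul, hp, MvPolynomial.aeval_X, map_mul, map_mul]
    rfl

theorem aeval_cubic (f : Fin r → MvPolynomial (Fin m) k) :
    MvPolynomial.aeval (values f) (cubic f) = 0 := by
  unfold cubic
  rw [map_add, map_sum, map_sub, map_pow, MvPolynomial.aeval_X]
  have h1 : values f (Sum.inr none) = 1 := rfl
  rw [h1, one_pow, sub_self, add_zero]
  refine Finset.sum_eq_zero fun l _ => ?_
  rw [map_mul, aeval_values_rename, Quo.mk_f, map_zero, mul_zero]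

/-- The surjection `S → A[y]` with `x_i ↦ x_i`, `y_l ↦ y_l`, `z ↦ 1`. -/
noncomputable def sect (f : Fin r → MvPolynomial (Fin m) k) :
    Cub f →ₐ[k] MvPolynomial (Fin r) (Quo f) :=
  Ideal.Quotient.liftₐ (Ideal.span {cubic f}) (MvPolynomial.aeval (values f)) (by
      intro a ha
      obtain ⟨b, rfl⟩ := Ideal.mem_span_singleton'.1 ha
      rw [map_mul, aeval_cubic, mul_zero])

theorem sect_mk (f : Fin r → MvPolynomial (Fin m) k)
    (p : MvPolynomial (Fin r ⊕ Option (Fin m)) k) :
    sect f (Cub.mk f p) = MvPolynomial.aeval (values f) p := rfl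

theorem sect_surjective (f : Fin r → MvPolynomial (Fin m) k) :
    Function.Surjective (sect f : Cub f →+* MvPolynomial (Fin r) (Quo f)) := by
  intro v
  induction v using MvPolynomial.induction_on with
  | C a =>
    obtain ⟨p, rfl⟩ := Quo.mk_surjective f a
    exact ⟨Cub.mk f (MvPolynomial.rename (fun i => Sum.inr (some i)) p),
      (sect_mk f _).trans (aeval_values_rename f p)⟩
  | add p q hp hq =>
    obtain ⟨a, ha⟩ := hp
    obtain ⟨b, hb⟩ := hq
    exact ⟨a + b, by rw [map_add, ha, hb]⟩
  | mul_X p i hp =>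
    obtain ⟨a, ha⟩ := hp
    refine ⟨a * Cub.mk f (MvPolynomial.X (Sum.inl i)), ?_⟩
    rw [map_mul, ha]
    congr 1
    exact (sect_mk f _).trans (MvPolynomial.aeval_X (values f) (Sum.inl i))

/-- The `S`-module `A[y] ⊗ M`, with `z` acting as `1`. -/
noncomputable def cyl (f : Fin r → MvPolynomial (Fin m) k) (M : FMod (Quo f)) : FMod (Cub f) :=
  (M.ext (MvPolynomial (Fin r) (Quo f))).res
    (sect f : Cub f →+* MvPolynomial (Fin r) (Quo f)) (sect_surjective f)

end Pool.Agent.GZero
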