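import Pool.Agent.GZero.Via

/-!
# The Euler characteristic of two-periodic complexes is additive
-/

universe u v

set_option linter.style.haveILetI false

namespace Pool.Agent.GZero

open LinearMap (ker range)

section Hm

variable {B : Type u} [CommRing B]
variable {C A D : Type u} [AddCommGroup C] [Module B C] [AddCommGroup A] [Module B A]
  [AddCommGroup D] [Module B D]
variable {C' A' D' : Type u} [AddCommGroup C'] [Module B C'] [AddCommGroup A'] [Module B A']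
  [AddCommGroup D'] [Module B D']

/-- The homology `ker f / im g` of two composable maps `g : C → A` and `f : A → D`. -/
abbrev Hm (g : C →ₗ[B] A) (f : A →ₗ[B] D) : Type u :=
  ↥(ker f) ⧸ Submodule.comap (ker f).subtype (range g)

/-- The class of a cycle. -/
def hcl (g : C →ₗ[B] A) (f : A →ₗ[B] D) (x : A) (hx : f x = 0) : Hm g f :=
  Submodule.Quotient.mk ⟨x, hx⟩

theorem hcl_surj (g : C →ₗ[B] A) (f : A →ₗ[B] D) (h : Hm g f) :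
    ∃ (x : A) (hx : f x = 0), hcl g f x hx = h := by
  obtain ⟨⟨x, hx⟩, rfl⟩ := Submodule.Quotient.mk_surjective _ h
  exact ⟨x, hx, rfl⟩

theorem hcl_eq_zero (g : C →ₗ[B] A) (f : A →ₗ[B] D) (x : A) (hx : f x = 0) :
    hcl g f x hx = 0 ↔ ∃ c, g c = x := by
  unfold hcl
  rw [Submodule.Quotient.mk_eq_zero, Submodule.mem_comap]
  exact Iff.rfl

/-- The map on homology. -/
def hmap (g : C →ₗ[B] A) (f : A →ₗ[B] D) (g' : C' →ₗ[B] A') (f' : A' →ₗ[B] D')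
    (w : C →ₗ[B] C') (m : A →ₗ[B] A') (v : D →ₗ[B] D')
    (h1 : ∀ x, f' (m x) = v (f x)) (h2 : ∀ x, g' (w x) = m (g x)) : Hm g f →ₗ[B] Hm g' f' :=
  Submodule.mapQ _ _ ((m.comp (ker f).subtype).codRestrict (ker f') (fun x => by
      rw [LinearMap.mem_ker, LinearMap.comp_apply, h1]
      have := x.2
      rw [LinearMap.mem_ker] at this
      rw [Submodule.subtype_apply, this, map_zero])) (by
    rintro ⟨x, hx⟩ ⟨c, hc⟩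
    exact ⟨w c, by rw [h2, hc]; rfl⟩)

theorem hmap_hcl (g : C →ₗ[B] A) (f : A →ₗ[B] D) (g' : C' →ₗ[B] A') (f' : A' →ₗ[B] D')
    (w : C →ₗ[B] C') (m : A →ₗ[B] A') (v : D →ₗ[B] D')
    (h1 : ∀ x, f' (m x) = v (f x)) (h2 : ∀ x, g' (w x) = m (g x)) (x : A) (hx : f x = 0) :
    hmap g f g' f' w m v h1 h2 (hcl g f x hx) =
      hcl g' f' (m x) (by rw [h1, hx, map_zero]) := rfl

end Hm

section euler

variable {B : Type u} [CommRing B] [IsNoetherianRing B] {A : Type u} [CommRing A]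

theorem clV_ker_range (ε : B →+* A) {N N' : Type u} [AddCommGroup N] [Module B N]
    [AddCommGroup N'] [Module B N'] (hN : Good ε N) (h : N →ₗ[B] N') :
    clV ε N = clV ε (ker h) + clV ε (range h) :=
  clV_exact ε hN (ker h).subtype h.rangeRestrict (ker h).injective_subtype
    h.surjective_rangeRestrict (by rw [Submodule.range_subtype, LinearMap.ker_rangeRestrict])

theorem clV_sub_quot (ε : B →+* A) {N : Type u} [AddCommGroup N] [Module B N]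
    (hN : Good ε N) (S : Submodule B N) :
    clV ε N = clV ε S + clV ε (N ⧸ S) :=
  clV_exact ε hN S.subtype S.mkQ S.injective_subtype S.mkQ_surjective
    (by rw [Submodule.range_subtype, Submodule.ker_mkQ])

variable {C₀' C₁' C₀ C₁ C₀'' C₁'' : Type u}
  [AddCommGroup C₀'] [Module B C₀'] [AddCommGroup C₁'] [Module B C₁']
  [AddCommGroup C₀] [Module B C₀] [AddCommGroup C₁] [Module B C₁]
  [AddCommGroup C₀''] [Module B C₀''] [AddCommGroup C₁''] [Module B C₁'']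

omit [IsNoetherianRing B] in
/-- The connecting isomorphism. -/
theorem connecting (ε : B →+* A) (d₀' : C₀' →ₗ[B] C₁') (d₁' : C₁' →ₗ[B] C₀')
    (d₀ : C₀ →ₗ[B] C₁) (d₁ : C₁ →ₗ[B] C₀) (d₀'' : C₀'' →ₗ[B] C₁'') (d₁'' : C₁'' →ₗ[B] C₀'')
    (i₀ : C₀' →ₗ[B] C₀) (i₁ : C₁' →ₗ[B] C₁) (p₀ : C₀ →ₗ[B] C₀'') (p₁ : C₁ →ₗ[B] C₁'')
    (hi₀ : ∀ x, d₀ (i₀ x) = i₁ (d₀' x)) (hi₁ : ∀ x, d₁ (i₁ x) = i₀ (d₁' x))
    (hp₀ : ∀ x, d₀'' (p₀ x) = p₁ (d₀ x)) (hp₁ : ∀ x, d₁'' (p₁ x) = p₀ (d₁ x))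
    (inj₀ : Function.Injective i₀) (inj₁ : Function.Injective i₁)
    (sur₀ : Function.Surjective p₀) (sur₁ : Function.Surjective p₁)
    (ex₀ : ∀ x, p₀ x = 0 ↔ ∃ y, i₀ y = x) (ex₁ : ∀ x, p₁ x = 0 ↔ ∃ y, i₁ y = x)
    (dd₀ : ∀ x, d₁ (d₀ x) = 0) (dd₁ : ∀ x, d₀ (d₁ x) = 0) :
    clV ε (Hm d₁'' d₀'' ⧸ range (hmap d₁ d₀ d₁'' d₀'' p₁ p₀ p₁ hp₀ hp₁)) =
      clV ε (ker (hmap d₀' d₁' d₀ d₁ i₀ i₁ i₀ hi₁ hi₀)) := by
  -- the module of pairs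
  let W : Submodule B (C₀ × C₁') :=
    ker (d₀.comp (LinearMap.fst B C₀ C₁') - i₁.comp (LinearMap.snd B C₀ C₁'))
  have hW : ∀ w : W, d₀ w.1.1 = i₁ w.1.2 := fun w => by
    have := w.2
    rw [LinearMap.mem_ker, LinearMap.sub_apply, sub_eq_zero] at this
    exact this
  have hW1 : ∀ w : W, d₁' w.1.2 = 0 := fun w => by
    apply inj₀
    rw [← hi₁, ← hW, dd₀, map_zero]
  have hW0 : ∀ w : W, d₀'' (p₀ w.1.1) = 0 := fun w => by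
    rw [hp₀, hW, (ex₁ _).2 ⟨_, rfl⟩]
  let α : W →ₗ[B] ker (hmap d₀' d₁' d₀ d₁ i₀ i₁ i₀ hi₁ hi₀) :=
    { toFun := fun w => ⟨hcl d₀' d₁' w.1.2 (hW1 w), by
        rw [LinearMap.mem_ker, hmap_hcl, hcl_eq_zero]
        exact ⟨w.1.1, hW w⟩⟩
      map_add' := fun w w' => rfl
      map_smul' := fun b w => rfl }
  let β₀ : W →ₗ[B] Hm d₁'' d₀'' :=
    { toFun := fun w => hcl d₁'' d₀'' (p₀ w.1.1) (hW0 w)
      map_add' := fun w w' => by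
        change hcl d₁'' d₀'' (p₀ (w.1.1 + w'.1.1)) _ =
          hcl d₁'' d₀'' (p₀ w.1.1 + p₀ w'.1.1) _
        congr 1
        exact map_add _ _ _
      map_smul' := fun b w => by
        have h : p₀ (b • w.1.1) = b • p₀ w.1.1 := map_smul _ _ _
        have h' : hcl d₁'' d₀'' (p₀ (b • w.1.1)) (hW0 (b • w)) =
            hcl d₁'' d₀'' (b • p₀ w.1.1) (by rw [map_smul, hW0, smul_zero]) := by
          congr 1
        exact h' }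
  let β : W →ₗ[B] (Hm d₁'' d₀'' ⧸ range (hmap d₁ d₀ d₁'' d₀'' p₁ p₀ p₁ hp₀ hp₁)) :=
    (Submodule.mkQ _).comp β₀
  have hα : Function.Surjective α := by
    rintro ⟨h, hh⟩
    obtain ⟨x, hx, rfl⟩ := hcl_surj _ _ h
    rw [LinearMap.mem_ker, hmap_hcl, hcl_eq_zero] at hh
    obtain ⟨c, hc⟩ := hh
    refine ⟨⟨(c, x), ?_⟩, rfl⟩
    rw [LinearMap.mem_ker, LinearMap.sub_apply, sub_eq_zero]
    exact hc
  have hβ : Function.Surjective β := by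
    intro h
    obtain ⟨h, rfl⟩ := Submodule.mkQ_surjective _ h
    obtain ⟨x, hx, rfl⟩ := hcl_surj _ _ h
    obtain ⟨c, rfl⟩ := sur₀ x
    rw [hp₀] at hx
    obtain ⟨y, hy⟩ := (ex₁ _).1 hx
    refine ⟨⟨(c, y), ?_⟩, rfl⟩
    rw [LinearMap.mem_ker, LinearMap.sub_apply, sub_eq_zero]
    exact hy.symm
  have hker : ker α = ker β := by
    ext w
    constructor
    · intro hw
      rw [LinearMap.mem_ker] at hw
      have h1 : hcl d₀' d₁' w.1.2 (hW1 w) = 0 := congrArg Subtype.val hw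
      rw [hcl_eq_zero] at h1
      obtain ⟨y, hy⟩ := h1
      rw [LinearMap.mem_ker]
      change Submodule.mkQ _ (hcl d₁'' d₀'' (p₀ w.1.1) (hW0 w)) = 0
      rw [Submodule.mkQ_apply, Submodule.Quotient.mk_eq_zero]
      have hz : d₀ (w.1.1 - i₀ y) = 0 := by
        rw [map_sub, hW, ← hy, hi₀, sub_self]
      refine ⟨hcl d₁ d₀ (w.1.1 - i₀ y) hz, ?_⟩
      rw [hmap_hcl]
      congr 1
      rw [map_sub, (ex₀ (i₀ y)).2 ⟨y, rfl⟩, sub_zero]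
    · intro hw
      rw [LinearMap.mem_ker] at hw
      change Submodule.mkQ _ (hcl d₁'' d₀'' (p₀ w.1.1) (hW0 w)) = 0 at hw
      rw [Submodule.mkQ_apply, Submodule.Quotient.mk_eq_zero] at hw
      obtain ⟨h, hh⟩ := hw
      obtain ⟨z, hz, rfl⟩ := hcl_surj _ _ h
      rw [hmap_hcl] at hh
      have h2 : hcl d₁'' d₀'' (p₀ z - p₀ w.1.1)
          (by rw [map_sub, hW0, hp₀, hz, map_zero, sub_zero]) = 0 := by
        have : hcl d₁'' d₀'' (p₀ z - p₀ w.1.1)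
          (by rw [map_sub, hW0, hp₀, hz, map_zero, sub_zero]) =
          hcl d₁'' d₀'' (p₀ z) (by rw [hp₀, hz, map_zero]) -
          hcl d₁'' d₀'' (p₀ w.1.1) (hW0 w) := rfl
        rw [this, hh, sub_self]
      rw [hcl_eq_zero] at h2
      obtain ⟨c'', hc''⟩ := h2
      obtain ⟨c, rfl⟩ := sur₁ c''
      rw [hp₁] at hc''
      have h3 : p₀ (w.1.1 - z + d₁ c) = 0 := by
        rw [map_add, map_sub, hc'']; abel
      obtain ⟨y, hy⟩ := (ex₀ _).1 h3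
      rw [LinearMap.mem_ker]
      apply Subtype.ext
      change hcl d₀' d₁' w.1.2 (hW1 w) = 0
      rw [hcl_eq_zero]
      refine ⟨y, ?_⟩
      apply inj₁
      rw [← hi₀, hy, map_add, map_sub, hz, dd₁, sub_zero, add_zero, hW]
  have e1 := LinearMap.quotKerEquivOfSurjective α hα
  have e2 := LinearMap.quotKerEquivOfSurjective β hβ
  exact clV_congr (e2.symm.trans ((Submodule.quotEquivOfEq _ _ hker.symm).trans e1))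

omit [IsNoetherianRing B] in
/-- Exactness in the middle. -/
theorem middle_exact (d₀' : C₀' →ₗ[B] C₁') (d₁' : C₁' →ₗ[B] C₀')
    (d₀ : C₀ →ₗ[B] C₁) (d₁ : C₁ →ₗ[B] C₀) (d₀'' : C₀'' →ₗ[B] C₁'') (d₁'' : C₁'' →ₗ[B] C₀'')
    (i₀ : C₀' →ₗ[B] C₀) (i₁ : C₁' →ₗ[B] C₁) (p₀ : C₀ →ₗ[B] C₀'') (p₁ : C₁ →ₗ[B] C₁'')
    (hi₀ : ∀ x, d₀ (i₀ x) = i₁ (d₀' x)) (hi₁ : ∀ x, d₁ (i₁ x) = i₀ (d₁' x))
    (hp₀ : ∀ x, d₀'' (p₀ x) = p₁ (d₀ x)) (hp₁ : ∀ x, d₁'' (p₁ x) = p₀ (d₁ x))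
    (inj₁ : Function.Injective i₁) (sur₁ : Function.Surjective p₁)
    (ex₀ : ∀ x, p₀ x = 0 ↔ ∃ y, i₀ y = x)
    (dd₁ : ∀ x, d₀ (d₁ x) = 0) :
    range (hmap d₁' d₀' d₁ d₀ i₁ i₀ i₁ hi₀ hi₁) =
      ker (hmap d₁ d₀ d₁'' d₀'' p₁ p₀ p₁ hp₀ hp₁) := by
  apply le_antisymm
  · rintro _ ⟨h, rfl⟩
    obtain ⟨x, hx, rfl⟩ := hcl_surj _ _ h
    rw [LinearMap.mem_ker, hmap_hcl, hmap_hcl, hcl_eq_zero]
    exact ⟨0, by rw [map_zero, (ex₀ _).2 ⟨x, rfl⟩]⟩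
  · intro h hh
    obtain ⟨x, hx, rfl⟩ := hcl_surj _ _ h
    rw [LinearMap.mem_ker, hmap_hcl, hcl_eq_zero] at hh
    obtain ⟨c'', hc''⟩ := hh
    obtain ⟨c, rfl⟩ := sur₁ c''
    rw [hp₁] at hc''
    have h3 : p₀ (x - d₁ c) = 0 := by rw [map_sub, hc'', sub_self]
    obtain ⟨y, hy⟩ := (ex₀ _).1 h3
    have hy0 : d₀' y = 0 := by
      apply inj₁
      rw [← hi₀, hy, map_sub, hx, dd₁, sub_zero, map_zero]
    refine ⟨hcl d₁' d₀' y hy0, ?_⟩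
    rw [hmap_hcl]
    have h4 : hcl d₁ d₀ (i₀ y) (by rw [hi₀, hy0, map_zero]) - hcl d₁ d₀ x hx = 0 := by
      change hcl d₁ d₀ (i₀ y - x) (by rw [map_sub, hi₀, hy0, map_zero, hx, sub_zero]) = 0
      rw [hcl_eq_zero]
      exact ⟨-c, by rw [hy, map_neg]; abel⟩
    exact sub_eq_zero.1 h4

/-- The Euler characteristic of two-periodic complexes is additive. -/
theorem euler_add (ε : B →+* A) (d₀' : C₀' →ₗ[B] C₁') (d₁' : C₁' →ₗ[B] C₀')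
    (d₀ : C₀ →ₗ[B] C₁) (d₁ : C₁ →ₗ[B] C₀) (d₀'' : C₀'' →ₗ[B] C₁'') (d₁'' : C₁'' →ₗ[B] C₀'')
    (i₀ : C₀' →ₗ[B] C₀) (i₁ : C₁' →ₗ[B] C₁) (p₀ : C₀ →ₗ[B] C₀'') (p₁ : C₁ →ₗ[B] C₁'')
    (hi₀ : ∀ x, d₀ (i₀ x) = i₁ (d₀' x)) (hi₁ : ∀ x, d₁ (i₁ x) = i₀ (d₁' x))
    (hp₀ : ∀ x, d₀'' (p₀ x) = p₁ (d₀ x)) (hp₁ : ∀ x, d₁'' (p₁ x) = p₀ (d₁ x))
    (inj₀ : Function.Injective i₀) (inj₁ : Function.Injective i₁)
    (sur₀ : Function.Surjective p₀) (sur₁ : Function.Surjective p₁)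
    (ex₀ : ∀ x, p₀ x = 0 ↔ ∃ y, i₀ y = x) (ex₁ : ∀ x, p₁ x = 0 ↔ ∃ y, i₁ y = x)
    (dd₀ : ∀ x, d₁ (d₀ x) = 0) (dd₁ : ∀ x, d₀ (d₁ x) = 0)
    (g₀' : Good ε (Hm d₁' d₀')) (g₁' : Good ε (Hm d₀' d₁'))
    (g₀ : Good ε (Hm d₁ d₀)) (g₁ : Good ε (Hm d₀ d₁))
    (g₀'' : Good ε (Hm d₁'' d₀'')) (g₁'' : Good ε (Hm d₀'' d₁'')) :
    clV ε (Hm d₁ d₀) - clV ε (Hm d₀ d₁) =
      (clV ε (Hm d₁' d₀') - clV ε (Hm d₀' d₁')) +
      (clV ε (Hm d₁'' d₀'') - clV ε (Hm d₀'' d₁'')) := by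
  have a1 := clV_ker_range ε g₀' (hmap d₁' d₀' d₁ d₀ i₁ i₀ i₁ hi₀ hi₁)
  have a2 := clV_ker_range ε g₀ (hmap d₁ d₀ d₁'' d₀'' p₁ p₀ p₁ hp₀ hp₁)
  have a3 := clV_sub_quot ε g₀'' (range (hmap d₁ d₀ d₁'' d₀'' p₁ p₀ p₁ hp₀ hp₁))
  have b1 := clV_ker_range ε g₁' (hmap d₀' d₁' d₀ d₁ i₀ i₁ i₀ hi₁ hi₀)
  have b2 := clV_ker_range ε g₁ (hmap d₀ d₁ d₀'' d₁'' p₀ p₁ p₀ hp₁ hp₀)
  have b3 := clV_sub_quot ε g₁'' (range (hmap d₀ d₁ d₀'' d₁'' p₀ p₁ p₀ hp₁ hp₀))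
  have c1 := connecting ε d₀' d₁' d₀ d₁ d₀'' d₁'' i₀ i₁ p₀ p₁ hi₀ hi₁ hp₀ hp₁ inj₀ inj₁
    sur₀ sur₁ ex₀ ex₁ dd₀ dd₁
  have c2 := connecting ε d₁' d₀' d₁ d₀ d₁'' d₀'' i₁ i₀ p₁ p₀ hi₁ hi₀ hp₁ hp₀ inj₁ inj₀
    sur₁ sur₀ ex₁ ex₀ dd₁ dd₀
  rw [middle_exact d₀' d₁' d₀ d₁ d₀'' d₁'' i₀ i₁ p₀ p₁ hi₀ hi₁ hp₀ hp₁ inj₁ sur₁ ex₀ dd₁] at a1
  rw [middle_exact d₁' d₀' d₁ d₀ d₁'' d₀'' i₁ i₀ p₁ p₀ hi₁ hi₀ hp₁ hp₀ inj₀ sur₀ ex₁ dd₀] at b1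
  rw [a1, a2, a3, b1, b2, b3, c1, c2]
  abel

end euler

end Pool.Agent.GZero
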