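import Pool.Agent.GZero.Via

/-!
# Functoriality of `G_0`: restriction along surjections, flat base change
-/

universe u v

set_option linter.style.haveILetI false

namespace Pool.Agent.GZero

open LinearMap (ker range)
open scoped TensorProduct

variable {B S : Type u} [CommRing B] [CommRing S]

theorem finite_compHom (σ : B →+* S) (hσ : Function.Surjective σ) (M : Type u) [AddCommGroup M]
    [Module S M] [hM : Module.Finite S M] :
    letI := Module.compHom M σ
    Module.Finite B M := by
  letI := Module.compHom M σ
  obtain ⟨s, hs⟩ := hM.fg_top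
  refine ⟨⟨s, ?_⟩⟩
  rw [eq_top_iff]
  intro x _
  have hx : x ∈ Submodule.span S (s : Set M) := by rw [hs]; trivial
  refine Submodule.span_induction (p := fun x _ => x ∈ Submodule.span B (s : Set M))
    (fun x hx => Submodule.subset_span hx) (Submodule.zero_mem _)
    (fun x y _ _ h1 h2 => Submodule.add_mem _ h1 h2) ?_ hx
  intro t x _ h1
  obtain ⟨b, rfl⟩ := hσ t
  exact Submodule.smul_mem _ b h1

/-- Restriction of modules along a surjection. -/
noncomputable def G0.res (σ : B →+* S) (hσ : Function.Surjective σ) : G0 S →+ G0 B :=
  G0.lift (fun M =>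
    letI := Module.compHom M.carrier σ
    haveI := finite_compHom σ hσ M.carrier
    G0.cls B M.carrier) (by
    intro M' M M'' i p hi hp h
    letI := Module.compHom M'.carrier σ
    letI := Module.compHom M.carrier σ
    letI := Module.compHom M''.carrier σ
    haveI := finite_compHom σ hσ M'.carrier
    haveI := finite_compHom σ hσ M.carrier
    haveI := finite_compHom σ hσ M''.carrier
    let i' : M'.carrier →ₗ[B] M.carrier :=
      { toFun := i, map_add' := i.map_add, map_smul' := fun b m => i.map_smul (σ b) m }
    let p' : M.carrier →ₗ[B] M''.carrier :=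
      { toFun := p, map_add' := p.map_add, map_smul' := fun b m => p.map_smul (σ b) m }
    refine G0.cls_exact (R := B) i' p' hi hp ?_
    ext x
    have := congrArg (fun s : Submodule S M.carrier => x ∈ s) h
    exact this.to_iff)

theorem G0.res_mk (σ : B →+* S) (hσ : Function.Surjective σ) (M : FMod S) :
    G0.res σ hσ (G0.mk M) = (letI := Module.compHom M.carrier σ
      haveI := finite_compHom σ hσ M.carrier
      G0.cls B M.carrier) := G0.lift_mk _ _ _

/-- Flat base change. -/
noncomputable def G0.bc (A S : Type u) [CommRing A] [CommRing S] [Algebra A S] [Module.Flat A S] :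
    G0 A →+ G0 S :=
  G0.lift (fun N => G0.cls S (S ⊗[A] N.carrier)) (by
    intro M' M M'' i p hi hp h
    refine G0.cls_exact (R := S) (i.baseChange S) (p.baseChange S) ?_ ?_ ?_
    · rw [LinearMap.baseChange_eq_ltensor]
      exact Module.Flat.lTensor_preserves_injective_linearMap i hi
    · rw [LinearMap.baseChange_eq_ltensor]
      exact LinearMap.lTensor_surjective S hp
    · have h1 : Function.Exact i p := (LinearMap.exact_iff).2 h.symm
      have h2 := lTensor_exact S h1 hp
      ext x
      have h3 := h2 x
      rw [LinearMap.mem_range, LinearMap.mem_ker]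
      exact h3.symm)

theorem G0.bc_mk (A S : Type u) [CommRing A] [CommRing S] [Algebra A S] [Module.Flat A S]
    (N : FMod A) : G0.bc A S (G0.mk N) = G0.cls S (S ⊗[A] N.carrier) := G0.lift_mk _ _ _

theorem G0.cls_of_eq (M : FMod B) (i2 : Module B M.carrier) (h : i2 = M.mod)
    (f : @Module.Finite B M.carrier _ _ i2) : @G0.cls B _ M.carrier _ i2 f = G0.mk M := by
  subst h
  rfl

theorem G0.res_res (σ : B →+* S) (hσ : Function.Surjective σ) (τ : S →+* B)
    (hτ : Function.Surjective τ) (h : ∀ b, τ (σ b) = b) (x : G0 B) :
    G0.res σ hσ (G0.res τ hτ x) = x := by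
  have key : (G0.res σ hσ).comp (G0.res τ hτ) = AddMonoidHom.id (G0 B) := by
    refine G0.hom_ext fun M => ?_
    rw [AddMonoidHom.comp_apply, G0.res_mk, AddMonoidHom.id_apply, G0.cls, G0.res_mk]
    refine G0.cls_of_eq M _ (Module.ext' _ _ fun b m => ?_) _
    change (τ (σ b)) • m = b • m
    rw [h]
  exact DFunLike.congr_fun key x

/-- Isomorphic rings have isomorphic groups `G_0`. -/
noncomputable def G0.congrRing (e : B ≃+* S) : G0 B ≃+ G0 S where
  toFun := G0.res (e.symm : S →+* B) e.symm.surjective
  invFun := G0.res (e : B →+* S) e.surjective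
  left_inv x := G0.res_res _ _ _ _ (fun b => e.symm_apply_apply b) x
  right_inv x := G0.res_res _ _ _ _ (fun b => e.apply_symm_apply b) x
  map_add' := map_add _

end Pool.Agent.GZero
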