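import Pool.Agent.GZero.Homotopy

/-!
# Surjectivity of flat base change: polynomial rings
-/

universe u v w

set_option linter.style.haveILetI false

namespace Pool.Agent.GZero

open LinearMap (ker range)
open TensorProduct Polynomial

theorem surj_of_ext {G : Type v} {H : Type w} [AddCommGroup G] [AddCommGroup H] (f : G →+ H)
    (h : ∀ Δ : H →+ H ⧸ f.range, (∀ g, Δ (f g) = 0) → ∀ x, Δ x = 0) : Function.Surjective f := by
  intro x
  have h1 := h (QuotientAddGroup.mk' f.range) (fun g => (QuotientAddGroup.eq_zero_iff _).2 ⟨g, rfl⟩) x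
  exact (QuotientAddGroup.eq_zero_iff _).1 h1

/-- `G_0(S) → G_0(S[X])` is surjective. -/
theorem G0.bc_polynomial (S : Type u) [CommRing S] [IsNoetherianRing S] :
    Function.Surjective (G0.bc S S[X]) := by
  refine surj_of_ext _ fun Δ hΔ x => G0.poly_ext Δ (fun Q => ?_) x
  rw [← G0.cls_congr (PolynomialModule.polynomialTensorProductLEquivPolynomialModule
    (R := S) (M := Q.carrier)), ← G0.bc_mk]
  exact hΔ _

section tower

variable (A B C : Type u) [CommRing A] [CommRing B] [CommRing C] [Algebra A B] [Algebra B C]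
  [Algebra A C] [IsScalarTower A B C] [Module.Flat A B] [Module.Flat B C] [Module.Flat A C]

theorem G0.bc_comp (x : G0 A) : G0.bc B C (G0.bc A B x) = G0.bc A C x := by
  have key : (G0.bc B C).comp (G0.bc A B) = G0.bc A C := by
    refine G0.hom_ext fun N => ?_
    rw [AddMonoidHom.comp_apply, G0.bc_mk, G0.bc_mk, G0.cls, G0.bc_mk]
    exact G0.cls_congr (TensorProduct.AlgebraTensorModule.cancelBaseChange A B C C N.carrier)
  exact DFunLike.congr_fun key x

theorem G0.bc_surj_comp (h : Function.Surjective (G0.bc A B))
    (h' : Function.Surjective (G0.bc B C)) : Function.Surjective (G0.bc A C) := by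
  intro x
  obtain ⟨y, rfl⟩ := h' x
  obtain ⟨z, rfl⟩ := h y
  exact ⟨z, (G0.bc_comp A B C z).symm⟩

end tower

/-- Base change along an isomorphism. -/
theorem G0.bc_bijective (A B : Type u) [CommRing A] [CommRing B] [Algebra A B] [Module.Flat A B]
    (h : Function.Bijective (algebraMap A B)) : Function.Surjective (G0.bc A B) := by
  refine surj_of_ext _ fun Δ hΔ x => ?_
  have key : Δ = 0 := by
    refine G0.hom_ext fun M => ?_
    letI : Module A M.carrier := Module.compHom M.carrier (algebraMap A B)
    haveI : IsScalarTower A B M.carrier := ⟨fun a b m => by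
      rw [Algebra.smul_def, mul_smul]
      rfl⟩
    haveI : Module.Finite A M.carrier := finite_compHom (algebraMap A B) h.2 M.carrier
    let φ : B ⊗[A] M.carrier →ₗ[B] M.carrier := LinearMap.liftBaseChange B LinearMap.id
    have hφ : ∀ (b : B) (m : M.carrier), φ (b ⊗ₜ m) = b • m := fun b m => by
      rw [LinearMap.liftBaseChange_tmul]
      rfl
    have hinv : ∀ y : B ⊗[A] M.carrier, (1 : B) ⊗ₜ[A] φ y = y := by
      intro y
      induction y using TensorProduct.induction_on with
      | zero => rw [map_zero, TensorProduct.tmul_zero]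
      | add y z hy hz => rw [map_add, TensorProduct.tmul_add, hy, hz]
      | tmul b m =>
        obtain ⟨a, rfl⟩ := h.2 b
        rw [hφ, algebraMap_smul, TensorProduct.tmul_smul, TensorProduct.smul_tmul',
          Algebra.algebraMap_eq_smul_one]
    have hbij : Function.Bijective φ := by
      constructor
      · intro y z hyz
        rw [← hinv y, ← hinv z, hyz]
      · intro m
        exact ⟨1 ⊗ₜ m, by rw [hφ, one_smul]⟩
    have h1 : G0.bc A B (G0.cls A M.carrier) = G0.mk M := by
      rw [G0.cls, G0.bc_mk]
      exact G0.cls_congr (LinearEquiv.ofBijective φ hbij)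
    rw [← h1]
    exact hΔ _
  rw [key]
  rfl

theorem G0.bc_surj_equiv (k A B : Type u) [CommRing k] [CommRing A] [CommRing B] [Algebra k A]
    [Algebra k B] [Module.Flat k A] [Module.Flat k B] (e : A ≃ₐ[k] B)
    (h : Function.Surjective (G0.bc k A)) : Function.Surjective (G0.bc k B) := by
  letI : Algebra A B := (e : A →+* B).toAlgebra
  haveI : IsScalarTower k A B := IsScalarTower.of_algebraMap_eq fun r => (e.commutes r).symm
  have hb : Function.Bijective (algebraMap A B) := e.bijective
  haveI : Module.Flat A B := Module.Flat.of_linearEquiv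
    (LinearEquiv.ofBijective (Algebra.linearMap A B) hb).symm
  exact G0.bc_surj_comp k A B h (G0.bc_bijective A B hb)

theorem G0.bc_mvPolynomial_fin (k : Type u) [CommRing k] [IsNoetherianRing k] (n : ℕ) :
    Function.Surjective (G0.bc k (MvPolynomial (Fin n) k)) := by
  induction n with
  | zero =>
    refine G0.bc_bijective _ _ ⟨?_, ?_⟩
    · exact MvPolynomial.C_injective _ _
    · exact MvPolynomial.C_surjective _
  | succ n ih =>
    haveI : Module.Flat k (MvPolynomial (Fin n) k)[X] :=
      Module.Flat.trans k (MvPolynomial (Fin n) k) _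
    refine G0.bc_surj_equiv k (MvPolynomial (Fin n) k)[X] _ (MvPolynomial.finSuccEquiv k n).symm ?_
    exact G0.bc_surj_comp k (MvPolynomial (Fin n) k) _ ih (G0.bc_polynomial _)

/-- `G_0(k) → G_0(k[x_i])` is surjective. -/
theorem G0.bc_mvPolynomial (k : Type u) [CommRing k] [IsNoetherianRing k] (I : Type) [Finite I] :
    Function.Surjective (G0.bc k (MvPolynomial I k)) := by
  obtain ⟨n, ⟨e⟩⟩ := Finite.exists_equiv_fin I
  exact G0.bc_surj_equiv k _ _ (MvPolynomial.renameEquiv k e).symm (G0.bc_mvPolynomial_fin k n)

end Pool.Agent.GZero
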