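import Pool.Agent.GZero.Euler
import Pool.Agent.GZero.Functor

/-!
# Derived restriction to a hypersurface
-/

universe u v w

set_option linter.style.haveILetI false

namespace Pool.Agent.GZero

open LinearMap (ker range)

variable {B : Type u} [CommRing B] {A : Type u} [CommRing A]

/-- The multiplication by `F`. -/
noncomputable def mulF (F : B) (M : Type u) [AddCommGroup M] [Module B M] : M →ₗ[B] M :=
  LinearMap.lsmul B M F

theorem mulF_apply (F : B) (M : Type u) [AddCommGroup M] [Module B M] (m : M) :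
    mulF F M m = F • m := rfl

/-- The kernel of `σ` is generated by `F`. -/
structure Cut (σ : B →+* A) (F : B) : Prop where
  /-- `σ` is surjective -/
  surj : Function.Surjective σ
  /-- `F` is in the kernel -/
  zero : σ F = 0
  /-- the kernel is generated by `F` -/
  gen : ∀ b, σ b = 0 → ∃ c, c * F = b

variable [IsNoetherianRing B] {σ : B →+* A} {F : B}

omit [IsNoetherianRing B] in
theorem Cut.killed (h : Cut σ F) (N : Type u) [AddCommGroup N] [Module B N]
    (hN : ∀ n : N, F • n = 0) : Killed σ N := fun b hb n => by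
  obtain ⟨c, rfl⟩ := h.gen b hb
  rw [mul_smul, hN, smul_zero]

theorem Cut.good0 (h : Cut σ F) (M : Type u) [AddCommGroup M] [Module B M] [Module.Finite B M] :
    Good σ (Hm (0 : M →ₗ[B] M) (mulF F M)) := by
  haveI : IsNoetherian B M := isNoetherian_of_isNoetherianRing_of_finite B M
  refine ⟨h.surj, inferInstance, h.killed _ fun n => ?_⟩
  obtain ⟨x, hx, rfl⟩ := hcl_surj _ _ n
  change hcl _ _ (F • x) (by rw [map_smul, hx, smul_zero]) = 0
  rw [hcl_eq_zero]
  refine ⟨0, ?_⟩
  rw [map_zero]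
  exact hx.symm

theorem Cut.good1 (h : Cut σ F) (M : Type u) [AddCommGroup M] [Module B M] [Module.Finite B M] :
    Good σ (Hm (mulF F M) (0 : M →ₗ[B] M)) := by
  haveI : IsNoetherian B M := isNoetherian_of_isNoetherianRing_of_finite B M
  refine ⟨h.surj, inferInstance, h.killed _ fun n => ?_⟩
  obtain ⟨x, hx, rfl⟩ := hcl_surj _ _ n
  change hcl _ _ (F • x) rfl = 0
  rw [hcl_eq_zero]
  exact ⟨x, rfl⟩

/-- The derived restriction `[M/FM] - [ker F]`. -/
noncomputable def Cut.dlt (h : Cut σ F) : G0 B →+ G0 A :=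
  G0.lift (fun M => clV σ (Hm (mulF F M.carrier) (0 : M.carrier →ₗ[B] M.carrier)) -
    clV σ (Hm (0 : M.carrier →ₗ[B] M.carrier) (mulF F M.carrier))) (by
    intro M' M M'' i p hi hp hip
    have h1 := euler_add σ (mulF F M'.carrier) (0 : M'.carrier →ₗ[B] M'.carrier)
      (mulF F M.carrier) (0 : M.carrier →ₗ[B] M.carrier)
      (mulF F M''.carrier) (0 : M''.carrier →ₗ[B] M''.carrier) i i p p
      (fun x => (i.map_smul F x).symm) (fun x => (map_zero i).symm)
      (fun x => (p.map_smul F x).symm) (fun x => (map_zero p).symm) hi hi hp hp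
      (fun x => by rw [← LinearMap.mem_ker, ← hip]; exact Iff.rfl)
      (fun x => by rw [← LinearMap.mem_ker, ← hip]; exact Iff.rfl)
      (fun x => rfl) (fun x => (mulF F M.carrier).map_zero)
      (h.good0 _) (h.good1 _) (h.good0 _) (h.good1 _) (h.good0 _) (h.good1 _)
    have h2 := congrArg Neg.neg h1
    simp only [neg_add, neg_sub] at h2
    exact h2)

theorem Cut.dlt_mk (h : Cut σ F) (M : FMod B) : h.dlt (G0.mk M) =
    clV σ (Hm (mulF F M.carrier) (0 : M.carrier →ₗ[B] M.carrier)) -
    clV σ (Hm (0 : M.carrier →ₗ[B] M.carrier) (mulF F M.carrier)) := G0.lift_mk _ _ _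

/-- The restriction of a module on which `F` is regular. -/
theorem Cut.dlt_of_injective (h : Cut σ F) (M : Type u) [AddCommGroup M] [Module B M]
    [Module.Finite B M] (hinj : ∀ m : M, F • m = 0 → m = 0) {N : Type u} [AddCommGroup N]
    [Module B N] (c : M →ₗ[B] N) (hc : Function.Surjective c)
    (hker : ∀ m, c m = 0 ↔ ∃ m', F • m' = m) : h.dlt (G0.cls B M) = clV σ N := by
  rw [G0.cls, h.dlt_mk]
  have h1 : Subsingleton (Hm (0 : M →ₗ[B] M) (mulF F M)) := by
    refine ⟨fun a b => ?_⟩
    obtain ⟨x, hx, rfl⟩ := hcl_surj _ _ a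
    obtain ⟨y, hy, rfl⟩ := hcl_surj _ _ b
    have hx' := hinj x hx
    have hy' := hinj y hy
    subst hx' hy'
    rfl
  rw [clV_subsingleton σ h.surj (Hm (0 : M →ₗ[B] M) (mulF F M)), sub_zero]
  let c' : ker (0 : M →ₗ[B] M) →ₗ[B] N := c.comp (ker (0 : M →ₗ[B] M)).subtype
  have hc' : Function.Surjective c' := fun n => by
    obtain ⟨m, rfl⟩ := hc n
    exact ⟨⟨m, rfl⟩, rfl⟩
  have hk : Submodule.comap (ker (0 : M →ₗ[B] M)).subtype (range (mulF F M)) = ker c' := by
    ext x
    rw [Submodule.mem_comap, LinearMap.mem_ker]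
    exact (hker _).symm
  exact clV_congr ((Submodule.quotEquivOfEq _ _ hk).trans (c'.quotKerEquivOfSurjective hc'))

end Pool.Agent.GZero
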