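import Pool.Agent.GZero.GenA
import Pool.Agent.GZero.GenB

/-!
# Derived restriction to a hypersurface in an affine space
-/

universe u v w

set_option linter.style.haveILetI false

namespace Pool.Agent.GZero

open LinearMap (ker range)
open TensorProduct

variable {k B A : Type u} [CommRing k] [CommRing B] [CommRing A] [Algebra k B] [Algebra k A]
  [Module.Flat k B] [Module.Flat k A] [IsNoetherianRing B] (σ : B →ₐ[k] A) (F : B)

/-- The restriction of `B ⊗ Q` is `A ⊗ Q`. -/
theorem dlt_bc (h : Cut (σ : B →+* A) F) (hF : ∀ b : B, F * b = 0 → b = 0) (y : G0 k) :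
    h.dlt (G0.bc k B y) = G0.bc k A y := by
  have key : h.dlt.comp (G0.bc k B) = G0.bc k A := by
    refine G0.hom_ext fun Q => ?_
    rw [AddMonoidHom.comp_apply, G0.bc_mk, G0.bc_mk]
    letI : Module B (A ⊗[k] Q.carrier) := Module.compHom _ (σ : B →+* A)
    have hsm : ∀ (b : B) (y : A ⊗[k] Q.carrier), b • y = σ b • y := fun _ _ => rfl
    let f : B →ₗ[k] A := σ.toLinearMap
    let g : B →ₗ[k] B := LinearMap.mulLeft k F
    have hf : Function.Surjective f := h.surj
    have hg : Function.Injective g := by
      rw [injective_iff_map_eq_zero]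
      exact fun b hb => hF b hb
    have hex : Function.Exact g f := by
      intro b
      constructor
      · intro hb
        obtain ⟨c, rfl⟩ := h.gen b hb
        exact ⟨c, mul_comm F c⟩
      · rintro ⟨c, rfl⟩
        change σ (F * c) = 0
        have h0 : σ F = 0 := h.zero
        rw [map_mul, h0, zero_mul]
    have hinj : Function.Injective (g.rTensor Q.carrier) :=
      (LinearMap.lTensor_inj_iff_rTensor_inj Q.carrier g).1
        (LinearMap.lTensor_injective_of_exact_of_flat f hf g hg hex Q.carrier)
    have hex2 : Function.Exact (g.rTensor Q.carrier) (f.rTensor Q.carrier) :=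
      rTensor_exact Q.carrier hex hf
    have hgF : ∀ x : B ⊗[k] Q.carrier, g.rTensor Q.carrier x = F • x := by
      intro x
      induction x using TensorProduct.induction_on with
      | zero => rw [map_zero, smul_zero]
      | add x y hx hy => rw [map_add, smul_add, hx, hy]
      | tmul b q => rw [LinearMap.rTensor_tmul, TensorProduct.smul_tmul']; rfl
    have hfl : ∀ (b : B) (x : B ⊗[k] Q.carrier), f.rTensor Q.carrier (b • x) =
        b • f.rTensor Q.carrier x := by
      intro b x
      induction x using TensorProduct.induction_on with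
      | zero => rw [smul_zero, map_zero, smul_zero]
      | add x y hx hy => rw [smul_add, map_add, hx, hy, map_add, smul_add]
      | tmul c q =>
        rw [TensorProduct.smul_tmul', LinearMap.rTensor_tmul, LinearMap.rTensor_tmul, hsm,
          TensorProduct.smul_tmul']
        congr 1
        exact map_mul σ b c
    let c : B ⊗[k] Q.carrier →ₗ[B] A ⊗[k] Q.carrier :=
      { toFun := f.rTensor Q.carrier
        map_add' := map_add _
        map_smul' := hfl }
    have h1 := h.dlt_of_injective (B ⊗[k] Q.carrier) (fun m hm => by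
      rw [← hgF] at hm
      exact (injective_iff_map_eq_zero _).1 hinj m hm) c
      (LinearMap.rTensor_surjective _ hf) (fun m => by
        rw [show c m = 0 ↔ f.rTensor Q.carrier m = 0 from Iff.rfl, hex2 m]
        simp only [Set.mem_range, hgF])
    rw [h1]
    exact clV_restrict (σ : B →+* A) h.surj (A ⊗[k] Q.carrier) (A ⊗[k] Q.carrier)
      (AddEquiv.refl _) (fun b n => rfl)
  exact DFunLike.congr_fun key y

theorem phi_dlt (h : Cut (σ : B →+* A) F) (hF : ∀ b : B, F * b = 0 → b = 0)
    (hs : Function.Surjective (G0.bc k B)) {Γ : Type v} [AddCommGroup Γ] (φ : G0 A →+ Γ)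
    (hφ : ∀ y, φ (G0.bc k A y) = 0) (x : G0 B) : φ (h.dlt x) = 0 := by
  obtain ⟨y, rfl⟩ := hs x
  rw [dlt_bc σ F h hF, hφ]

end Pool.Agent.GZero
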