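import Pool.Agent.GZero.Functor

/-!
# The group `G_0(S[X])` is generated by the classes of the modules `Q[X]`
-/

universe u v

set_option linter.style.haveILetI false

namespace Pool.Agent.GZero

open LinearMap (ker range)
open Polynomial

section fil

variable {S : Type u} [CommRing S] {M : Type u} [AddCommGroup M] [Module S M]
  (z : M →ₗ[S] M) (L : Submodule S M)

/-- The filtration generated by `L`. -/
def Fil : ℕ → Submodule S M
  | 0 => L
  | n + 1 => Fil n ⊔ L.map (z ^ (n + 1))

theorem Fil_le_succ (n : ℕ) : Fil z L n ≤ Fil z L (n + 1) := le_sup_left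

theorem Fil_mono : Monotone (Fil z L) := monotone_nat_of_le_succ (Fil_le_succ z L)

theorem pow_mem_Fil (n : ℕ) {l : M} (hl : l ∈ L) : (z ^ n) l ∈ Fil z L n := by
  cases n with
  | zero => exact hl
  | succ n => exact (le_sup_right : L.map (z ^ (n + 1)) ≤ _) (Submodule.mem_map_of_mem hl)

theorem z_mem_Fil : ∀ (n : ℕ) {x : M}, x ∈ Fil z L n → z x ∈ Fil z L (n + 1) := by
  intro n
  induction n with
  | zero =>
    intro x hx
    have := pow_mem_Fil z L 1 (l := x) hx
    rwa [pow_one] at this
  | succ n ih =>
    intro x hx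
    obtain ⟨y, hy, w, hw, rfl⟩ := Submodule.mem_sup.1 hx
    obtain ⟨l, hl, rfl⟩ := hw
    rw [map_add]
    refine Submodule.add_mem _ (Fil_le_succ z L _ (ih hy)) ?_
    have h1 : z ((z ^ (n + 1)) l) = (z ^ (n + 2)) l := by
      rw [pow_succ' z (n + 1)]
      rfl
    rw [h1]
    exact pow_mem_Fil z L (n + 2) hl

theorem zpow_mem_Fil (n d : ℕ) {x : M} (hx : x ∈ Fil z L n) : (z ^ d) x ∈ Fil z L (n + d) := by
  induction d with
  | zero => exact hx
  | succ d ih =>
    have h1 : (z ^ (d + 1)) x = z ((z ^ d) x) := by
      rw [pow_succ' z d]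
      rfl
    rw [h1]
    exact z_mem_Fil z L (n + d) ih

theorem Fil_fg (hL : L.FG) : ∀ n, (Fil z L n).FG := by
  intro n
  induction n with
  | zero => exact hL
  | succ n ih => exact ih.sup (hL.map _)

/-- The stable range. -/
theorem exists_stable [IsNoetherianRing S] (hL : L.FG) : ∃ n, ∀ m, n ≤ m → ∀ x,
    x ∈ Fil z L (m + 1) → z x ∈ Fil z L (m + 1) → x ∈ Fil z L m := by
  haveI : Module.Finite S L := Module.Finite.iff_fg.2 hL
  haveI : IsNoetherian S L := isNoetherian_of_isNoetherianRing_of_finite S L
  let K : ℕ →o Submodule S L := ⟨fun m => (Fil z L m).comap ((z ^ (m + 1)).comp L.subtype), by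
    refine monotone_nat_of_le_succ fun m l hl => ?_
    rw [Submodule.mem_comap] at hl ⊢
    have h1 : ((z ^ (m + 1 + 1)).comp L.subtype) l = z (((z ^ (m + 1)).comp L.subtype) l) := by
      rw [pow_succ' z (m + 1)]
      rfl
    rw [h1]
    exact z_mem_Fil z L m hl⟩
  obtain ⟨n, hn⟩ := monotone_stabilizes_iff_noetherian.2 ‹IsNoetherian S L› K
  refine ⟨n, fun m hm x hx hzx => ?_⟩
  obtain ⟨y, hy, w, hw, rfl⟩ := Submodule.mem_sup.1 hx
  obtain ⟨l, hl, rfl⟩ := hw
  refine Submodule.add_mem _ hy ?_
  have h1 : z ((z ^ (m + 1)) l) = (z ^ (m + 1 + 1)) l := by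
    rw [pow_succ' z (m + 1)]
    rfl
  rw [map_add, h1] at hzx
  have h2 : (z ^ (m + 1 + 1)) l ∈ Fil z L (m + 1) :=
    (Submodule.add_mem_iff_right _ (z_mem_Fil z L m hy)).1 hzx
  have h3 : (⟨l, hl⟩ : L) ∈ K (m + 1) := h2
  have h4 : K (m + 1) = K m := (hn (m + 1) (by omega)).symm.trans (hn m hm)
  rw [h4] at h3
  exact h3

theorem stable_pow {n : ℕ} (hn : ∀ m, n ≤ m → ∀ x, x ∈ Fil z L (m + 1) →
    z x ∈ Fil z L (m + 1) → x ∈ Fil z L m) (d : ℕ) : ∀ m, n ≤ m → ∀ x, x ∈ Fil z L (m + 1) →
    (z ^ d) x ∈ Fil z L (m + d) → x ∈ Fil z L m := by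
  induction d with
  | zero =>
    intro m _ x _ hx
    exact hx
  | succ d ih =>
    intro m hm x hx hzx
    refine ih m hm x hx ?_
    have h1 : (z ^ (d + 1)) x = z ((z ^ d) x) := by
      rw [pow_succ' z d]
      rfl
    rw [h1] at hzx
    refine hn (m + d) (by omega) _ ?_ hzx
    have h2 := zpow_mem_Fil z L (m + 1) d hx
    rwa [show m + 1 + d = m + d + 1 by omega] at h2

end fil

section char

variable {S : Type u} [CommRing S]

instance finite_polynomialModule (Q : Type u) [AddCommGroup Q] [Module S Q] [Module.Finite S Q] :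
    Module.Finite S[X] (PolynomialModule S Q) :=
  Module.Finite.equiv
    (PolynomialModule.polynomialTensorProductLEquivPolynomialModule (R := S) (M := Q))

/-- The `S[X]`-linear map defined by an `S`-linear map. -/
noncomputable def mapX {Q Q' : Type u} [AddCommGroup Q] [Module S Q] [AddCommGroup Q'] [Module S Q']
    (g : Q' →ₗ[S] Q) : PolynomialModule S Q' →ₗ[S[X]] PolynomialModule S Q where
  toFun := PolynomialModule.map S g
  map_add' := map_add _
  map_smul' a p := by
    rw [PolynomialModule.map_smul, Algebra.algebraMap_self, Polynomial.map_id, RingHom.id_apply]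

theorem mapX_coeff {Q Q' : Type u} [AddCommGroup Q] [Module S Q] [AddCommGroup Q'] [Module S Q']
    (g : Q' →ₗ[S] Q) (p : PolynomialModule S Q') (i : ℕ) :
    (mapX g p).coeff i = g (p.coeff i) := rfl

theorem mapX_single {Q Q' : Type u} [AddCommGroup Q] [Module S Q] [AddCommGroup Q'] [Module S Q']
    (g : Q' →ₗ[S] Q) (i : ℕ) (q : Q') :
    mapX g (PolynomialModule.single S i q) = PolynomialModule.single S i (g q) :=
  PolynomialModule.map_single S g i q

theorem X_smul_coeff_zero {Q : Type u} [AddCommGroup Q] [Module S Q] (p : PolynomialModule S Q) :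
    ((X : S[X]) • p).coeff 0 = 0 := by
  have h := PolynomialModule.monomial_smul_apply 1 (1 : S) p 0
  rw [Polynomial.monomial_one_one_eq_X] at h
  rw [h]
  simp

theorem X_smul_coeff_succ {Q : Type u} [AddCommGroup Q] [Module S Q] (p : PolynomialModule S Q)
    (i : ℕ) : ((X : S[X]) • p).coeff (i + 1) = p.coeff i := by
  have h := PolynomialModule.monomial_smul_apply 1 (1 : S) p (i + 1)
  rw [Polynomial.monomial_one_one_eq_X] at h
  rw [h]
  simp

theorem X_smul_single {Q : Type u} [AddCommGroup Q] [Module S Q] (i : ℕ) (q : Q) :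
    (X : S[X]) • PolynomialModule.single S i q = PolynomialModule.single S (i + 1) q := by
  have h := PolynomialModule.monomial_smul_single (R := S) 1 (1 : S) i q
  rw [Polynomial.monomial_one_one_eq_X] at h
  rw [h, one_smul, add_comm]

variable {M : Type u} [AddCommGroup M] [Module S[X] M] [Module S M] [IsScalarTower S S[X] M]

/-- The multiplication by `X`. -/
noncomputable def mulX (S M : Type u) [CommRing S] [AddCommGroup M] [Module S[X] M] [Module S M]
    [IsScalarTower S S[X] M] : M →ₗ[S] M where
  toFun m := (X : S[X]) • m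
  map_add' := smul_add _
  map_smul' r m := by
    rw [RingHom.id_apply, ← algebraMap_smul S[X] r m, ← algebraMap_smul S[X] r, smul_smul,
      smul_smul, mul_comm]

theorem mulX_pow (n : ℕ) (m : M) : (mulX S M ^ n) m = (X ^ n : S[X]) • m := by
  induction n with
  | zero => rw [pow_zero, pow_zero, one_smul]; rfl
  | succ n ih =>
    rw [pow_succ', pow_succ', mul_smul, ← ih]
    rfl

/-- The action map. -/
noncomputable def psiX (Q : Submodule S M) : PolynomialModule S Q →ₗ[S[X]] M where
  toFun p := p.coeff.sum fun i q => (X ^ i : S[X]) • (q : M)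
  map_add' p q := by
    rw [PolynomialModule.coeff_add]
    exact Finsupp.sum_add_index' (fun i => by simp) (fun i a b => by simp [smul_add])
  map_smul' a p := by
    have hadd : ∀ p q : PolynomialModule S Q,
        ((p + q).coeff.sum fun i q => (X ^ i : S[X]) • (q : M)) =
          (p.coeff.sum fun i q => (X ^ i : S[X]) • (q : M)) +
            (q.coeff.sum fun i q => (X ^ i : S[X]) • (q : M)) := fun p q => by
      rw [PolynomialModule.coeff_add]
      exact Finsupp.sum_add_index' (fun i => by simp) (fun i a b => by simp [smul_add])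
    have hs : ∀ (i : ℕ) (q : Q), ((PolynomialModule.single S i q).coeff.sum
        fun i q => (X ^ i : S[X]) • (q : M)) = (X ^ i : S[X]) • (q : M) := fun i q => by
      rw [PolynomialModule.coeff_single]
      exact Finsupp.sum_single_index (by simp)
    rw [RingHom.id_apply]
    induction p using PolynomialModule.induction_linear with
    | zero => simp
    | add p q hp hq => rw [smul_add, hadd, hadd, hp, hq, smul_add]
    | single i q =>
      induction a using Polynomial.induction_on' with
      | add a b ha hb => rw [add_smul, hadd, ha, hb, add_smul]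
      | monomial j r =>
        rw [PolynomialModule.monomial_smul_single, hs, hs, Submodule.coe_smul,
          ← Polynomial.C_mul_X_pow_eq_monomial, ← algebraMap_smul S[X] r (q : M), smul_smul,
          smul_smul, Polynomial.algebraMap_eq, pow_add]
        congr 1
        ring

theorem psiX_single (Q : Submodule S M) (i : ℕ) (q : Q) :
    psiX Q (PolynomialModule.single S i q) = (X ^ i : S[X]) • (q : M) := by
  change ((PolynomialModule.single S i q).coeff.sum fun i q => (X ^ i : S[X]) • (q : M)) = _
  rw [PolynomialModule.coeff_single]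
  exact Finsupp.sum_single_index (by simp)

/-- The first map of the characteristic sequence. -/
noncomputable def phiX {Q' Q : Submodule S M} (h1 : Q' ≤ Q) (h2 : ∀ x ∈ Q', mulX S M x ∈ Q) :
    PolynomialModule S Q' →ₗ[S[X]] PolynomialModule S Q :=
  (X : S[X]) • mapX (Submodule.inclusion h1) - mapX ((mulX S M).restrict h2)

variable {Q' Q : Submodule S M} (h1 : Q' ≤ Q) (h2 : ∀ x ∈ Q', mulX S M x ∈ Q)

theorem phiX_single (i : ℕ) (q : Q') : phiX h1 h2 (PolynomialModule.single S i q) =
    PolynomialModule.single S (i + 1) (Submodule.inclusion h1 q) -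
      PolynomialModule.single S i ((mulX S M).restrict h2 q) := by
  unfold phiX
  rw [LinearMap.sub_apply, LinearMap.smul_apply, mapX_single, mapX_single, X_smul_single]

theorem phiX_injective : Function.Injective (phiX h1 h2) := by
  rw [injective_iff_map_eq_zero]
  intro p hp
  have h3 : ∀ i, ((p.coeff i : Q') : M) = mulX S M (p.coeff (i + 1)) := fun i => by
    have h4 : ((phiX h1 h2) p).coeff (i + 1) = 0 := by rw [hp]; rfl
    have h5 : ((phiX h1 h2) p).coeff (i + 1) = Submodule.inclusion h1 (p.coeff i) -
        (mulX S M).restrict h2 (p.coeff (i + 1)) := by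
      change ((X : S[X]) • mapX (Submodule.inclusion h1) p).coeff (i + 1) -
        (mapX ((mulX S M).restrict h2) p).coeff (i + 1) = _
      rw [X_smul_coeff_succ, mapX_coeff, mapX_coeff]
    rw [h5, sub_eq_zero] at h4
    exact congrArg Subtype.val h4
  obtain ⟨N, hN⟩ : ∃ N, ∀ i, N ≤ i → p.coeff i = 0 := by
    refine ⟨p.coeff.support.sup id + 1, fun i hi => ?_⟩
    by_contra hne
    have h6 : i ∈ p.coeff.support := Finsupp.mem_support_iff.2 hne
    have h7 := Finset.le_sup (f := id) h6
    change i ≤ _ at h7
    omega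
  have h8 : ∀ k i, N ≤ i + k → p.coeff i = 0 := by
    intro k
    induction k with
    | zero => exact fun i hi => hN i hi
    | succ k ih =>
      intro i hi
      have h9 := h3 i
      rw [ih (i + 1) (by omega)] at h9
      apply Subtype.ext
      rw [h9]
      exact map_zero _
  apply PolynomialModule.ext
  ext i
  rw [h8 N i (by omega)]
  rfl

theorem psiX_phiX (p : PolynomialModule S Q') : psiX Q (phiX h1 h2 p) = 0 := by
  induction p using PolynomialModule.induction_linear with
  | zero => rw [map_zero, map_zero]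
  | add p q hp hq => rw [map_add, map_add, hp, hq, add_zero]
  | single i q =>
    rw [phiX_single, map_sub, psiX_single, psiX_single, pow_succ, mul_smul]
    exact sub_self _

theorem psiX_ker_aux (L : Submodule S M) (n : ℕ) (hn : ∀ m, n ≤ m → ∀ x,
    x ∈ Fil (mulX S M) L (m + 1) → mulX S M x ∈ Fil (mulX S M) L (m + 1) →
      x ∈ Fil (mulX S M) L m)
    (h1 : Fil (mulX S M) L n ≤ Fil (mulX S M) L (n + 1))
    (h2 : ∀ x ∈ Fil (mulX S M) L n, mulX S M x ∈ Fil (mulX S M) L (n + 1)) :
    ∀ (D : ℕ) (q : ℕ → Fil (mulX S M) L (n + 1)),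
      ∑ i ∈ Finset.range D, (X ^ i : S[X]) • (q i : M) = 0 →
      ∑ i ∈ Finset.range D, PolynomialModule.single S i (q i) ∈ range (phiX h1 h2) := by
  intro D
  induction D with
  | zero =>
    intro q _
    rw [Finset.sum_range_zero]
    exact Submodule.zero_mem _
  | succ D ih =>
    intro q hq
    rcases Nat.eq_zero_or_pos D with hD | hD
    · subst hD
      rw [Finset.sum_range_one, pow_zero, one_smul] at hq
      have hq0 : q 0 = 0 := Subtype.ext hq
      rw [Finset.sum_range_one, hq0]
      exact ⟨0, by rw [map_zero, PolynomialModule.single_zero]⟩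
    · obtain ⟨E, rfl⟩ : ∃ E, D = E + 1 := ⟨D - 1, by omega⟩
      have hq' : (X ^ (E + 1) : S[X]) • (q (E + 1) : M) =
          - ∑ i ∈ Finset.range (E + 1), (X ^ i : S[X]) • (q i : M) := by
        rw [Finset.sum_range_succ] at hq
        exact eq_neg_of_add_eq_zero_right hq
      have h3 : (q (E + 1) : M) ∈ Fil (mulX S M) L n := by
        refine stable_pow (mulX S M) L hn (E + 1) n le_rfl _ (q (E + 1)).2 ?_
        rw [mulX_pow, hq']
        refine Submodule.neg_mem _ (Submodule.sum_mem _ fun i hi => ?_)
        have h4 := zpow_mem_Fil (mulX S M) L (n + 1) i (q i).2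
        rw [mulX_pow] at h4
        refine Fil_mono (mulX S M) L ?_ h4
        rw [Finset.mem_range] at hi
        omega
      set q0 : Fil (mulX S M) L n := ⟨q (E + 1), h3⟩ with hq0
      have h5 : Submodule.inclusion h1 q0 = q (E + 1) := rfl
      let q' : ℕ → Fil (mulX S M) L (n + 1) := fun i =>
        q i + if i = E then (mulX S M).restrict h2 q0 else 0
      have h6 : ∑ i ∈ Finset.range (E + 1), PolynomialModule.single S i (q' i) =
          ∑ i ∈ Finset.range (E + 1), PolynomialModule.single S i (q i) +
            PolynomialModule.single S E ((mulX S M).restrict h2 q0) := by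
        have h7 : ∀ i, PolynomialModule.single S i (q' i) = PolynomialModule.single S i (q i) +
            if i = E then PolynomialModule.single S E ((mulX S M).restrict h2 q0) else 0 := by
          intro i
          change PolynomialModule.single S i (q i + if i = E then _ else 0) = _
          rw [PolynomialModule.single_add]
          split_ifs with h
          · rw [h]
          · rw [PolynomialModule.single_zero]
        simp only [h7, Finset.sum_add_distrib]
        congr 1
        rw [Finset.sum_ite_eq' (Finset.range (E + 1)) E, if_pos (by simp)]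
      have h8 := congrArg (psiX (Fil (mulX S M) L (n + 1))) h6
      rw [map_add, map_sum, map_sum] at h8
      simp only [psiX_single] at h8
      have h9 : ∑ i ∈ Finset.range (E + 1), (X ^ i : S[X]) • (q' i : M) = 0 := by
        rw [h8, ← hq, Finset.sum_range_succ _ (E + 1)]
        congr 1
        rw [pow_succ, mul_smul]
        rfl
      have h10 := ih q' h9
      rw [h6] at h10
      have h11 : phiX h1 h2 (PolynomialModule.single S E q0) ∈ range (phiX h1 h2) := ⟨_, rfl⟩
      have h12 := Submodule.add_mem _ h10 h11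
      rw [phiX_single, h5] at h12
      rw [Finset.sum_range_succ _ (E + 1)]
      convert h12 using 1
      abel

theorem psiX_ker (L : Submodule S M) (n : ℕ) (hn : ∀ m, n ≤ m → ∀ x,
    x ∈ Fil (mulX S M) L (m + 1) → mulX S M x ∈ Fil (mulX S M) L (m + 1) →
      x ∈ Fil (mulX S M) L m)
    (h1 : Fil (mulX S M) L n ≤ Fil (mulX S M) L (n + 1))
    (h2 : ∀ x ∈ Fil (mulX S M) L n, mulX S M x ∈ Fil (mulX S M) L (n + 1)) :
    range (phiX h1 h2) = ker (psiX (Fil (mulX S M) L (n + 1))) := by
  apply le_antisymm
  · rintro _ ⟨p, rfl⟩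
    exact psiX_phiX h1 h2 p
  · intro p hp
    have h3 : p = ∑ i ∈ Finset.range (p.coeff.support.sup id + 1),
        PolynomialModule.single S i (p.coeff i) := by
      apply PolynomialModule.ext
      rw [PolynomialModule.coeff_sum]
      ext i
      rw [Finsupp.finsetSum_apply, Finset.sum_eq_single i]
      · simp
      · intro j _ hj
        rw [PolynomialModule.coeff_single, Finsupp.single_eq_of_ne (Ne.symm hj)]
      · intro hi
        rw [PolynomialModule.coeff_single, Finsupp.single_eq_same]
        by_contra hne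
        apply hi
        have h6 : i ∈ p.coeff.support := Finsupp.mem_support_iff.2 hne
        have h7 := Finset.le_sup (f := id) h6
        rw [Finset.mem_range]
        exact Nat.lt_succ_of_le h7
    rw [h3] at hp ⊢
    rw [LinearMap.mem_ker, map_sum] at hp
    simp only [psiX_single] at hp
    exact psiX_ker_aux L n hn h1 h2 _ _ hp

theorem psiX_surjective (L Q : Submodule S M) (hLQ : L ≤ Q)
    (hL : Submodule.span S[X] (L : Set M) = ⊤) : Function.Surjective (psiX Q) := by
  rw [← LinearMap.range_eq_top, eq_top_iff, ← hL, Submodule.span_le]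
  intro l hl
  refine ⟨PolynomialModule.single S 0 ⟨l, hLQ hl⟩, ?_⟩
  rw [psiX_single, pow_zero, one_smul]

end char

/-- A homomorphism from `G_0(S[X])` which vanishes on the classes of the modules `Q[X]` is zero. -/
theorem G0.poly_ext {S : Type u} [CommRing S] [IsNoetherianRing S] {Γ : Type v} [AddCommGroup Γ]
    (Δ : G0 S[X] →+ Γ)
    (h : ∀ Q : FMod S, Δ (G0.cls S[X] (PolynomialModule S Q.carrier)) = 0) (x : G0 S[X]) :
    Δ x = 0 := by
  have key : Δ = 0 := by
    refine G0.hom_ext fun N => ?_
    letI : Module S N.carrier := Module.compHom N.carrier (C : S →+* S[X])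
    haveI : IsScalarTower S S[X] N.carrier := ⟨fun r a m => by
      rw [Algebra.smul_def, mul_smul]
      rfl⟩
    obtain ⟨t, ht⟩ := N.fin.fg_top
    let L : Submodule S N.carrier := Submodule.span S (t : Set N.carrier)
    have hL : L.FG := ⟨t, rfl⟩
    have hLs : Submodule.span S[X] (L : Set N.carrier) = ⊤ := by
      rw [eq_top_iff, ← ht]
      exact Submodule.span_mono Submodule.subset_span
    obtain ⟨n, hn⟩ := exists_stable (mulX S N.carrier) L hL
    have h1 := Fil_le_succ (mulX S N.carrier) L n
    have h2 : ∀ x ∈ Fil (mulX S N.carrier) L n,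
        mulX S N.carrier x ∈ Fil (mulX S N.carrier) L (n + 1) := fun x hx =>
      z_mem_Fil (mulX S N.carrier) L n hx
    haveI : Module.Finite S (Fil (mulX S N.carrier) L n) :=
      Module.Finite.iff_fg.2 (Fil_fg _ _ hL n)
    haveI : Module.Finite S (Fil (mulX S N.carrier) L (n + 1)) :=
      Module.Finite.iff_fg.2 (Fil_fg _ _ hL (n + 1))
    have h3 := G0.cls_exact (R := S[X]) (phiX h1 h2) (psiX (Fil (mulX S N.carrier) L (n + 1)))
      (phiX_injective h1 h2) (psiX_surjective L _ (Fil_mono _ _ (Nat.zero_le _)) hLs)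
      (psiX_ker L n hn h1 h2)
    have h4 := congrArg Δ h3
    rw [map_add, h ⟨Fil (mulX S N.carrier) L (n + 1)⟩, h ⟨Fil (mulX S N.carrier) L n⟩,
      zero_add] at h4
    exact h4.symm
  rw [key]
  rfl

end Pool.Agent.GZero
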