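import Pool.Agent.GZero.Functor

/-!
# Lattices

Let `s` be an element of the noetherian ring `R` and let `Φ` be a homomorphism from `G_0(R)` which
vanishes on the classes of the modules killed by `s`. Then `Φ` is defined on all `R`-modules `W`
which have a finitely generated submodule `H` such that every element of `W` is mapped to `H` by a
power of `s`.
-/

universe u v

set_option linter.style.haveILetI false

namespace Pool.Agent.GZero

open LinearMap (ker range)

variable {R : Type u} [CommRing R]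

/-- `H` is a lattice in `W`. -/
def IsLat (s : R) (W : Type u) [AddCommGroup W] [Module R W] (H : Submodule R W) : Prop :=
  H.FG ∧ ∀ x : W, ∃ n : ℕ, s ^ n • x ∈ H

/-- The homomorphism vanishes on the classes of modules killed by `s`. -/
def Kills (s : R) {Γ : Type v} [AddCommGroup Γ] (Φ : G0 R →+ Γ) : Prop :=
  ∀ Q : FMod R, (∀ q : Q.carrier, s • q = 0) → Φ (G0.mk Q) = 0

variable {s : R} {Γ : Type v} [AddCommGroup Γ] {Φ : G0 R →+ Γ}

theorem Kills.pow [IsNoetherianRing R] (h : Kills s Φ) (n : ℕ) : ∀ (Q : Type u) [AddCommGroup Q]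
    [Module R Q] [Module.Finite R Q], (∀ q : Q, s ^ n • q = 0) → Φ (G0.cls R Q) = 0 := by
  induction n with
  | zero =>
    intro Q _ _ _ hQ
    refine h ⟨Q⟩ fun q => ?_
    have h1 : q = 0 := by
      have := hQ q
      rwa [pow_zero, one_smul] at this
    change s • q = 0
    rw [h1, smul_zero]
  | succ n ih =>
    intro Q _ _ _ hQ
    haveI : IsNoetherian R Q := isNoetherian_of_isNoetherianRing_of_finite R Q
    let f : Q →ₗ[R] Q := s • LinearMap.id
    have h1 := G0.cls_exact (R := R) (range f).subtype (range f).mkQ Subtype.val_injective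
      (Submodule.mkQ_surjective _) (by rw [Submodule.range_subtype, Submodule.ker_mkQ])
    have h2 : Φ (G0.cls R (range f)) = 0 := ih (range f) (by
      rintro ⟨_, q, rfl⟩
      apply Subtype.ext
      change s ^ n • s • q = 0
      rw [smul_smul, ← pow_succ, hQ])
    have h3 : Φ (G0.cls R (Q ⧸ range f)) = 0 := h ⟨Q ⧸ range f⟩ (by
      intro q
      obtain ⟨q, rfl⟩ := Submodule.mkQ_surjective _ q
      change s • (range f).mkQ q = 0
      rw [← map_smul, Submodule.mkQ_apply, Submodule.Quotient.mk_eq_zero]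
      exact ⟨q, rfl⟩)
    rw [h1, map_add, h2, h3, add_zero]

theorem exists_pow_killed {Q : Type u} [AddCommGroup Q] [Module R Q] (N : Submodule R Q)
    (hN : N.FG) (h : ∀ q ∈ N, ∃ n : ℕ, s ^ n • q = 0) : ∃ n : ℕ, ∀ q ∈ N, s ^ n • q = 0 := by
  obtain ⟨t, rfl⟩ := hN
  have h1 : ∀ q : Q, ∃ n : ℕ, q ∈ Submodule.span R (t : Set Q) → s ^ n • q = 0 := fun q => by
    by_cases hq : q ∈ Submodule.span R (t : Set Q)
    · obtain ⟨n, hn⟩ := h q hq
      exact ⟨n, fun _ => hn⟩
    · exact ⟨0, fun h => absurd h hq⟩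
  choose n hn using h1
  refine ⟨t.sup n, fun q hq => ?_⟩
  refine Submodule.span_induction (p := fun q _ => s ^ t.sup n • q = 0) ?_ (smul_zero _)
    (fun x y _ _ hx hy => by rw [smul_add, hx, hy, add_zero])
    (fun r x _ hx => by rw [smul_comm, hx, smul_zero]) hq
  intro q hq
  obtain ⟨k, hk⟩ := Nat.exists_eq_add_of_le (Finset.le_sup (f := n) hq)
  rw [hk, add_comm, pow_add, mul_smul, hn q (Submodule.subset_span hq), smul_zero]

/-- The class of a finitely generated submodule. -/
noncomputable def G0.sub {W : Type u} [AddCommGroup W] [Module R W] (H : Submodule R W)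
    (hH : H.FG) : G0 R :=
  haveI : Module.Finite R H := Module.Finite.iff_fg.2 hH
  G0.cls R H

theorem Kills.le [IsNoetherianRing R] (h : Kills s Φ) {W : Type u} [AddCommGroup W] [Module R W]
    {H H' : Submodule R W} (hH : IsLat s W H) (hH' : IsLat s W H') (hle : H ≤ H') :
    Φ (G0.sub H hH.1) = Φ (G0.sub H' hH'.1) := by
  haveI : Module.Finite R H := Module.Finite.iff_fg.2 hH.1
  haveI : Module.Finite R H' := Module.Finite.iff_fg.2 hH'.1
  obtain ⟨n, hn⟩ := exists_pow_killed (s := s) (H'.map H.mkQ) (hH'.1.map _) (by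
    rintro _ ⟨x, _, rfl⟩
    obtain ⟨n, hn⟩ := hH.2 x
    refine ⟨n, ?_⟩
    rw [← map_smul, Submodule.mkQ_apply, Submodule.Quotient.mk_eq_zero]
    exact hn)
  let i : H →ₗ[R] H' := Submodule.inclusion hle
  have h1 := G0.cls_exact (R := R) i (range i).mkQ (Submodule.inclusion_injective hle)
    (Submodule.mkQ_surjective _) (by rw [Submodule.ker_mkQ])
  have h2 : Φ (G0.cls R (H' ⧸ range i)) = 0 := h.pow n (H' ⧸ range i) (by
    intro q
    obtain ⟨⟨x, hx⟩, rfl⟩ := Submodule.mkQ_surjective _ q
    rw [← map_smul, Submodule.mkQ_apply, Submodule.Quotient.mk_eq_zero]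
    have h3 := hn (H.mkQ x) ⟨x, hx, rfl⟩
    rw [← map_smul, Submodule.mkQ_apply, Submodule.Quotient.mk_eq_zero] at h3
    exact ⟨⟨s ^ n • x, h3⟩, rfl⟩)
  have h4 := congrArg Φ h1
  rw [map_add, h2, add_zero] at h4
  exact h4.symm

theorem IsLat.sup {W : Type u} [AddCommGroup W] [Module R W] {H H' : Submodule R W}
    (hH : IsLat s W H) (hH' : IsLat s W H') : IsLat s W (H ⊔ H') :=
  ⟨hH.1.sup hH'.1, fun x => by
    obtain ⟨n, hn⟩ := hH.2 x
    exact ⟨n, (le_sup_left : H ≤ H ⊔ H') hn⟩⟩

theorem Kills.eq [IsNoetherianRing R] (h : Kills s Φ) {W : Type u} [AddCommGroup W] [Module R W]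
    {H H' : Submodule R W} (hH : IsLat s W H) (hH' : IsLat s W H') :
    Φ (G0.sub H hH.1) = Φ (G0.sub H' hH'.1) :=
  (h.le hH (hH.sup hH') le_sup_left).trans (h.le hH' (hH.sup hH') le_sup_right).symm

open Classical in
/-- The value of `Φ` on a module with a lattice. -/
noncomputable def latV (s : R) (Φ : G0 R →+ Γ) (W : Type u) [AddCommGroup W] [Module R W] : Γ :=
  if h : ∃ H : Submodule R W, IsLat s W H then Φ (G0.sub h.choose h.choose_spec.1) else 0

theorem Kills.latV [IsNoetherianRing R] (h : Kills s Φ) {W : Type u} [AddCommGroup W] [Module R W]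
    {H : Submodule R W} (hH : IsLat s W H) : latV s Φ W = Φ (G0.sub H hH.1) := by
  have h1 : ∃ H : Submodule R W, IsLat s W H := ⟨H, hH⟩
  unfold GZero.latV
  rw [dif_pos h1]
  exact h.eq h1.choose_spec hH

/-- The value of `Φ` on a module with an embedded lattice. -/
theorem Kills.latV_of_injective [IsNoetherianRing R] (h : Kills s Φ) {W : Type u} [AddCommGroup W]
    [Module R W] {N : Type u} [AddCommGroup N] [Module R N] [Module.Finite R N] (κ : N →ₗ[R] W)
    (hκ : Function.Injective κ) (hs : ∀ x : W, ∃ n : ℕ, s ^ n • x ∈ range κ) :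
    GZero.latV s Φ W = Φ (G0.cls R N) := by
  have hlat : IsLat s W (range κ) := ⟨Module.Finite.iff_fg.1 inferInstance, hs⟩
  rw [h.latV hlat]
  haveI : Module.Finite R (range κ) := Module.Finite.iff_fg.2 hlat.1
  exact congrArg Φ (G0.cls_congr (LinearEquiv.ofInjective κ hκ).symm)

theorem Kills.latV_add [IsNoetherianRing R] (h : Kills s Φ) {W' W W'' : Type u}
    [AddCommGroup W'] [Module R W'] [AddCommGroup W] [Module R W] [AddCommGroup W''] [Module R W'']
    (i : W' →ₗ[R] W) (p : W →ₗ[R] W'') (hi : Function.Injective i) (hp : Function.Surjective p)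
    (hip : range i = ker p) (hW : ∃ H : Submodule R W, IsLat s W H) :
    GZero.latV s Φ W = GZero.latV s Φ W' + GZero.latV s Φ W'' := by
  obtain ⟨H, hH⟩ := hW
  haveI : Module.Finite R H := Module.Finite.iff_fg.2 hH.1
  haveI : IsNoetherian R H := isNoetherian_of_isNoetherianRing_of_finite R H
  let i' : H.comap i →ₗ[R] H := i.restrict fun x hx => hx
  have hi' : Function.Injective i' := fun x y hxy => by
    apply Subtype.ext
    exact hi (congrArg Subtype.val hxy)
  haveI : Module.Finite R (H.comap i) := Module.Finite.of_injective i' hi'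
  haveI : Module.Finite R (H.map p) := Module.Finite.iff_fg.2 (hH.1.map p)
  let p' : H →ₗ[R] H.map p := p.restrict fun x hx => Submodule.mem_map_of_mem hx
  have h1 : IsLat s W' (H.comap i) := ⟨Module.Finite.iff_fg.1 inferInstance, fun x => by
    obtain ⟨n, hn⟩ := hH.2 (i x)
    refine ⟨n, ?_⟩
    rw [Submodule.mem_comap, map_smul]
    exact hn⟩
  have h2 : IsLat s W'' (H.map p) := ⟨hH.1.map p, fun x => by
    obtain ⟨y, rfl⟩ := hp x
    obtain ⟨n, hn⟩ := hH.2 y
    refine ⟨n, ?_⟩
    rw [← map_smul]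
    exact Submodule.mem_map_of_mem hn⟩
  rw [h.latV hH, h.latV h1, h.latV h2, ← map_add]
  refine congrArg Φ (G0.cls_exact (R := R) i' p' hi' ?_ ?_)
  · rintro ⟨_, x, hx, rfl⟩
    exact ⟨⟨x, hx⟩, rfl⟩
  · ext ⟨x, hx⟩
    constructor
    · rintro ⟨y, hy⟩
      have h3 : i y.1 = x := congrArg Subtype.val hy
      have h4 : x ∈ ker p := by
        rw [← hip]
        exact ⟨y.1, h3⟩
      rw [LinearMap.mem_ker]
      apply Subtype.ext
      exact h4
    · intro hx0
      have h3 : p x = 0 := congrArg Subtype.val (LinearMap.mem_ker.1 hx0)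
      have h4 : x ∈ range i := by
        rw [hip]
        exact h3
      obtain ⟨y, hy⟩ := h4
      refine ⟨⟨y, ?_⟩, Subtype.ext hy⟩
      rw [Submodule.mem_comap, hy]
      exact hx

end Pool.Agent.GZero
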