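import Pool.Agent.GZero.GenB
import Pool.Agent.GZero.Homotopy
import Pool.Agent.GZero.Lattice

/-!
# Modules over `S[X] / (a X + c)`
-/

universe u v w

set_option linter.style.haveILetI false

namespace Pool.Agent.GZero

open LinearMap (ker range)
open Polynomial

section poly

variable {S : Type u} [CommRing S] {L : Type u} [AddCommGroup L] [Module S L] (a c : S)

theorem C_smul_single (b : S) (i : ℕ) (l : L) :
    (C b : S[X]) • PolynomialModule.single S i l = PolynomialModule.single S i (b • l) := by
  rw [← Polynomial.monomial_zero_left, PolynomialModule.monomial_smul_single, zero_add]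

theorem F_smul_single (i : ℕ) (l : L) :
    (C a * X + C c : S[X]) • PolynomialModule.single S i l =
      PolynomialModule.single S (i + 1) (a • l) + PolynomialModule.single S i (c • l) := by
  rw [add_smul, mul_smul, X_smul_single, C_smul_single, C_smul_single]

theorem C_smul_coeff (b : S) (p : PolynomialModule S L) (i : ℕ) :
    ((C b : S[X]) • p).coeff i = b • p.coeff i := by
  induction p using PolynomialModule.induction_linear with
  | zero => rw [smul_zero, PolynomialModule.coeff_zero, Finsupp.zero_apply, smul_zero]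
  | add p q hp hq =>
    rw [smul_add, PolynomialModule.coeff_add, PolynomialModule.coeff_add, Finsupp.add_apply,
      Finsupp.add_apply, hp, hq, smul_add]
  | single n m =>
    rw [C_smul_single, PolynomialModule.coeff_single, PolynomialModule.coeff_single,
      ← Finsupp.smul_single, Finsupp.smul_apply]

theorem F_smul_coeff (p : PolynomialModule S L) (i : ℕ) :
    ((C a * X + C c : S[X]) • p).coeff (i + 1) = a • p.coeff i + c • p.coeff (i + 1) := by
  rw [add_smul, mul_smul, PolynomialModule.coeff_add, Finsupp.add_apply, C_smul_coeff,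
    C_smul_coeff, X_smul_coeff_succ]

/-- Modulo `a X + c` a power of `a` makes every element constant. -/
theorem exists_const (p : PolynomialModule S L) : ∃ (d : ℕ) (m : L) (q : PolynomialModule S L),
    (C a : S[X]) ^ d • p = PolynomialModule.single S 0 m + (C a * X + C c : S[X]) • q := by
  induction p using PolynomialModule.induction_linear with
  | zero => exact ⟨0, 0, 0, by rw [smul_zero, smul_zero, PolynomialModule.single_zero, add_zero]⟩
  | add p q hp hq =>
    obtain ⟨d, m, s, h⟩ := hp
    obtain ⟨d', m', s', h'⟩ := hq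
    refine ⟨d + d', a ^ d' • m + a ^ d • m', (C a : S[X]) ^ d' • s + (C a : S[X]) ^ d • s', ?_⟩
    have h1 : (C a : S[X]) ^ (d + d') • p = (C a : S[X]) ^ d' • (C a : S[X]) ^ d • p := by
      rw [smul_smul, ← pow_add, add_comm]
    have h2 : (C a : S[X]) ^ (d + d') • q = (C a : S[X]) ^ d • (C a : S[X]) ^ d' • q := by
      rw [smul_smul, ← pow_add]
    rw [smul_add, h1, h2, h, h', PolynomialModule.single_add, ← C_smul_single, ← C_smul_single,
      C_pow, C_pow, smul_add, smul_add, smul_add, smul_comm ((C a : S[X]) ^ d') (C a * X + C c),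
      smul_comm ((C a : S[X]) ^ d) (C a * X + C c)]
    abel
  | single n l =>
    induction n generalizing l with
    | zero => exact ⟨0, l, 0, by rw [pow_zero, one_smul, smul_zero, add_zero]⟩
    | succ n ih =>
      obtain ⟨d, m, q, h⟩ := ih (-(c • l))
      refine ⟨d + 1, m, (C a : S[X]) ^ d • PolynomialModule.single S n l + q, ?_⟩
      have h1 : (C a : S[X]) • PolynomialModule.single S (n + 1) l =
          (C a * X + C c : S[X]) • PolynomialModule.single S n l +
            PolynomialModule.single S n (-(c • l)) := by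
        rw [F_smul_single, C_smul_single, add_assoc, ← PolynomialModule.single_add, add_neg_cancel,
          PolynomialModule.single_zero, add_zero]
      rw [pow_succ, mul_smul, h1, smul_add, h, smul_add,
        smul_comm ((C a : S[X]) ^ d) (C a * X + C c)]
      abel

theorem torsion_of_ker (p : PolynomialModule S L) (hp : (C a * X + C c : S[X]) • p = 0) :
    ∃ n : ℕ, (C a : S[X]) ^ n • p = 0 := by
  obtain ⟨N, hN⟩ : ∃ N, ∀ i, N ≤ i → p.coeff i = 0 := by
    refine ⟨p.coeff.support.sup id + 1, fun i hi => ?_⟩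
    by_contra hne
    have h6 : i ∈ p.coeff.support := Finsupp.mem_support_iff.2 hne
    have h7 := Finset.le_sup (f := id) h6
    change i ≤ _ at h7
    omega
  have h3 : ∀ i, a • p.coeff i = -(c • p.coeff (i + 1)) := fun i => by
    have h4 := F_smul_coeff a c p i
    rw [hp] at h4
    exact eq_neg_of_add_eq_zero_left h4.symm
  have h8 : ∀ k i, N ≤ i + k → a ^ k • p.coeff i = 0 := by
    intro k
    induction k with
    | zero =>
      intro i hi
      rw [hN i hi, smul_zero]
    | succ k ih =>
      intro i hi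
      rw [pow_succ, mul_smul, h3, smul_neg, smul_comm, ih (i + 1) (by omega), smul_zero, neg_zero]
  refine ⟨N, ?_⟩
  rw [← C_pow]
  apply PolynomialModule.ext
  ext i
  rw [C_smul_coeff, h8 N i (by omega)]
  rfl

end poly

section main

/-- The cokernel of `F`. -/
abbrev Hc {B : Type u} [CommRing B] (F : B) (W : Type u) [AddCommGroup W] [Module B W] : Type u :=
  Hm (mulF F W) (0 : W →ₗ[B] W)

/-- The kernel of `F`. -/
abbrev Hk {B : Type u} [CommRing B] (F : B) (W : Type u) [AddCommGroup W] [Module B W] : Type u :=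
  Hm (0 : W →ₗ[B] W) (mulF F W)

variable {S : Type u} [CommRing S] {V : Type u} [CommRing V]
  {σ : S[X] →+* V} {a : S} {Γ : Type v} [AddCommGroup Γ] (φ : G0 V →+ Γ) (J : Set S)

theorem tors_one (h : ∀ Q : FMod V, (∀ t ∈ J, ∀ q : Q.carrier, σ (C t) • q = 0) →
      (∀ q : Q.carrier, σ (C a) • q = 0) → φ (G0.mk Q) = 0)
    (N : Type u) [AddCommGroup N] [Module S[X] N] (hN : Good σ N)
    (hJ : ∀ t ∈ J, ∀ q : N, (C t : S[X]) • q = 0) (ha : ∀ q : N, (C a : S[X]) • q = 0) :
    φ (clV σ N) = 0 := by
  rw [clV_eq σ N hN]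
  letI := modVia σ hN.1 N hN.2.2
  haveI := hN.2.1
  haveI := modVia_finite σ hN.1 N hN.2.2
  exact h ⟨N⟩ (fun t ht q => (modVia_smul σ hN.1 N hN.2.2 (C t) q).trans (hJ t ht q))
    (fun q => (modVia_smul σ hN.1 N hN.2.2 (C a) q).trans (ha q))

variable [IsNoetherianRing S]

theorem tors_pow (h : ∀ Q : FMod V, (∀ t ∈ J, ∀ q : Q.carrier, σ (C t) • q = 0) →
      (∀ q : Q.carrier, σ (C a) • q = 0) → φ (G0.mk Q) = 0)
    (n : ℕ) : ∀ (N : Type u) [AddCommGroup N] [Module S[X] N], Good σ N →
      (∀ t ∈ J, ∀ q : N, (C t : S[X]) • q = 0) → (∀ q : N, (C a : S[X]) ^ n • q = 0) →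
      φ (clV σ N) = 0 := by
  induction n with
  | zero =>
    intro N _ _ hN _ ha
    have h0 : Subsingleton N := ⟨fun x y => by
      have hx := ha x
      have hy := ha y
      rw [pow_zero, one_smul] at hx hy
      rw [hx, hy]⟩
    rw [clV_subsingleton σ hN.1 N, map_zero]
  | succ n ih =>
    intro N _ _ hN hJ ha
    let f : N →ₗ[S[X]] N := mulF (C a) N
    have h1 := clV_sub_quot σ hN (range f)
    have h2 : φ (clV σ (range f)) = 0 := by
      refine ih (range f) (hN.of_injective _ (range f).injective_subtype) ?_ ?_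
      · intro t ht q
        exact Subtype.ext (hJ t ht q.1)
      · rintro ⟨_, q, rfl⟩
        apply Subtype.ext
        change (C a : S[X]) ^ n • (C a : S[X]) • q = 0
        rw [smul_smul, ← pow_succ, ha]
    have h3 : φ (clV σ (N ⧸ range f)) = 0 := by
      refine tors_one φ J h (N ⧸ range f) (hN.of_surjective _ (range f).mkQ_surjective) ?_ ?_
      · intro t ht q
        obtain ⟨q, rfl⟩ := Submodule.mkQ_surjective _ q
        rw [← map_smul, hJ t ht q, map_zero]
      · intro q
        obtain ⟨q, rfl⟩ := Submodule.mkQ_surjective _ q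
        rw [← map_smul, Submodule.mkQ_apply, Submodule.Quotient.mk_eq_zero]
        exact ⟨q, rfl⟩
    rw [h1, map_add, h2, h3, add_zero]

theorem tors (h : ∀ Q : FMod V, (∀ t ∈ J, ∀ q : Q.carrier, σ (C t) • q = 0) →
      (∀ q : Q.carrier, σ (C a) • q = 0) → φ (G0.mk Q) = 0)
    (N : Type u) [AddCommGroup N] [Module S[X] N] (hN : Good σ N)
    (hJ : ∀ t ∈ J, ∀ q : N, (C t : S[X]) • q = 0) (ha : ∀ q : N, ∃ n : ℕ, (C a : S[X]) ^ n • q = 0) :
    φ (clV σ N) = 0 := by
  obtain ⟨n, hn⟩ := exists_pow_killed (s := (C a : S[X])) (⊤ : Submodule S[X] N) hN.2.1.fg_top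
    (fun q _ => ha q)
  exact tors_pow φ J h n N hN hJ fun q => hn q trivial

/-- The main lemma. -/
theorem gen_step {c : S} (hcut : Cut σ (C a * X + C c)) (hφ : ∀ x, φ (hcut.dlt x) = 0)
    (h : ∀ Q : FMod V, (∀ t ∈ J, ∀ q : Q.carrier, σ (C t) • q = 0) →
      (∀ q : Q.carrier, σ (C a) • q = 0) → φ (G0.mk Q) = 0) (M : FMod V)
    (hM : ∀ t ∈ J, ∀ m : M.carrier, σ (C t) • m = 0) : φ (G0.mk M) = 0 := by
  letI iX : Module S[X] M.carrier := Module.compHom _ σ
  letI iS : Module S M.carrier := Module.compHom M.carrier (C : S →+* S[X])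
  haveI : IsScalarTower S S[X] M.carrier := ⟨fun r b m => by
    rw [Algebra.smul_def, mul_smul]
    rfl⟩
  haveI hfin : Module.Finite S[X] M.carrier := finite_compHom σ hcut.surj M.carrier
  obtain ⟨t, ht⟩ := hfin.fg_top
  let L : Submodule S M.carrier := Submodule.span S (t : Set M.carrier)
  haveI : Module.Finite S L := Module.Finite.iff_fg.2 ⟨t, rfl⟩
  have hLs : Submodule.span S[X] (L : Set M.carrier) = ⊤ := by
    rw [eq_top_iff, ← ht]
    exact Submodule.span_mono Submodule.subset_span
  obtain ⟨F, hF⟩ : ∃ F : S[X], F = C a * X + C c := ⟨_, rfl⟩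
  have hFM : ∀ m : M.carrier, F • m = 0 := fun m => by
    change σ F • m = 0
    rw [hF, hcut.zero, zero_smul]
  let ψ : PolynomialModule S L →ₗ[S[X]] M.carrier := psiX L
  have hψ : Function.Surjective ψ := psiX_surjective L L le_rfl hLs
  have hLJ : ∀ b ∈ J, ∀ p : PolynomialModule S L, (C b : S[X]) • p = 0 := by
    intro b hb p
    apply PolynomialModule.ext
    ext i
    rw [C_smul_coeff]
    exact hM b hb (p.coeff i : L).1
  have hg1 : Good σ (Hc F (PolynomialModule S L)) := by
    rw [hF]
    exact hcut.good1 _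
  have hg0 : Good σ (Hk F (PolynomialModule S L)) := by
    rw [hF]
    exact hcut.good0 _
  have hd : φ (clV σ (Hc F (PolynomialModule S L))) =
      φ (clV σ (Hk F (PolynomialModule S L))) := by
    have h1 := hφ (G0.mk ⟨PolynomialModule S L⟩)
    rw [hcut.dlt_mk, map_sub, sub_eq_zero, ← hF] at h1
    exact h1
  have h0 : φ (clV σ (Hk F (PolynomialModule S L))) = 0 := by
    refine tors φ J h _ hg0 ?_ ?_
    · intro b hb q
      obtain ⟨x, hx, rfl⟩ := hcl_surj _ _ q
      change hcl _ _ ((C b : S[X]) • x) (by rw [map_smul, hx, smul_zero]) = 0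
      rw [hcl_eq_zero]
      exact ⟨0, by rw [map_zero, hLJ b hb x]⟩
    · intro q
      obtain ⟨x, hx, rfl⟩ := hcl_surj _ _ q
      obtain ⟨n, hn⟩ := torsion_of_ker a c x (by
        rw [← hF]
        exact hx)
      refine ⟨n, ?_⟩
      change hcl _ _ ((C a : S[X]) ^ n • x) (by rw [map_smul, hx, smul_zero]) = 0
      rw [hcl_eq_zero]
      exact ⟨0, by rw [map_zero, hn]⟩
  let π : Hc F (PolynomialModule S L) →ₗ[S[X]] M.carrier := Submodule.liftQ _ (ψ.comp (ker (0 :
      PolynomialModule S L →ₗ[S[X]] PolynomialModule S L)).subtype) (by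
    rintro ⟨x, hx⟩ ⟨y, hy⟩
    rw [LinearMap.mem_ker]
    change ψ x = 0
    have hy' : F • y = x := hy
    rw [← hy', map_smul]
    exact hFM _)
  have hπ : ∀ (x : PolynomialModule S L), π (hcl (mulF F (PolynomialModule S L))
      (0 : PolynomialModule S L →ₗ[S[X]] PolynomialModule S L) x rfl) = ψ x := fun x => rfl
  have hπs : Function.Surjective π := fun m => by
    obtain ⟨x, rfl⟩ := hψ m
    exact ⟨_, hπ x⟩
  have hex := clV_exact σ hg1 (ker π).subtype π (ker π).injective_subtype hπs
    (by rw [Submodule.range_subtype])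
  have hk : φ (clV σ (ker π)) = 0 := by
    refine tors φ J h (ker π) (hg1.of_injective _ (ker π).injective_subtype) ?_ ?_
    · rintro b hb ⟨q, hq⟩
      apply Subtype.ext
      obtain ⟨x, hx, rfl⟩ := hcl_surj _ _ q
      change hcl _ _ ((C b : S[X]) • x) rfl = 0
      rw [hcl_eq_zero]
      exact ⟨0, by rw [map_zero, hLJ b hb x]⟩
    · rintro ⟨q, hq⟩
      obtain ⟨x, hx, rfl⟩ := hcl_surj _ _ q
      have hx0 : ψ x = 0 := hq
      obtain ⟨d, m, y, hd⟩ := exists_const a c x
      have h1 := congrArg ψ hd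
      rw [map_smul, hx0, smul_zero, map_add, map_smul, ← hF, hFM, add_zero] at h1
      have h2 : ψ (PolynomialModule.single S 0 m) = (m : M.carrier) := by
        change psiX L (PolynomialModule.single S 0 m) = _
        rw [psiX_single, pow_zero, one_smul]
      rw [h2] at h1
      have h3 : m = 0 := Subtype.ext h1.symm
      rw [h3, PolynomialModule.single_zero, zero_add, ← hF] at hd
      refine ⟨d, ?_⟩
      apply Subtype.ext
      change hcl _ _ ((C a : S[X]) ^ d • x) rfl = 0
      rw [hcl_eq_zero]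
      exact ⟨y, hd.symm⟩
  have hM' : clV σ M.carrier = G0.mk M :=
    clV_restrict σ hcut.surj M.carrier M.carrier (AddEquiv.refl _) (fun b n => rfl)
  rw [← hM']
  have h5 := congrArg φ hex
  rw [map_add, hk, zero_add] at h5
  rw [← h5, hd, h0]

end main

end Pool.Agent.GZero
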