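import Pool.Agent.GZero.SmW
import Pool.Agent.GZero.GenC
import Pool.Agent.GZero.GenD

/-!
# The group `G_0(P[z][y] / (∑ y_l f_l + z - z^2))`: the coordinates
-/

universe u v w

set_option linter.style.haveILetI false
set_option linter.unusedSectionVars false

namespace Pool.Agent.GZero

open LinearMap (ker range)
open TensorProduct Polynomial

variable {P : Type u} [CommRing P] {r : ℕ} (f : Fin r → P)

/-! ### The coordinate `z` -/

/-- The polynomials in `z` over the ring of polynomials in the `y_l`. -/
noncomputable def eZ (P : Type u) [CommRing P] (r : ℕ) :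
    (MvPolynomial (Fin r) P)[X] ≃ₐ[P] MvPolynomial (Fin r) P[X] :=
  (MvPolynomial.optionEquivLeft P (Fin r)).symm.trans (MvPolynomial.optionEquivRight P (Fin r))

theorem eZ_X : eZ P r X = MvPolynomial.C X := by
  unfold eZ
  rw [AlgEquiv.trans_apply, MvPolynomial.optionEquivLeft_symm_X]
  simp

theorem eZ_y (l : Fin r) : eZ P r (C (MvPolynomial.X l)) = MvPolynomial.X l := by
  unfold eZ
  rw [AlgEquiv.trans_apply, MvPolynomial.optionEquivLeft_symm_C_X]
  simp

theorem eZ_C (p : P) : eZ P r (C (MvPolynomial.C p)) = MvPolynomial.C (C p) := by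
  unfold eZ
  rw [AlgEquiv.trans_apply, MvPolynomial.optionEquivLeft_symm_C_C]
  simp

/-- The equation in terms of `z`. -/
noncomputable def FZ : (MvPolynomial (Fin r) P)[X] := C (pairing f) + (X - X ^ 2)

theorem eZ_FZ : eZ P r (FZ f) = smW f := by
  unfold FZ smW pairing
  rw [map_add, map_sum, map_sum, map_sub, map_pow, eZ_X, map_sub, map_pow]
  congr 1
  refine Finset.sum_congr rfl fun l _ => ?_
  rw [map_mul, map_mul, eZ_y, eZ_C]

theorem FZ_regular (b : (MvPolynomial (Fin r) P)[X]) (h : FZ f * b = 0) : b = 0 := by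
  rcases subsingleton_or_nontrivial P with hP | hP
  · exact Subsingleton.elim _ _
  have h1 : (X ^ 2 + (-X - C (pairing f)) : (MvPolynomial (Fin r) P)[X]).Monic := by
    refine Polynomial.monic_X_pow_add ?_
    refine (Polynomial.degree_sub_le _ _).trans_lt (max_lt ?_ ?_)
    · rw [Polynomial.degree_neg, Polynomial.degree_X]
      exact_mod_cast one_lt_two
    · refine Polynomial.degree_C_le.trans_lt ?_
      exact_mod_cast two_pos
  have h2 : (X ^ 2 + (-X - C (pairing f)) : (MvPolynomial (Fin r) P)[X]) * b = 0 := by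
    have h3 : (X ^ 2 + (-X - C (pairing f)) : (MvPolynomial (Fin r) P)[X]) * b = -(FZ f * b) := by
      unfold FZ
      ring
    rw [h3, h, neg_zero]
  exact (h1.mul_right_eq_zero_iff).1 h2

/-! ### The coordinate `y_j` -/

/-- The polynomials in `y_j` over the ring of polynomials in the other variables. -/
noncomputable def eY (T : Type u) [CommRing T] (j : Fin r) :
    (MvPolynomial {l : Fin r // l ≠ j} T)[X] ≃ₐ[T] MvPolynomial (Fin r) T :=
  (MvPolynomial.optionEquivLeft T {l : Fin r // l ≠ j}).symm.trans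
    (MvPolynomial.renameEquiv T (Equiv.optionSubtypeNe j))

variable {T : Type u} [CommRing T] (j : Fin r)

theorem eY_X : eY T j X = MvPolynomial.X j := by
  unfold eY
  rw [AlgEquiv.trans_apply, MvPolynomial.optionEquivLeft_symm_X]
  simp

theorem eY_y (l : {l : Fin r // l ≠ j}) : eY T j (C (MvPolynomial.X l)) = MvPolynomial.X l.1 := by
  unfold eY
  rw [AlgEquiv.trans_apply, MvPolynomial.optionEquivLeft_symm_C_X]
  simp

theorem eY_C (t : T) : eY T j (C (MvPolynomial.C t)) = MvPolynomial.C t := by
  unfold eY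
  rw [AlgEquiv.trans_apply, MvPolynomial.optionEquivLeft_symm_C_C]
  simp

/-- The coefficient of `y_j`. -/
noncomputable def aY : MvPolynomial {l : Fin r // l ≠ j} P[X] := MvPolynomial.C (C (f j))

/-- The other part of the equation. -/
noncomputable def cY : MvPolynomial {l : Fin r // l ≠ j} P[X] :=
  ∑ l : {l : Fin r // l ≠ j}, MvPolynomial.X l * MvPolynomial.C (C (f l.1)) +
    MvPolynomial.C (X - X ^ 2)

theorem eY_F : eY P[X] j (C (aY f j) * X + C (cY f j)) = smW f := by
  unfold aY cY smW pairing
  rw [map_add, map_mul, eY_C, eY_X, map_add, map_add, eY_C, map_sum, map_sum,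
    Fintype.sum_eq_add_sum_subtype_ne _ j, add_assoc, mul_comm]
  congr 2
  refine Finset.sum_congr rfl fun l _ => ?_
  rw [map_mul, map_mul, eY_y, eY_C]

end Pool.Agent.GZero
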