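import Pool.Agent.GZero.GenE

/-!
# The group `G_0(P[z][y] / (∑ y_l f_l + z - z^2))`: the derived restrictions
-/

universe u v w

set_option linter.style.haveILetI false
set_option linter.unusedSectionVars false

namespace Pool.Agent.GZero

open LinearMap (ker range)
open TensorProduct Polynomial

section general

/-- The kernel of the composition with an isomorphism. -/
theorem cut_of_equiv {B R : Type u} [CommRing B] [CommRing R] (e : B ≃+* R) (F : B) (W : R)
    (h : e F = W) : Cut ((Ideal.Quotient.mk (Ideal.span {W})).comp (e : B →+* R)) F := by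
  refine ⟨?_, ?_, ?_⟩
  · exact Ideal.Quotient.mk_surjective.comp e.surjective
  · change Ideal.Quotient.mk (Ideal.span {W}) (e F) = 0
    rw [h]
    exact Ideal.Quotient.eq_zero_iff_mem.2 (Ideal.subset_span rfl)
  · intro b hb
    change Ideal.Quotient.mk (Ideal.span {W}) (e b) = 0 at hb
    obtain ⟨c, hc⟩ := Ideal.mem_span_singleton'.1 (Ideal.Quotient.eq_zero_iff_mem.1 hb)
    refine ⟨e.symm c, e.injective ?_⟩
    rw [map_mul, e.apply_symm_apply, h, hc]

end general

variable {k : Type u} [CommRing k] {P : Type u} [CommRing P] [Algebra k P] {r : ℕ} (f : Fin r → P)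
  (j : Fin r)

/-- The ring of the polynomials in `z` and in the `y_l`, `l ≠ j`. -/
abbrev SY (P : Type u) [CommRing P] {r : ℕ} (j : Fin r) : Type u :=
  MvPolynomial {l : Fin r // l ≠ j} P[X]

/-- The surjection onto `SmR f` from the polynomials in `y_j`. -/
noncomputable def sigY (k : Type u) [CommRing k] [Algebra k P] : (SY P j)[X] →ₐ[k] SmR f :=
  (Ideal.Quotient.mkₐ k (Ideal.span {smW f})).comp ((eY P[X] j).restrictScalars k).toAlgHom

/-- The surjection onto `SmR f` from the polynomials in `z`. -/
noncomputable def sigZ (k : Type u) [CommRing k] [Algebra k P] :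
    (MvPolynomial (Fin r) P)[X] →ₐ[k] SmR f :=
  (Ideal.Quotient.mkₐ k (Ideal.span {smW f})).comp ((eZ P r).restrictScalars k).toAlgHom

theorem cutY : Cut (sigY f j k : (SY P j)[X] →+* SmR f) (C (aY f j) * X + C (cY f j)) :=
  cut_of_equiv (eY P[X] j).toRingEquiv _ _ (eY_F f j)

theorem cutZ : Cut (sigZ f k : (MvPolynomial (Fin r) P)[X] →+* SmR f) (FZ f) :=
  cut_of_equiv (eZ P r).toRingEquiv _ _ (eZ_FZ f)

theorem regY (b : (SY P j)[X]) (h : (C (aY f j) * X + C (cY f j)) * b = 0) : b = 0 := by
  have h1 : (eZ P r) (FZ f * (eZ P r).symm (eY P[X] j b)) = 0 := by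
    rw [map_mul, eZ_FZ, AlgEquiv.apply_symm_apply, ← eY_F f j, ← map_mul, h, map_zero]
  have h2 : FZ f * (eZ P r).symm (eY P[X] j b) = 0 :=
    (eZ P r).injective (h1.trans (map_zero _).symm)
  have h3 := FZ_regular f _ h2
  have h4 : eY P[X] j b = 0 := (eZ P r).symm.injective (h3.trans (map_zero _).symm)
  exact (eY P[X] j).injective (h4.trans (map_zero _).symm)

section

variable [IsNoetherianRing P] [Module.Flat k P] (hP : Function.Surjective (G0.bc k P))

instance flatT : Module.Flat k P[X] := Module.Flat.trans k P _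

instance flatSY : Module.Flat k (SY P j) := Module.Flat.trans k P[X] _

instance flatSYX : Module.Flat k (SY P j)[X] := Module.Flat.trans k (SY P j) _

instance flatM : Module.Flat k (MvPolynomial (Fin r) P) := Module.Flat.trans k P _

instance flatMX : Module.Flat k (MvPolynomial (Fin r) P)[X] :=
  Module.Flat.trans k (MvPolynomial (Fin r) P) _

include hP in
theorem surjY : Function.Surjective (G0.bc k (SY P j)[X]) := by
  have h1 : Function.Surjective (G0.bc k P[X]) := G0.bc_surj_comp k P _ hP (G0.bc_polynomial P)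
  have h2 : Function.Surjective (G0.bc k (SY P j)) :=
    G0.bc_surj_comp k P[X] _ h1 (G0.bc_mvPolynomial _ _)
  exact G0.bc_surj_comp k (SY P j) _ h2 (G0.bc_polynomial _)

include hP in
theorem surjZ : Function.Surjective (G0.bc k (MvPolynomial (Fin r) P)[X]) := by
  have h1 : Function.Surjective (G0.bc k (MvPolynomial (Fin r) P)) :=
    G0.bc_surj_comp k P _ hP (G0.bc_mvPolynomial _ _)
  exact G0.bc_surj_comp k (MvPolynomial (Fin r) P) _ h1 (G0.bc_polynomial _)

variable [Module.Flat k (SmR f)] {Γ : Type v} [AddCommGroup Γ] (φ : G0 (SmR f) →+ Γ)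
  (hφ : ∀ y, φ (G0.bc k (SmR f) y) = 0)

include hP hφ in
theorem phiY (x : G0 (SY P j)[X]) : φ ((cutY (k := k) f j).dlt x) = 0 := by
  have h1 := surjY (k := k) j hP
  have h2 := regY f j
  have h3 := cutY (k := k) f j
  have h4 := phi_dlt (k := k) (B := (SY P j)[X]) (A := SmR f) (sigY f j k)
    (C (aY f j) * X + C (cY f j)) h3
  have h5 := h4 h2 h1 (Γ := Γ) φ hφ x
  exact h5

include hP hφ in
theorem phiZ (x : G0 (MvPolynomial (Fin r) P)[X]) : φ ((cutZ (k := k) f).dlt x) = 0 :=
  phi_dlt (sigZ f k) _ (cutZ f) (FZ_regular f) (surjZ hP) φ hφ x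

theorem sigY_C (t : P[X]) : sigY f j k (C (MvPolynomial.C t)) = HR.c (smW f) t := by
  change Ideal.Quotient.mk _ (eY P[X] j (C (MvPolynomial.C t))) = _
  rw [eY_C]
  rfl

include hP hφ in
/-- A homomorphism which vanishes on the modules killed by all the `f_l` is zero. -/
theorem gen_main (h : ∀ M : FMod (SmR f), (∀ l, ∀ m : M.carrier, SmR.b f (f l) • m = 0) →
    φ (G0.mk M) = 0) (x : G0 (SmR f)) : φ x = 0 := by
  have key : ∀ (d i : ℕ), i + d = r → ∀ M : FMod (SmR f),
      (∀ l : Fin r, l.val < i → ∀ m : M.carrier, SmR.b f (f l) • m = 0) → φ (G0.mk M) = 0 := by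
    intro d
    induction d with
    | zero =>
      intro i hi M hM
      exact h M fun l m => hM l (by have := l.2; omega) m
    | succ d ih =>
      intro i hi M hM
      let j : Fin r := ⟨i, by omega⟩
      refine gen_step φ ((fun l : Fin r => (MvPolynomial.C (C (f l)) : SY P j)) ''
        {l | l.val < i}) (cutY (k := k) f j) (phiY f j hP φ hφ) ?_ M ?_
      · intro Q hQ ha
        refine ih (i + 1) (by omega) Q fun l hl q => ?_
        rcases Nat.lt_succ_iff_lt_or_eq.1 hl with h1 | h1
        · have h2 := hQ _ ⟨l, h1, rfl⟩ q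
          change sigY f j k (C (MvPolynomial.C (C (f l)))) • q = 0 at h2
          rw [sigY_C] at h2
          exact h2
        · have h2 := ha q
          change sigY f j k (C (MvPolynomial.C (C (f j)))) • q = 0 at h2
          rw [sigY_C] at h2
          have h3 : l = j := Fin.ext h1
          rw [h3]
          exact h2
      · rintro _ ⟨l, hl, rfl⟩ m
        change sigY f j k (C (MvPolynomial.C (C (f l)))) • m = 0
        rw [sigY_C]
        exact hM l hl m
  have h0 : φ = 0 := by
    refine G0.hom_ext fun M => ?_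
    exact key r 0 (by omega) M fun l hl => absurd hl (by omega)
  rw [h0]
  rfl

end

end Pool.Agent.GZero
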