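import Pool.Agent.GZero.GenF

/-!
# The group `G_0(P[z][y] / (∑ y_l f_l + z - z^2))`: the modules killed by the `f_l`
-/

universe u v w

set_option linter.style.haveILetI false
set_option linter.unusedSectionVars false

namespace Pool.Agent.GZero

open LinearMap (ker range)
open TensorProduct Polynomial

variable {P : Type u} [CommRing P] {r : ℕ} (f : Fin r → P)

theorem SmR.hom_ext {B : Type v} [CommRing B] {φ ψ : SmR f →+* B}
    (hb : ∀ a, φ (SmR.b f a) = ψ (SmR.b f a)) (hz : φ (SmR.z f) = ψ (SmR.z f))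
    (hy : ∀ l, φ (SmR.y f l) = ψ (SmR.y f l)) : φ = ψ := by
  apply HR.hom_ext
  · apply Polynomial.ringHom_ext
    · exact hb
    · exact hz
  · exact hy

/-- The surjection onto `(P/(f))[y]` with `z ↦ 0`. -/
noncomputable def tau0 : SmR f →+* MvPolynomial (Fin r) (Base f) :=
  SmR.lift f (MvPolynomial.C.comp (Ideal.Quotient.mk _)) 0 (fun l => MvPolynomial.X l) (by
    rw [zero_pow two_ne_zero, sub_self, add_zero]
    refine Finset.sum_eq_zero fun l _ => ?_
    rw [RingHom.comp_apply, mk_f, map_zero, mul_zero])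

theorem tau0_z : tau0 f (SmR.z f) = 0 := SmR.lift_z _ _ _ _ _
theorem tau0_b (a : P) : tau0 f (SmR.b f a) = MvPolynomial.C (Ideal.Quotient.mk _ a) :=
  SmR.lift_b _ _ _ _ _ _
theorem tau0_y (l : Fin r) : tau0 f (SmR.y f l) = MvPolynomial.X l := SmR.lift_y _ _ _ _ _ _

theorem tau0_surjective : Function.Surjective (tau0 f) := by
  intro v
  induction v using MvPolynomial.induction_on with
  | C a =>
    obtain ⟨p, rfl⟩ := Ideal.Quotient.mk_surjective a
    exact ⟨_, tau0_b f p⟩
  | add p q hp hq =>
    obtain ⟨a, ha⟩ := hp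
    obtain ⟨b, hb⟩ := hq
    exact ⟨a + b, by rw [map_add, ha, hb]⟩
  | mul_X p i hp =>
    obtain ⟨a, ha⟩ := hp
    exact ⟨a * SmR.y f i, by rw [map_mul, ha, tau0_y]⟩

theorem killed_of (τ : SmR f →+* MvPolynomial (Fin r) (Base f))
    (hb : ∀ a, τ (SmR.b f a) = MvPolynomial.C (Ideal.Quotient.mk _ a))
    (hy : ∀ l, τ (SmR.y f l) = MvPolynomial.X l) (ζ : ℤ) (hz : τ (SmR.z f) = ζ)
    (M : Type u) [AddCommGroup M] [Module (SmR f) M]
    (hMf : ∀ l, ∀ m : M, SmR.b f (f l) • m = 0) (hMz : ∀ m : M, SmR.z f • m = (ζ : SmR f) • m) :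
    Killed τ M := by
  let J : Ideal (SmR f) := Module.annihilator (SmR f) M
  let π : SmR f →+* (SmR f ⧸ J) := Ideal.Quotient.mk J
  have hzero : ∀ t, (∀ m : M, t • m = 0) → π t = 0 := fun t ht =>
    Ideal.Quotient.eq_zero_iff_mem.2 (Module.mem_annihilator.2 ht)
  let g : Base f →+* (SmR f ⧸ J) :=
    Ideal.Quotient.lift _ (π.comp (SmR.b f)) (by
      intro a ha
      have h4 : Ideal.span (Set.range f) ≤ RingHom.ker (π.comp (SmR.b f)) := by
        rw [Ideal.span_le]
        rintro _ ⟨l, rfl⟩
        exact hzero _ (hMf l)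
      exact h4 ha)
  let θ : MvPolynomial (Fin r) (Base f) →+* (SmR f ⧸ J) :=
    MvPolynomial.eval₂Hom g (fun l => π (SmR.y f l))
  have h5 : θ.comp τ = π := by
    refine SmR.hom_ext f (B := SmR f ⧸ J) (φ := θ.comp τ) (ψ := π) ?_ ?_ ?_
    · intro a
      rw [RingHom.comp_apply, hb]
      exact MvPolynomial.eval₂_C _ _ _
    · rw [RingHom.comp_apply, hz, map_intCast]
      have h6 : π (SmR.z f - (ζ : SmR f)) = 0 := hzero _ fun m => by
        rw [sub_smul, hMz, sub_self]
      rw [map_sub, map_intCast, sub_eq_zero] at h6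
      exact h6.symm
    · intro l
      rw [RingHom.comp_apply, hy]
      exact MvPolynomial.eval₂_X _ _ _
  intro v hv m
  have h6 : π v = 0 := by
    rw [← h5, RingHom.comp_apply, hv, map_zero]
  exact Module.mem_annihilator.1 (Ideal.Quotient.eq_zero_iff_mem.1 h6) m

/-- The same group with another module structure. -/
def Tw {B S : Type u} [CommRing B] [CommRing S] (_σ : B →+* S) (M : Type u) : Type u := M

instance {B S : Type u} [CommRing B] [CommRing S] (σ : B →+* S) (M : Type u) [AddCommGroup M] :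
    AddCommGroup (Tw σ M) := inferInstanceAs (AddCommGroup M)

noncomputable instance {B S : Type u} [CommRing B] [CommRing S] (σ : B →+* S) (M : Type u)
    [AddCommGroup M] [Module S M] : Module B (Tw σ M) := Module.compHom M σ

theorem Tw_smul {B S : Type u} [CommRing B] [CommRing S] (σ : B →+* S) (M : Type u)
    [AddCommGroup M] [Module S M] (b : B) (m : Tw σ M) : b • m = (σ b • (show M from m) : M) := rfl

theorem exists_div {S Y : Type u} [CommRing S] [AddCommGroup Y] [Module S Y] (ζ : S)
    (p : PolynomialModule S Y) : ∃ q : PolynomialModule S Y,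
      p = PolynomialModule.single S 0 (PolynomialModule.eval ζ p) + (X - C ζ : S[X]) • q := by
  induction p using PolynomialModule.induction_linear with
  | zero => exact ⟨0, by rw [map_zero, PolynomialModule.single_zero, smul_zero, add_zero]⟩
  | add p q hp hq =>
    obtain ⟨a, ha⟩ := hp
    obtain ⟨b, hb⟩ := hq
    refine ⟨a + b, ?_⟩
    rw [map_add, PolynomialModule.single_add, smul_add]
    nth_rewrite 1 [ha, hb]
    abel
  | single n m =>
    obtain ⟨w, hw⟩ := sub_dvd_pow_sub_pow (X : S[X]) (C ζ) n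
    refine ⟨w • PolynomialModule.single S 0 m, ?_⟩
    have h1 : (X ^ n : S[X]) • PolynomialModule.single S 0 m = PolynomialModule.single S n m := by
      rw [← Polynomial.monomial_one_right_eq_X_pow, PolynomialModule.monomial_smul_single, add_zero,
        one_smul]
    have h2 : (X ^ n : S[X]) = C (ζ ^ n) + (X - C ζ) * w := by
      rw [← hw, C_pow]
      ring
    rw [smul_smul, PolynomialModule.eval_single, ← C_smul_single, ← add_smul, ← h2, h1]

section twist

variable (Y : Type u) [AddCommGroup Y] [Module (MvPolynomial (Fin r) (Base f)) Y]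

/-- The ring homomorphism on the coefficients. -/
noncomputable def rhoH : MvPolynomial (Fin r) P →+* MvPolynomial (Fin r) (Base f) :=
  MvPolynomial.map (Ideal.Quotient.mk _)

theorem rhoH_surjective : Function.Surjective (rhoH f) :=
  MvPolynomial.map_surjective _ Ideal.Quotient.mk_surjective

theorem rhoH_pairing : rhoH f (pairing f) = 0 := by
  unfold rhoH pairing
  rw [map_sum]
  refine Finset.sum_eq_zero fun l _ => ?_
  rw [map_mul, MvPolynomial.map_C, mk_f, map_zero, mul_zero]

variable {k : Type u} [CommRing k] [Algebra k P]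

theorem sigZ_X : sigZ f k X = SmR.z f := by
  change Ideal.Quotient.mk _ (eZ P r X) = _
  rw [eZ_X]
  rfl

theorem sigZ_C (p : P) : sigZ f k (C (MvPolynomial.C p)) = SmR.b f p := by
  change Ideal.Quotient.mk _ (eZ P r (C (MvPolynomial.C p))) = _
  rw [eZ_C]
  rfl

theorem sigZ_y (l : Fin r) : sigZ f k (C (MvPolynomial.X l)) = SmR.y f l := by
  change Ideal.Quotient.mk _ (eZ P r (C (MvPolynomial.X l))) = _
  rw [eZ_y]
  rfl

theorem tau_sigZ (τ : SmR f →+* MvPolynomial (Fin r) (Base f))
    (hb : ∀ a, τ (SmR.b f a) = MvPolynomial.C (Ideal.Quotient.mk _ a))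
    (hy : ∀ l, τ (SmR.y f l) = MvPolynomial.X l) (ζ : ℤ) (hz : τ (SmR.z f) = ζ)
    (p : (MvPolynomial (Fin r) P)[X]) :
    τ (sigZ f k p) = rhoH f (p.eval (ζ : MvPolynomial (Fin r) P)) := by
  have h : τ.comp (sigZ f k : (MvPolynomial (Fin r) P)[X] →+* SmR f) =
      (rhoH f).comp (Polynomial.evalRingHom (ζ : MvPolynomial (Fin r) P)) := by
    apply Polynomial.ringHom_ext'
    · apply MvPolynomial.ringHom_ext
      · intro a
        simp only [RingHom.comp_apply, Polynomial.coe_evalRingHom, Polynomial.eval_C]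
        rw [show (sigZ f k : (MvPolynomial (Fin r) P)[X] →+* SmR f) (C (MvPolynomial.C a)) =
          SmR.b f a from sigZ_C f a, hb]
        exact (MvPolynomial.map_C _ _).symm
      · intro l
        simp only [RingHom.comp_apply, Polynomial.coe_evalRingHom, Polynomial.eval_C]
        rw [show (sigZ f k : (MvPolynomial (Fin r) P)[X] →+* SmR f) (C (MvPolynomial.X l)) =
          SmR.y f l from sigZ_y f l, hy]
        exact (MvPolynomial.map_X _ _).symm
    · simp only [RingHom.comp_apply, Polynomial.coe_evalRingHom, Polynomial.eval_X]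
      rw [show (sigZ f k : (MvPolynomial (Fin r) P)[X] →+* SmR f) X = SmR.z f from sigZ_X f, hz,
        map_intCast]
  exact RingHom.congr_fun h p

end twist

end Pool.Agent.GZero
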