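import Pool.Agent.GZero.GenG

/-!
# The group `G_0(P[z][y] / (∑ y_l f_l + z - z^2))` is generated by two subgroups
-/

universe u v w

set_option linter.style.haveILetI false
set_option linter.unusedSectionVars false

namespace Pool.Agent.GZero

open LinearMap (ker range)
open TensorProduct Polynomial

variable {k : Type u} [CommRing k] {P : Type u} [CommRing P] [Algebra k P] {r : ℕ} (f : Fin r → P)

section ev

variable (Y : Type u) [AddCommGroup Y] [Module (MvPolynomial (Fin r) (Base f)) Y]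

/-- The evaluation at `ζ`. -/
noncomputable def evE (k : Type u) [CommRing k] [Algebra k P]
    (τ : SmR f →+* MvPolynomial (Fin r) (Base f))
    (hb : ∀ a, τ (SmR.b f a) = MvPolynomial.C (Ideal.Quotient.mk _ a))
    (hy : ∀ l, τ (SmR.y f l) = MvPolynomial.X l) (ζ : ℤ) (hz : τ (SmR.z f) = ζ) :
    PolynomialModule (MvPolynomial (Fin r) P) (Tw (rhoH f) Y) →ₗ[(MvPolynomial (Fin r) P)[X]]
      Tw (τ.comp (sigZ f k : (MvPolynomial (Fin r) P)[X] →+* SmR f)) Y where
  toFun p := (PolynomialModule.eval (ζ : MvPolynomial (Fin r) P) p : Tw (rhoH f) Y)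
  map_add' p q := map_add (PolynomialModule.eval (ζ : MvPolynomial (Fin r) P)) p q
  map_smul' b p := by
    have h := PolynomialModule.eval_smul (M := Tw (rhoH f) Y) b p
      (ζ : MvPolynomial (Fin r) P)
    let y : Y := PolynomialModule.eval (M := Tw (rhoH f) Y) (ζ : MvPolynomial (Fin r) P) p
    exact h.trans (congrArg (· • y) (tau_sigZ (k := k) f τ hb hy ζ hz b).symm)

theorem FZ_smul (p : PolynomialModule (MvPolynomial (Fin r) P) (Tw (rhoH f) Y)) :
    FZ f • p = (X - X ^ 2 : (MvPolynomial (Fin r) P)[X]) • p := by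
  have h : (C (pairing f) : (MvPolynomial (Fin r) P)[X]) • p = 0 := by
    apply PolynomialModule.ext
    ext i
    rw [C_smul_coeff]
    let y : Y := p.coeff i
    have h1 : rhoH f (pairing f) • y = 0 := by rw [rhoH_pairing, zero_smul]
    exact h1
  unfold FZ
  rw [add_smul, h, zero_add]

theorem XX_regular {S W : Type u} [CommRing S] [AddCommGroup W] [Module S W]
    (p : PolynomialModule S W) (h : (X - X ^ 2 : S[X]) • p = 0) : p = 0 := by
  have h1 : (X : S[X]) • (p - (X : S[X]) • p) = 0 := by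
    rw [smul_sub, smul_smul, ← pow_two, ← sub_smul]
    exact h
  have h2 : ∀ q : PolynomialModule S W, (X : S[X]) • q = 0 → q = 0 := by
    intro q hq
    apply PolynomialModule.ext
    ext i
    have h3 := X_smul_coeff_succ q i
    rw [hq] at h3
    exact h3.symm
  have h4 := h2 _ h1
  rw [sub_eq_zero] at h4
  apply PolynomialModule.ext
  ext i
  change p.coeff i = 0
  induction i with
  | zero => rw [h4, X_smul_coeff_zero]
  | succ i ih => rw [h4, X_smul_coeff_succ, ih]

theorem XX_div {S W : Type u} [CommRing S] [AddCommGroup W] [Module S W]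
    (p : PolynomialModule S W) (h0 : PolynomialModule.eval ((0 : ℤ) : S) p = 0)
    (h1 : PolynomialModule.eval ((1 : ℤ) : S) p = 0) :
    ∃ q : PolynomialModule S W, (X - X ^ 2 : S[X]) • q = p := by
  obtain ⟨q, hq⟩ := exists_div ((0 : ℤ) : S) p
  rw [h0, PolynomialModule.single_zero, zero_add] at hq
  have h2 : PolynomialModule.eval ((1 : ℤ) : S) q = 0 := by
    rw [hq, PolynomialModule.eval_smul] at h1
    simpa using h1
  obtain ⟨s, hs⟩ := exists_div ((1 : ℤ) : S) q
  rw [h2, PolynomialModule.single_zero, zero_add] at hs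
  refine ⟨-s, ?_⟩
  rw [hq, hs, smul_smul, smul_neg, ← neg_smul]
  congr 1
  rw [Int.cast_zero, Int.cast_one, map_zero, map_one]
  ring

theorem ev_surj {S W : Type u} [CommRing S] [AddCommGroup W] [Module S W] (u v : W) :
    ∃ p : PolynomialModule S W, PolynomialModule.eval ((0 : ℤ) : S) p = u ∧
      PolynomialModule.eval ((1 : ℤ) : S) p = v := by
  refine ⟨PolynomialModule.single S 0 u + PolynomialModule.single S 1 (v - u), ?_, ?_⟩
  · rw [map_add, PolynomialModule.eval_single, PolynomialModule.eval_single]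
    simp
  · rw [map_add, PolynomialModule.eval_single, PolynomialModule.eval_single]
    simp

end ev

section sum

variable [IsNoetherianRing P] (Y : Type u) [AddCommGroup Y]
  [Module (MvPolynomial (Fin r) (Base f)) Y] [Module.Finite (MvPolynomial (Fin r) (Base f)) Y]

instance finTw : Module.Finite (MvPolynomial (Fin r) P) (Tw (rhoH f) Y) :=
  finite_compHom (rhoH f) (rhoH_surjective f) Y

theorem clV_Tw (τ : SmR f →+* MvPolynomial (Fin r) (Base f)) (hτ : Function.Surjective τ) :
    clV (sigZ f k : (MvPolynomial (Fin r) P)[X] →+* SmR f)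
      (Tw (τ.comp (sigZ f k : (MvPolynomial (Fin r) P)[X] →+* SmR f)) Y) =
      G0.res τ hτ (G0.cls _ Y) := by
  rw [G0.cls, G0.res_mk]
  letI := Module.compHom Y τ
  haveI := finite_compHom τ hτ Y
  exact clV_restrict (sigZ f k : (MvPolynomial (Fin r) P)[X] →+* SmR f) (cutZ (k := k) f).surj Y
    (Tw (τ.comp (sigZ f k : (MvPolynomial (Fin r) P)[X] →+* SmR f)) Y) (AddEquiv.refl _)
    (fun b n => rfl)

theorem dltZ : (cutZ (k := k) f).dlt
      (G0.cls _ (PolynomialModule (MvPolynomial (Fin r) P) (Tw (rhoH f) Y))) =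
    G0.res (tau0 f) (tau0_surjective f) (G0.cls _ Y) +
      G0.res (tauH f) (tauH_surjective f) (G0.cls _ Y) := by
  have z0 : tau0 f (SmR.z f) = ((0 : ℤ) : MvPolynomial (Fin r) (Base f)) := by
    rw [tau0_z, Int.cast_zero]
  have z1 : tauH f (SmR.z f) = ((1 : ℤ) : MvPolynomial (Fin r) (Base f)) := by
    rw [tauH_z, Int.cast_one]
  let c0 := evE f Y k (tau0 f) (tau0_b f) (tau0_y f) 0 z0
  let c1 := evE f Y k (tauH f) (tauH_b f) (tauH_y f) 1 z1
  let c := c0.prod c1
  have hc : Function.Surjective c := by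
    rintro ⟨u, v⟩
    obtain ⟨p, hp0, hp1⟩ := ev_surj (S := MvPolynomial (Fin r) P) (W := Tw (rhoH f) Y) u v
    exact ⟨p, Prod.ext hp0 hp1⟩
  have hker : ∀ p, c p = 0 ↔ ∃ q, FZ f • q = p := by
    intro p
    constructor
    · intro hp
      obtain ⟨q, hq⟩ := XX_div p (congrArg Prod.fst hp) (congrArg Prod.snd hp)
      exact ⟨q, (FZ_smul f Y q).trans hq⟩
    · rintro ⟨q, rfl⟩
      rw [FZ_smul]
      have e0 : c0 ((X - X ^ 2 : (MvPolynomial (Fin r) P)[X]) • q) = 0 := by
        have h := PolynomialModule.eval_smul (M := Tw (rhoH f) Y) (X - X ^ 2) q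
          ((0 : ℤ) : MvPolynomial (Fin r) P)
        refine Eq.trans h ?_
        simp
        rfl
      have e1 : c1 ((X - X ^ 2 : (MvPolynomial (Fin r) P)[X]) • q) = 0 := by
        have h := PolynomialModule.eval_smul (M := Tw (rhoH f) Y) (X - X ^ 2) q
          ((1 : ℤ) : MvPolynomial (Fin r) P)
        refine Eq.trans h ?_
        simp
        rfl
      exact Prod.ext e0 e1
  have hinj : ∀ p : PolynomialModule (MvPolynomial (Fin r) P) (Tw (rhoH f) Y),
      FZ f • p = 0 → p = 0 := fun p hp => XX_regular p ((FZ_smul f Y p).symm.trans hp)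
  rw [(cutZ (k := k) f).dlt_of_injective _ hinj c hc hker]
  have hgood : Good (sigZ f k : (MvPolynomial (Fin r) P)[X] →+* SmR f)
      (Tw ((tau0 f).comp (sigZ f k : (MvPolynomial (Fin r) P)[X] →+* SmR f)) Y ×
        Tw ((tauH f).comp (sigZ f k : (MvPolynomial (Fin r) P)[X] →+* SmR f)) Y) := by
    refine ⟨(cutZ (k := k) f).surj, Module.Finite.of_surjective c hc,
      (cutZ (k := k) f).killed _ fun n => ?_⟩
    obtain ⟨p, rfl⟩ := hc n
    rw [← map_smul]
    exact (hker _).2 ⟨p, rfl⟩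
  rw [clV_exact _ hgood (LinearMap.inl _ _ _) (LinearMap.snd _ _ _) LinearMap.inl_injective
    LinearMap.snd_surjective (LinearMap.range_inl _ _ _), clV_Tw f Y (tau0 f) (tau0_surjective f),
    clV_Tw f Y (tauH f) (tauH_surjective f)]

end sum

section gen

variable [IsNoetherianRing P] [Module.Flat k P] (hP : Function.Surjective (G0.bc k P))
  [Module.Flat k (SmR f)] {Γ : Type v} [AddCommGroup Γ] (φ : G0 (SmR f) →+ Γ)
  (hφ : ∀ y, φ (G0.bc k (SmR f) y) = 0) (hφ1 : ∀ y, φ (inclS f y) = 0)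

include hφ1 in
theorem phi_tauH (y : G0 (MvPolynomial (Fin r) (Base f))) :
    φ (G0.res (tauH f) (tauH_surjective f) y) = 0 := by
  obtain ⟨x, rfl⟩ := G0.bc_mvPolynomial (Base f) (Fin r) y
  exact hφ1 x

include hP hφ hφ1 in
theorem phi_tau0 (y : G0 (MvPolynomial (Fin r) (Base f))) :
    φ (G0.res (tau0 f) (tau0_surjective f) y) = 0 := by
  have key : φ.comp (G0.res (tau0 f) (tau0_surjective f)) = 0 := by
    refine G0.hom_ext fun Y => ?_
    rw [AddMonoidHom.comp_apply, AddMonoidHom.zero_apply]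
    have h1 := congrArg φ (dltZ (k := k) f Y.carrier)
    rw [phiZ f hP φ hφ, map_add] at h1
    have h2 := phi_tauH f φ hφ1 (G0.cls _ Y.carrier)
    rw [h2, add_zero] at h1
    exact h1.symm
  exact DFunLike.congr_fun key y

include hP hφ hφ1 in
/-- A homomorphism which vanishes on the images of `G_0(k)` and of `G_0(P/(f))` is zero. -/
theorem gen_all (x : G0 (SmR f)) : φ x = 0 := by
  refine gen_main f hP φ hφ (fun M hM => ?_) x
  have hz : ∀ m : M.carrier, SmR.z f • m = SmR.z f • SmR.z f • m := by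
    intro m
    have h1 : (∑ l : Fin r, SmR.y f l * SmR.b f (f l) + (SmR.z f - SmR.z f ^ 2)) • m = 0 := by
      rw [SmR.rel]
      exact zero_smul (SmR f) m
    have h2 : (∑ l : Fin r, SmR.y f l * SmR.b f (f l)) • m = 0 := by
      rw [Finset.sum_smul]
      exact Finset.sum_eq_zero fun l _ => by rw [mul_smul, hM, smul_zero]
    rw [add_smul, h2, zero_add, sub_smul, pow_two, mul_smul, sub_eq_zero] at h1
    exact h1
  haveI : IsNoetherian (SmR f) M.carrier := isNoetherian_of_isNoetherianRing_of_finite _ _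
  let M1 : Submodule (SmR f) M.carrier := ker (mulF (1 - SmR.z f) M.carrier)
  have hM1 : ∀ m : M1, SmR.z f • m = ((1 : ℤ) : SmR f) • m := by
    rintro ⟨m, hm⟩
    apply Subtype.ext
    have h1 : (1 - SmR.z f) • m = 0 := hm
    rw [sub_smul, one_smul, sub_eq_zero] at h1
    change SmR.z f • m = ((1 : ℤ) : SmR f) • m
    rw [Int.cast_one, one_smul]
    exact h1.symm
  have hM0 : ∀ m : M.carrier ⧸ M1, SmR.z f • m = ((0 : ℤ) : SmR f) • m := by
    intro m
    obtain ⟨m, rfl⟩ := Submodule.mkQ_surjective _ m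
    rw [Int.cast_zero]
    refine Eq.trans ?_ (zero_smul (SmR f) (M1.mkQ m)).symm
    rw [← map_smul, Submodule.mkQ_apply, Submodule.Quotient.mk_eq_zero]
    change (1 - SmR.z f) • SmR.z f • m = 0
    rw [sub_smul, one_smul, ← hz, sub_self]
  have h1 := G0.cls_exact (R := SmR f) M1.subtype M1.mkQ M1.injective_subtype M1.mkQ_surjective
    (by rw [Submodule.range_subtype, Submodule.ker_mkQ])
  have k1 : Killed (tauH f) M1 := killed_of f (tauH f) (tauH_b f) (tauH_y f) 1
    (by rw [tauH_z, Int.cast_one]) M1 (fun l m => Subtype.ext (hM l m.1)) hM1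
  have k0 : Killed (tau0 f) (M.carrier ⧸ M1) := killed_of f (tau0 f) (tau0_b f) (tau0_y f) 0
    (by rw [tau0_z, Int.cast_zero]) (M.carrier ⧸ M1) (fun l m => by
      obtain ⟨m, rfl⟩ := Submodule.mkQ_surjective _ m
      rw [← map_smul, hM, map_zero]) hM0
  have h2 : φ (G0.mk ⟨M1⟩) = 0 := by
    rw [← G0.res_clV (tauH f) (tauH_surjective f) ⟨M1⟩ k1]
    exact phi_tauH f φ hφ1 _
  have h3 : φ (G0.mk ⟨M.carrier ⧸ M1⟩) = 0 := by
    rw [← G0.res_clV (tau0 f) (tau0_surjective f) ⟨M.carrier ⧸ M1⟩ k0]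
    exact phi_tau0 f hP φ hφ hφ1 _
  have h4 : φ (G0.mk M) = φ (G0.mk ⟨M1⟩) + φ (G0.mk ⟨M.carrier ⧸ M1⟩) := by
    rw [← map_add]
    exact congrArg φ h1
  rw [h4, h2, h3, add_zero]

end gen

end Pool.Agent.GZero
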