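import Pool.Agent.GZero.GenH

/-!
# The kernel of the retraction `G_0(P[z][y] / (∑ y_l f_l + z - z^2)) → G_0(P/(f))`
-/

universe u v w

set_option linter.style.haveILetI false
set_option linter.unusedSectionVars false

namespace Pool.Agent.GZero

open LinearMap (ker range)
open TensorProduct Polynomial

variable {k : Type u} [CommRing k] {P : Type u} [CommRing P] [Algebra k P] {r : ℕ} (f : Fin r → P)

/-- The involution `z ↦ 1 - z`. -/
noncomputable def SmR.inv : SmR f →+* SmR f :=
  SmR.lift f (SmR.b f) (1 - SmR.z f) (SmR.y f) (by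
    have h := SmR.rel f
    linear_combination h)

theorem SmR.inv_z : SmR.inv f (SmR.z f) = 1 - SmR.z f := SmR.lift_z _ _ _ _ _
theorem SmR.inv_b (a : P) : SmR.inv f (SmR.b f a) = SmR.b f a := SmR.lift_b _ _ _ _ _ _
theorem SmR.inv_y (l : Fin r) : SmR.inv f (SmR.y f l) = SmR.y f l := SmR.lift_y _ _ _ _ _ _

theorem SmR.inv_inv (x : SmR f) : SmR.inv f (SmR.inv f x) = x := by
  have h : (SmR.inv f).comp (SmR.inv f) = RingHom.id _ := by
    refine SmR.hom_ext f ?_ ?_ ?_
    · intro a
      rw [RingHom.comp_apply, SmR.inv_b, SmR.inv_b]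
      rfl
    · rw [RingHom.comp_apply, SmR.inv_z, map_sub, map_one, SmR.inv_z]
      change _ = SmR.z f
      ring
    · intro l
      rw [RingHom.comp_apply, SmR.inv_y, SmR.inv_y]
      rfl
  exact RingHom.congr_fun h x

theorem SmR.algebraMap_eq (c : k) : algebraMap k (SmR f) c = SmR.b f (algebraMap k P c) := rfl

/-- The involution as a homomorphism of algebras. -/
noncomputable def SmR.invA (k : Type u) [CommRing k] [Algebra k P] : SmR f →ₐ[k] SmR f :=
  { SmR.inv f with
    commutes' := fun c => SmR.inv_b f (algebraMap k P c) }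

theorem jH_inv (b : SusR f) : jH f (SusR.inv f b) = (jH f b).map (SmR.inv f) := by
  have h : (jH f).comp (SusR.inv f) = (Polynomial.mapRingHom (SmR.inv f)).comp (jH f) := by
    refine SusR.hom_ext f (B := (SmR f)[X]) (φ := (jH f).comp (SusR.inv f))
      (ψ := (Polynomial.mapRingHom (SmR.inv f)).comp (jH f)) ?_ ?_ ?_ ?_
    · intro a
      rw [RingHom.comp_apply, RingHom.comp_apply, SusR.inv_b, jH_b, Polynomial.coe_mapRingHom,
        Polynomial.map_C, SmR.inv_b]
    · rw [RingHom.comp_apply, RingHom.comp_apply, SusR.inv_z, map_sub, map_one, jH_z,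
        Polynomial.coe_mapRingHom, Polynomial.map_C, SmR.inv_z, C_sub, C_1]
    · rw [RingHom.comp_apply, RingHom.comp_apply, SusR.inv_s, jH_s, Polynomial.coe_mapRingHom,
        Polynomial.map_X]
    · intro l
      rw [RingHom.comp_apply, RingHom.comp_apply, SusR.inv_y, jH_y, Polynomial.coe_mapRingHom,
        Polynomial.map_mul, Polynomial.map_C, Polynomial.map_X, SmR.inv_y]
  exact RingHom.congr_fun h b

section iota

variable {M : Type u} [AddCommGroup M] [Module (SmR f) M] (g : M →+ M)

/-- The map of `M[X]` defined by an additive map. -/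
noncomputable def mapA : PolynomialModule (SmR f) M →+ PolynomialModule (SmR f) M :=
  ((PolynomialModule.coeffAddEquiv (R := SmR f) (M := M)).symm.toAddMonoidHom.comp
    (Finsupp.mapRange.addMonoidHom g)).comp
      (PolynomialModule.coeffAddEquiv (R := SmR f) (M := M)).toAddMonoidHom

theorem mapA_single (n : ℕ) (m : M) : mapA f g (PolynomialModule.single (SmR f) n m) =
    PolynomialModule.single (SmR f) n (g m) := by
  apply PolynomialModule.ext
  change Finsupp.mapRange g (map_zero g) (Finsupp.single n m) = Finsupp.single n (g m)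
  rw [Finsupp.mapRange_single]

theorem mapA_mapA (hg : ∀ m, g (g m) = m) (p : PolynomialModule (SmR f) M) :
    mapA f g (mapA f g p) = p := by
  induction p using PolynomialModule.induction_linear with
  | zero => rw [map_zero, map_zero]
  | add p q hp hq => rw [map_add, map_add, hp, hq]
  | single n m => rw [mapA_single, mapA_single, hg]

theorem mapA_smul (hg : ∀ (v : SmR f) (m : M), g (v • m) = SmR.inv f v • g m) (v : (SmR f)[X])
    (p : PolynomialModule (SmR f) M) :
    mapA f g (v • p) = v.map (SmR.inv f) • mapA f g p := by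
  induction p using PolynomialModule.induction_linear with
  | zero => rw [smul_zero, map_zero, smul_zero]
  | add p q hp hq => rw [smul_add, map_add, hp, hq, map_add, smul_add]
  | single n m =>
    induction v using Polynomial.induction_on' with
    | add p q hp hq => rw [add_smul, map_add, hp, hq, Polynomial.map_add, add_smul]
    | monomial i a =>
      rw [PolynomialModule.monomial_smul_single, mapA_single, mapA_single, Polynomial.map_monomial,
        PolynomialModule.monomial_smul_single, hg]

end iota

variable [IsNoetherianRing P]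

/-- `Φ` vanishes on the modules with a symmetry. -/
theorem Phi_symm (H : FMod (SusR f)) (e : H.carrier ≃+ H.carrier)
    (he : ∀ (b : SusR f) (m : H.carrier), e (b • m) = SusR.inv f b • e m) :
    SusR.Phi f (G0.mk H) = 0 := by
  rw [SusR.Phi_apply, G0.res_eq_of_equiv (SusR.inv f) (RingHom.id _) (SusR.inv_surjective f)
    Function.surjective_id H e (fun b m => by
      rw [he, SusR.inv_inv]
      rfl), G0.res_mk]
  have h : (letI := Module.compHom H.carrier (RingHom.id (SusR f))
      haveI := finite_compHom (RingHom.id (SusR f)) Function.surjective_id H.carrier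
      G0.cls (SusR f) H.carrier) = G0.mk H :=
    G0.cls_of_eq H _ (Module.ext' _ _ fun b m => rfl) _
  rw [h, sub_self]

/-- The retraction vanishes on the modules which come from `k`. -/
theorem smT_bc [Module.Flat k (SmR f)] (y : G0 k) : smT f (G0.bc k (SmR f) y) = 0 := by
  have key : (smT f).comp (G0.bc k (SmR f)) = 0 := by
    refine G0.hom_ext fun Q => ?_
    rw [AddMonoidHom.comp_apply, AddMonoidHom.zero_apply, G0.bc_mk, G0.cls, smT_mk]
    letI iW := wMod f (SmR f ⊗[k] Q.carrier)
    let g : SmR f ⊗[k] Q.carrier →+ SmR f ⊗[k] Q.carrier :=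
      (LinearMap.rTensor Q.carrier (SmR.invA f k).toLinearMap).toAddMonoidHom
    have hgt : ∀ (v : SmR f) (q : Q.carrier), g (v ⊗ₜ q) = SmR.inv f v ⊗ₜ q := fun v q =>
      LinearMap.rTensor_tmul _ _ _ _
    have hg : ∀ (v : SmR f) (m : SmR f ⊗[k] Q.carrier), g (v • m) = SmR.inv f v • g m := by
      intro v m
      induction m using TensorProduct.induction_on with
      | zero => rw [smul_zero, map_zero, smul_zero]
      | add x y hx hy => rw [smul_add, map_add, hx, hy, map_add, smul_add]
      | tmul w q =>
        rw [TensorProduct.smul_tmul', hgt, hgt, TensorProduct.smul_tmul', smul_eq_mul, smul_eq_mul,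
          map_mul]
    have hgg : ∀ m, g (g m) = m := by
      intro m
      induction m using TensorProduct.induction_on with
      | zero => rw [map_zero, map_zero]
      | add x y hx hy => rw [map_add, map_add, hx, hy]
      | tmul w q => rw [hgt, hgt, SmR.inv_inv]
    let ι : PolynomialModule (SmR f) (SmR f ⊗[k] Q.carrier) →+
        PolynomialModule (SmR f) (SmR f ⊗[k] Q.carrier) := mapA f g
    have hι : ∀ (b : SusR f) (m : PolynomialModule (SmR f) (SmR f ⊗[k] Q.carrier)),
        ι (b • m) = SusR.inv f b • ι m := by
      intro b m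
      change mapA f g (jH f b • m) = jH f (SusR.inv f b) • mapA f g m
      rw [mapA_smul f g hg, jH_inv]
    obtain ⟨t, ht⟩ := Q.fin.fg_top
    classical
    let T : Finset (PolynomialModule (SmR f) (SmR f ⊗[k] Q.carrier)) :=
      t.image fun q => PolynomialModule.single (SmR f) 0 ((1 : SmR f) ⊗ₜ[k] q)
    let H : Submodule (SusR f) (PolynomialModule (SmR f) (SmR f ⊗[k] Q.carrier)) :=
      Submodule.span (SusR f) (T : Set _)
    have hlat : IsLat (SusR.s f) (PolynomialModule (SmR f) (SmR f ⊗[k] Q.carrier)) H := by
      refine ⟨⟨T, rfl⟩, cofinal f (SmR f ⊗[k] Q.carrier)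
        ((fun q => (1 : SmR f) ⊗ₜ[k] q) '' (t : Set Q.carrier)) ?_ H ?_⟩
      · rw [eq_top_iff]
        intro x _
        induction x using TensorProduct.induction_on with
        | zero => exact Submodule.zero_mem _
        | add x y hx hy => exact Submodule.add_mem _ (hx trivial) (hy trivial)
        | tmul v q =>
          have hq : q ∈ Submodule.span k (t : Set Q.carrier) := by rw [ht]; trivial
          have h1 : ∀ q ∈ Submodule.span k (t : Set Q.carrier), (1 : SmR f) ⊗ₜ[k] q ∈
              Submodule.span (SmR f) ((fun q => (1 : SmR f) ⊗ₜ[k] q) '' (t : Set Q.carrier)) := by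
            intro q hq
            refine Submodule.span_induction (p := fun q _ => (1 : SmR f) ⊗ₜ[k] q ∈
              Submodule.span (SmR f) ((fun q => (1 : SmR f) ⊗ₜ[k] q) '' (t : Set Q.carrier)))
              ?_ ?_ ?_ ?_ hq
            · exact fun q hq => Submodule.subset_span ⟨q, hq, rfl⟩
            · rw [TensorProduct.tmul_zero]
              exact Submodule.zero_mem _
            · intro x y _ _ hx hy
              rw [TensorProduct.tmul_add]
              exact Submodule.add_mem _ hx hy
            · intro c x _ hx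
              have h2 : (1 : SmR f) ⊗ₜ[k] (c • x) =
                  (algebraMap k (SmR f) c) • ((1 : SmR f) ⊗ₜ[k] x) := by
                rw [TensorProduct.tmul_smul, algebraMap_smul]
              rw [h2]
              exact Submodule.smul_mem _ _ hx
          have h3 : (v ⊗ₜ[k] q : SmR f ⊗[k] Q.carrier) = v • ((1 : SmR f) ⊗ₜ[k] q) := by
            rw [TensorProduct.smul_tmul', smul_eq_mul, mul_one]
          rw [h3]
          exact Submodule.smul_mem _ _ (h1 q hq)
      · rintro _ ⟨q, hq, rfl⟩
        apply Submodule.subset_span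
        rw [Finset.coe_image]
        exact ⟨q, hq, rfl⟩
    have hH : ∀ h ∈ H, ι h ∈ H := by
      intro h hh
      refine Submodule.span_induction (p := fun h _ => ι h ∈ H) ?_ ?_ ?_ ?_ hh
      · intro h hh
        rw [Finset.coe_image] at hh
        obtain ⟨q, hq, rfl⟩ := hh
        have h1 : ι (PolynomialModule.single (SmR f) 0 ((1 : SmR f) ⊗ₜ[k] q)) =
            PolynomialModule.single (SmR f) 0 ((1 : SmR f) ⊗ₜ[k] q) := by
          change mapA f g _ = _
          rw [mapA_single, hgt, map_one]
        change ι (PolynomialModule.single (SmR f) 0 ((1 : SmR f) ⊗ₜ[k] q)) ∈ H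
        rw [h1]
        apply Submodule.subset_span
        rw [Finset.coe_image]
        exact ⟨q, hq, rfl⟩
      · rw [map_zero]
        exact Submodule.zero_mem _
      · intro x y _ _ hx hy
        rw [map_add]
        exact Submodule.add_mem _ hx hy
      · intro b x _ hx
        rw [hι]
        exact Submodule.smul_mem _ _ hx
    rw [(SusR.kills f).latV hlat]
    haveI : Module.Finite (SusR f) H := Module.Finite.iff_fg.2 hlat.1
    let e : H ≃+ H :=
      { toFun := fun h => ⟨ι h.1, hH _ h.2⟩
        invFun := fun h => ⟨ι h.1, hH _ h.2⟩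
        left_inv := fun h => Subtype.ext (mapA_mapA f g hgg h.1)
        right_inv := fun h => Subtype.ext (mapA_mapA f g hgg h.1)
        map_add' := fun x y => Subtype.ext (map_add ι x.1 y.1) }
    exact Phi_symm f ⟨H⟩ e fun b m => Subtype.ext (hι b m.1)
  exact DFunLike.congr_fun key y

/-- The kernel of the retraction consists of the classes which come from `k`. -/
theorem smT_ker [Module.Flat k P] (hP : Function.Surjective (G0.bc k P))
    [Module.Flat k (SmR f)] (x : G0 (SmR f)) (hx : smT f x = 0) :
    ∃ y, G0.bc k (SmR f) y = x := by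
  let N : AddSubgroup (G0 (SmR f)) := (G0.bc k (SmR f)).range ⊔ (inclS f).range
  have h := gen_all f hP (QuotientAddGroup.mk' N)
    (fun y => (QuotientAddGroup.eq_zero_iff _).2 ((le_sup_left : _ ≤ N) ⟨y, rfl⟩))
    (fun y => (QuotientAddGroup.eq_zero_iff _).2 ((le_sup_right : _ ≤ N) ⟨y, rfl⟩)) x
  obtain ⟨_, ⟨y, rfl⟩, _, ⟨w, rfl⟩, hyw⟩ := AddSubgroup.mem_sup.1
    ((QuotientAddGroup.eq_zero_iff _).1 h)
  have h1 : smT f x = w := by
    rw [← hyw, map_add, smT_bc, smT_inclS, zero_add]
  rw [hx] at h1
  rw [← h1, map_zero, add_zero] at hyw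
  exact ⟨y, hyw⟩

end Pool.Agent.GZero
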