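import Pool.Agent.GZero.GenI

/-!
# The group `G_0(k)` is a direct summand of `G_0(k[x, z, y] / (∑ y_l f_l + z - z^2))`
-/

universe u v w

set_option linter.style.haveILetI false
set_option linter.unusedSectionVars false

namespace Pool.Agent.GZero

open LinearMap (ker range)
open TensorProduct Polynomial

/-- `G_0(k) → G_0(B)` has a left inverse. -/
def Ret (k B : Type u) [CommRing k] [CommRing B] [Algebra k B] [Module.Flat k B] : Prop :=
  ∃ ρ : G0 B →+ G0 k, ∀ y, ρ (G0.bc k B y) = y

section ret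

variable (k : Type u) [CommRing k]

theorem Ret.self : Ret k k := by
  refine ⟨AddMonoidHom.id _, fun y => ?_⟩
  have key : G0.bc k k = AddMonoidHom.id _ := by
    refine G0.hom_ext fun Q => ?_
    rw [G0.bc_mk]
    exact G0.cls_congr (TensorProduct.lid k Q.carrier)
  rw [key]
  rfl

variable {k} {B A : Type u} [CommRing B] [CommRing A] [Algebra k B] [Algebra k A]
  [Module.Flat k B] [Module.Flat k A]

theorem Ret.cut [IsNoetherianRing B] (h : Ret k A) (σ : B →ₐ[k] A) (F : B)
    (hc : Cut (σ : B →+* A) F) (hF : ∀ b : B, F * b = 0 → b = 0) : Ret k B := by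
  obtain ⟨ρ, hρ⟩ := h
  exact ⟨ρ.comp hc.dlt, fun y => by
    rw [AddMonoidHom.comp_apply, dlt_bc σ F hc hF, hρ]⟩

theorem Ret.flat (h : Ret k A) [Algebra B A] [IsScalarTower k B A] [Module.Flat B A] :
    Ret k B := by
  obtain ⟨ρ, hρ⟩ := h
  exact ⟨ρ.comp (G0.bc B A), fun y => by
    rw [AddMonoidHom.comp_apply, G0.bc_comp, hρ]⟩

theorem Ret.equiv (h : Ret k A) (e : B ≃ₐ[k] A) : Ret k B := by
  letI : Algebra B A := (e : B →+* A).toAlgebra
  haveI : IsScalarTower k B A := IsScalarTower.of_algebraMap_eq fun r => (e.commutes r).symm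
  have hb : Function.Bijective (algebraMap B A) := e.bijective
  haveI : Module.Flat B A := Module.Flat.of_linearEquiv
    (LinearEquiv.ofBijective (Algebra.linearMap B A) hb).symm
  exact h.flat

theorem Ret.polynomial [IsNoetherianRing B] [Module.Flat k B[X]] (h : Ret k B) : Ret k B[X] := by
  let σ : B[X] →ₐ[k] B := (Polynomial.aeval (0 : B)).restrictScalars k
  have hσ : ∀ p, σ p = p.coeff 0 := fun p => by
    change Polynomial.aeval (0 : B) p = _
    rw [Polynomial.coeff_zero_eq_aeval_zero]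
  refine h.cut σ X ⟨fun b => ⟨C b, ?_⟩, ?_, ?_⟩ ?_
  · change σ (C b) = b
    rw [hσ, Polynomial.coeff_C_zero]
  · change σ X = 0
    rw [hσ, Polynomial.coeff_X_zero]
  · intro p hp
    have h1 : p.coeff 0 = 0 := by
      rw [← hσ]
      exact hp
    obtain ⟨q, rfl⟩ := Polynomial.X_dvd_iff.2 h1
    exact ⟨q, mul_comm _ _⟩
  · intro p hp
    exact (Polynomial.monic_X.mul_right_eq_zero_iff).1 hp

theorem Ret.mvPolynomial_fin [IsNoetherianRing k] (n : ℕ) : Ret k (MvPolynomial (Fin n) k) := by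
  induction n with
  | zero => exact (Ret.self k).equiv (MvPolynomial.isEmptyAlgEquiv k (Fin 0))
  | succ n ih =>
    haveI : Module.Flat k (MvPolynomial (Fin n) k)[X] :=
      Module.Flat.trans k (MvPolynomial (Fin n) k) _
    exact (Ret.polynomial ih).equiv (MvPolynomial.finSuccEquiv k n)

theorem Ret.mvPolynomial [IsNoetherianRing k] (I : Type) [Finite I] :
    Ret k (MvPolynomial I k) := by
  obtain ⟨n, ⟨e⟩⟩ := Finite.exists_equiv_fin I
  exact (Ret.mvPolynomial_fin n).equiv (MvPolynomial.renameEquiv k e)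

end ret

section step

variable {k : Type u} [CommRing k] {P : Type u} [CommRing P] [Algebra k P] {r : ℕ}
  (f : Fin (r + 1) → P)

/-- The restriction to `y_0 = 0`. -/
noncomputable def cut0 : SmR f →+* SmR (Fin.tail f) :=
  SmR.lift f (SmR.b (Fin.tail f)) (SmR.z (Fin.tail f)) (Fin.cons 0 (SmR.y (Fin.tail f))) (by
    rw [Fin.sum_univ_succ, Fin.cons_zero, zero_mul, zero_add]
    simp only [Fin.cons_succ]
    exact SmR.rel (Fin.tail f))

theorem cut0_z : cut0 f (SmR.z f) = SmR.z (Fin.tail f) := SmR.lift_z _ _ _ _ _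
theorem cut0_b (a : P) : cut0 f (SmR.b f a) = SmR.b (Fin.tail f) a := SmR.lift_b _ _ _ _ _ _
theorem cut0_y0 : cut0 f (SmR.y f 0) = 0 := SmR.lift_y _ _ _ _ _ _
theorem cut0_y (l : Fin r) : cut0 f (SmR.y f l.succ) = SmR.y (Fin.tail f) l :=
  SmR.lift_y _ _ _ _ _ _

theorem cut0_surjective : Function.Surjective (cut0 f) := by
  intro v
  induction v using HR.induction (smW (Fin.tail f)) with
  | hc a =>
    refine ⟨HR.c (smW f) a, ?_⟩
    have h : (cut0 f).comp (HR.c (smW f)) = HR.c (smW (Fin.tail f)) := by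
      apply Polynomial.ringHom_ext
      · exact cut0_b f
      · exact cut0_z f
    exact RingHom.congr_fun h a
  | ha x y hx hy =>
    obtain ⟨a, ha⟩ := hx
    obtain ⟨b, hb⟩ := hy
    exact ⟨a + b, by rw [map_add, ha, hb]⟩
  | hm x i hx =>
    obtain ⟨a, ha⟩ := hx
    exact ⟨a * SmR.y f i.succ, by rw [map_mul, ha, cut0_y]; rfl⟩

theorem mem_of_cut0 (x : SmR f) (hx : cut0 f x = 0) : x ∈ Ideal.span {SmR.y f 0} := by
  let π : SmR f →+* (SmR f ⧸ Ideal.span {SmR.y f 0}) := Ideal.Quotient.mk _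
  have hs : π (SmR.y f 0) = 0 := Ideal.Quotient.eq_zero_iff_mem.2 (Ideal.subset_span rfl)
  let θ : SmR (Fin.tail f) →+* (SmR f ⧸ Ideal.span {SmR.y f 0}) :=
    SmR.lift (Fin.tail f) (π.comp (SmR.b f)) (π (SmR.z f)) (fun l => π (SmR.y f l.succ)) (by
      have h1 : π (∑ l : Fin (r + 1), SmR.y f l * SmR.b f (f l) +
          (SmR.z f - SmR.z f ^ 2)) = 0 := by
        rw [SmR.rel]
        exact map_zero π
      have h0 : π (SmR.y f 0 * SmR.b f (f 0)) = 0 :=
        Ideal.Quotient.eq_zero_iff_mem.2 (Ideal.mul_mem_right _ _ (Ideal.subset_span rfl))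
      rw [map_add, map_sum, Fin.sum_univ_succ, h0] at h1
      have h2 : ∑ l : Fin r, π (SmR.y f l.succ) * (π.comp (SmR.b f)) (Fin.tail f l) =
          ∑ l : Fin r, π (SmR.y f l.succ * SmR.b f (f l.succ)) :=
        Finset.sum_congr rfl fun l _ => (map_mul π _ _).symm
      have h3 : π (SmR.z f) - π (SmR.z f) ^ 2 = π (SmR.z f - SmR.z f ^ 2) := by
        rw [map_sub, map_pow]
      rw [h2, h3]
      linear_combination h1)
  have h : θ.comp (cut0 f) = π := by
    refine SmR.hom_ext f (B := SmR f ⧸ Ideal.span {SmR.y f 0}) (φ := θ.comp (cut0 f))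
      (ψ := π) ?_ ?_ ?_
    · intro a
      rw [RingHom.comp_apply, cut0_b]
      exact SmR.lift_b _ _ _ _ _ _
    · rw [RingHom.comp_apply, cut0_z]
      exact SmR.lift_z _ _ _ _ _
    · intro l
      rw [RingHom.comp_apply]
      refine Fin.cases ?_ (fun l => ?_) l
      · rw [cut0_y0, map_zero]
        exact hs.symm
      · rw [cut0_y]
        exact SmR.lift_y _ _ _ _ _ _
  have h2 : π x = 0 := by
    rw [← h, RingHom.comp_apply, hx, map_zero]
  exact Ideal.Quotient.eq_zero_iff_mem.1 h2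

theorem smW_regular {m : ℕ} (g : Fin m → P) (b : MvPolynomial (Fin m) P[X])
    (h : smW g * b = 0) : b = 0 := by
  have h1 : (eZ P m) (FZ g * (eZ P m).symm b) = 0 := by
    rw [map_mul, eZ_FZ, AlgEquiv.apply_symm_apply, h]
  have h2 : FZ g * (eZ P m).symm b = 0 := (eZ P m).injective (h1.trans (map_zero _).symm)
  have h3 := FZ_regular g _ h2
  exact (eZ P m).symm.injective (h3.trans (map_zero _).symm)

/-- The restriction of polynomials to `y_0 = 0`. -/
noncomputable def e0 (P : Type u) [CommRing P] (r : ℕ) :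
    MvPolynomial (Fin (r + 1)) P[X] →+* MvPolynomial (Fin r) P[X] :=
  (Polynomial.evalRingHom 0).comp
    (MvPolynomial.finSuccEquiv P[X] r : MvPolynomial (Fin (r + 1)) P[X] →+* _)

theorem e0_apply (p : MvPolynomial (Fin (r + 1)) P[X]) :
    e0 P r p = (MvPolynomial.finSuccEquiv P[X] r p).coeff 0 := by
  change Polynomial.eval 0 (MvPolynomial.finSuccEquiv P[X] r p) = _
  rw [Polynomial.coeff_zero_eq_eval_zero]

theorem e0_W : e0 P r (smW f) = smW (Fin.tail f) := by
  have hC : ∀ t : P[X], e0 P r (MvPolynomial.C t) = MvPolynomial.C t := fun t => by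
    rw [e0_apply]
    simp [MvPolynomial.finSuccEquiv_apply]
  have h0 : e0 P r (MvPolynomial.X 0) = 0 := by
    rw [e0_apply, MvPolynomial.finSuccEquiv_X_zero, Polynomial.coeff_X_zero]
  have hs : ∀ l : Fin r, e0 P r (MvPolynomial.X l.succ) = MvPolynomial.X l := fun l => by
    rw [e0_apply, MvPolynomial.finSuccEquiv_X_succ, Polynomial.coeff_C_zero]
  unfold smW pairing
  rw [map_add, map_sum, Fin.sum_univ_succ, map_mul, h0, zero_mul, zero_add, hC]
  congr 1
  refine Finset.sum_congr rfl fun l _ => ?_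
  rw [map_mul, hs, hC]
  rfl

theorem X_cancel {S : Type u} [CommRing S] (a b : S[X]) (h : X * a = X * b) : a = b := by
  have h1 : X * (a - b) = 0 := by rw [mul_sub, h, sub_self]
  exact sub_eq_zero.1 ((Polynomial.monic_X.mul_right_eq_zero_iff).1 h1)

theorem y0_regular (v : SmR f) (hv : SmR.y f 0 * v = 0) : v = 0 := by
  obtain ⟨q, rfl⟩ := Ideal.Quotient.mk_surjective v
  have h1 : Ideal.Quotient.mk (Ideal.span {smW f}) (MvPolynomial.X 0 * q) = 0 :=
    (map_mul _ _ _).trans hv
  obtain ⟨p, hp⟩ := Ideal.mem_span_singleton'.1 (Ideal.Quotient.eq_zero_iff_mem.1 h1)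
  have h2 : smW (Fin.tail f) * e0 P r p = 0 := by
    have h3 := congrArg (e0 P r) hp
    have h0 : e0 P r (MvPolynomial.X 0) = 0 := by
      rw [e0_apply, MvPolynomial.finSuccEquiv_X_zero, Polynomial.coeff_X_zero]
    rw [map_mul, map_mul, h0, zero_mul, e0_W] at h3
    rw [mul_comm]
    exact h3
  have h3 := smW_regular _ _ h2
  rw [e0_apply] at h3
  obtain ⟨p', hp'⟩ := Polynomial.X_dvd_iff.2 h3
  have h4 : X * MvPolynomial.finSuccEquiv P[X] r q =
      X * (p' * MvPolynomial.finSuccEquiv P[X] r (smW f)) := by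
    have h5 := congrArg (MvPolynomial.finSuccEquiv P[X] r) hp
    rw [map_mul, map_mul, MvPolynomial.finSuccEquiv_X_zero, hp'] at h5
    rw [← h5]
    ring
  have h6 : MvPolynomial.finSuccEquiv P[X] r q =
      p' * MvPolynomial.finSuccEquiv P[X] r (smW f) := X_cancel _ _ h4
  have h7 : q = (MvPolynomial.finSuccEquiv P[X] r).symm p' * smW f := by
    apply (MvPolynomial.finSuccEquiv P[X] r).injective
    rw [map_mul, AlgEquiv.apply_symm_apply, h6]
  exact Ideal.Quotient.eq_zero_iff_mem.2 (Ideal.mem_span_singleton'.2 ⟨_, h7.symm⟩)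

/-- The restriction to `y_0 = 0` as a homomorphism of algebras. -/
noncomputable def cut0A (k : Type u) [CommRing k] [Algebra k P] : SmR f →ₐ[k] SmR (Fin.tail f) :=
  { cut0 f with
    commutes' := fun c => cut0_b f (algebraMap k P c) }

theorem Ret.step [IsNoetherianRing P] [Module.Flat k (SmR f)] [Module.Flat k (SmR (Fin.tail f))]
    (h : Ret k (SmR (Fin.tail f))) : Ret k (SmR f) := by
  refine h.cut (cut0A f k) (SmR.y f 0) ⟨cut0_surjective f, cut0_y0 f, ?_⟩ (y0_regular f)
  intro b hb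
  exact Ideal.mem_span_singleton'.1 (mem_of_cut0 f b hb)

end step

section base

variable {k : Type u} [CommRing k] {P : Type u} [CommRing P] [Algebra k P] (f : Fin 0 → P)

/-- The point `z = 0`. -/
noncomputable def pt0 : SmR f →+* P :=
  SmR.lift f (RingHom.id P) 0 (fun l => l.elim0) (by
    rw [Finset.univ_eq_empty, Finset.sum_empty]
    ring)

theorem pt0_z : pt0 f (SmR.z f) = 0 := SmR.lift_z _ _ _ _ _
theorem pt0_b (a : P) : pt0 f (SmR.b f a) = a := SmR.lift_b _ _ _ _ _ _

theorem pt0_key (v : SmR f) : (1 - SmR.z f) * (v - SmR.b f (pt0 f v)) = 0 := by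
  let J : Ideal (SmR f) := ker (LinearMap.mulLeft (SmR f) (1 - SmR.z f))
  let π : SmR f →+* (SmR f ⧸ J) := Ideal.Quotient.mk J
  have hJ : ∀ w, π w = 0 ↔ (1 - SmR.z f) * w = 0 := fun w => Ideal.Quotient.eq_zero_iff_mem
  have h : (π.comp (SmR.b f)).comp (pt0 f) = π := by
    refine SmR.hom_ext f (B := SmR f ⧸ J) (φ := (π.comp (SmR.b f)).comp (pt0 f))
      (ψ := π) ?_ ?_ ?_
    · intro a
      rw [RingHom.comp_apply, RingHom.comp_apply, pt0_b]
    · rw [RingHom.comp_apply, pt0_z, map_zero]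
      refine ((hJ _).2 ?_).symm
      have h1 := SmR.rel f
      rw [Finset.univ_eq_empty, Finset.sum_empty] at h1
      linear_combination h1
    · intro l
      exact l.elim0
  rw [← hJ, map_sub]
  have h2 := RingHom.congr_fun h v
  rw [← h2]
  exact sub_self _

/-- The homomorphism as a homomorphism of algebras. -/
noncomputable def pt0A (k : Type u) [CommRing k] [Algebra k P] : SmR f →ₐ[k] P :=
  { pt0 f with
    commutes' := fun c => pt0_b f (algebraMap k P c) }

theorem Ret.base [Module.Flat k P] [Module.Flat k (SmR f)] (h : Ret k P) : Ret k (SmR f) := by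
  letI : Algebra (SmR f) P := (pt0 f).toAlgebra
  haveI : IsScalarTower k (SmR f) P := IsScalarTower.of_algebraMap_eq fun c =>
    (pt0_b f (algebraMap k P c)).symm
  let i : P →ₗ[SmR f] SmR f :=
    { toFun := fun p => (1 - SmR.z f) * SmR.b f p
      map_add' := fun p q => by rw [map_add, mul_add]
      map_smul' := fun v p => by
        have h1 := pt0_key f v
        change (1 - SmR.z f) * SmR.b f (pt0 f v * p) = v * ((1 - SmR.z f) * SmR.b f p)
        rw [map_mul]
        linear_combination -(SmR.b f p) * h1 }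
  haveI : Module.Flat (SmR f) P := Module.Flat.of_retract i (Algebra.linearMap (SmR f) P)
    (LinearMap.ext fun x => by
      change pt0 f ((1 - SmR.z f) * SmR.b f x) = x
      rw [map_mul, map_sub, map_one, pt0_z, pt0_b, sub_zero, one_mul])
  exact h.flat

end base

end Pool.Agent.GZero
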