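import Mathlib

/-!
# The Jacobian criterion for a hypersurface
-/

universe u v w

namespace Pool.Agent.GZero

open MvPolynomial (X C pderiv aeval)

section taylor

variable {k : Type u} [CommRing k] {σ : Type v} [Fintype σ] {B : Type w} [CommRing B] [Algebra k B]

/-- Taylor's formula to the first order. -/
theorem aeval_add_of_sq (I : Ideal B) (hI : I ^ 2 = ⊥) (b h : σ → B) (hh : ∀ i, h i ∈ I)
    (p : MvPolynomial σ k) :
    aeval (fun i => b i + h i) p = aeval b p + ∑ i, aeval b (pderiv i p) * h i := by
  have hsq : ∀ x ∈ I, ∀ y ∈ I, x * y = 0 := fun x hx y hy => by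
    have h1 : x * y ∈ I ^ 2 := by
      rw [pow_two]
      exact Ideal.mul_mem_mul hx hy
    rwa [hI, Ideal.mem_bot] at h1
  induction p using MvPolynomial.induction_on with
  | C a => simp
  | add p q hp hq =>
    have h1 : ∑ i, aeval b (pderiv i (p + q)) * h i =
        ∑ i, aeval b (pderiv i p) * h i + ∑ i, aeval b (pderiv i q) * h i := by
      rw [← Finset.sum_add_distrib]
      refine Finset.sum_congr rfl fun i _ => ?_
      rw [map_add, map_add, add_mul]
    rw [map_add, hp, hq, map_add, h1]
    ring
  | mul_X p j hp =>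
    classical
    have h1 : ∑ i, aeval b (pderiv i (p * X j)) * h i =
        aeval b p * h j + (∑ i, aeval b (pderiv i p) * h i) * b j := by
      have h2 : ∀ i, aeval b (pderiv i (p * X j)) * h i =
          (if i = j then aeval b p * h j else 0) + aeval b (pderiv i p) * h i * b j := by
        intro i
        rw [Derivation.leibniz, MvPolynomial.pderiv_X, smul_eq_mul, smul_eq_mul, map_add, map_mul,
          map_mul, MvPolynomial.aeval_X]
        by_cases hij : i = j
        · subst hij
          rw [Pi.single_eq_same, map_one, if_pos rfl]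
          ring
        · rw [Pi.single_eq_of_ne (Ne.symm hij), map_zero, if_neg hij]
          ring
      rw [Finset.sum_congr rfl fun i _ => h2 i, Finset.sum_add_distrib, Finset.sum_mul,
        Finset.sum_ite_eq' Finset.univ j, if_pos (Finset.mem_univ j)]
    have h3 : (∑ i, aeval b (pderiv i p) * h i) * h j = 0 :=
      hsq _ (I.sum_mem fun i _ => I.mul_mem_left _ (hh i)) _ (hh j)
    rw [map_mul, map_mul, MvPolynomial.aeval_X, MvPolynomial.aeval_X, hp, h1]
    linear_combination h3

end taylor

variable {k : Type u} [CommRing k] {σ : Type} [Fintype σ]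

/-- The Jacobian criterion. -/
theorem smooth_of_jacobian (F : MvPolynomial σ k)
    (h : (1 : MvPolynomial σ k) ∈
      Ideal.span {F} ⊔ Ideal.span (Set.range fun i => pderiv i F)) :
    Algebra.Smooth k (MvPolynomial σ k ⧸ Ideal.span {F}) := by
  obtain ⟨a, ha, a', ha', haa⟩ := Submodule.mem_sup.1 h
  obtain ⟨u, rfl⟩ := Ideal.mem_span_singleton'.1 ha
  obtain ⟨v, rfl⟩ := (Submodule.mem_span_range_iff_exists_fun _).1 ha'
  have hfp : Algebra.FinitePresentation k (MvPolynomial σ k ⧸ Ideal.span {F}) :=
    Algebra.FinitePresentation.quotient ⟨{F}, by rw [Finset.coe_singleton]⟩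
  have hfs : Algebra.FormallySmooth k (MvPolynomial σ k ⧸ Ideal.span {F}) := by
    refine Algebra.FormallySmooth.of_comp_surjective ?_
    intro B _ _ I hI g
    have hsq : ∀ x ∈ I, ∀ y ∈ I, x * y = 0 := fun x hx y hy => by
      have h1 : x * y ∈ I ^ 2 := by
        rw [pow_two]
        exact Ideal.mul_mem_mul hx hy
      rwa [hI, Ideal.mem_bot] at h1
    have hb : ∀ i : σ, ∃ b : B, Ideal.Quotient.mk I b = g (Ideal.Quotient.mk _ (X i)) := fun i =>
      Ideal.Quotient.mk_surjective _
    choose b hb using hb
    have hg : (Ideal.Quotient.mkₐ k I).comp (aeval b) =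
        g.comp (Ideal.Quotient.mkₐ k (Ideal.span {F})) := by
      apply MvPolynomial.algHom_ext
      intro i
      change Ideal.Quotient.mk I (aeval b (X i)) = g (Ideal.Quotient.mk _ (X i))
      rw [MvPolynomial.aeval_X, hb]
    have hF : aeval b F ∈ I := by
      have h1 := DFunLike.congr_fun hg F
      have h2 : (Ideal.Quotient.mk (Ideal.span {F})) F = 0 :=
        Ideal.Quotient.eq_zero_iff_mem.2 (Ideal.subset_span rfl)
      change Ideal.Quotient.mk I (aeval b F) = g (Ideal.Quotient.mk _ F) at h1
      rw [h2, map_zero] at h1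
      exact Ideal.Quotient.eq_zero_iff_mem.1 h1
    let t : σ → B := fun i => -(aeval b (v i) * aeval b F)
    have ht : ∀ i, t i ∈ I := fun i => I.neg_mem (I.mul_mem_left _ hF)
    have hF2 : aeval (fun i => b i + t i) F = 0 := by
      rw [aeval_add_of_sq I hI b t ht F]
      have h3 : ∑ i, aeval b (pderiv i F) * t i =
          -(aeval b F * aeval b (∑ i, v i * pderiv i F)) := by
        rw [map_sum, Finset.mul_sum, ← Finset.sum_neg_distrib]
        refine Finset.sum_congr rfl fun i _ => ?_
        rw [map_mul]
        change _ * -(aeval b (v i) * aeval b F) = _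
        ring
      have h4 : ∑ i, v i * pderiv i F = 1 - u * F := by
        rw [eq_sub_iff_add_eq, add_comm]
        exact haa
      rw [h3, h4, map_sub, map_mul, map_one]
      have h5 : aeval b F * aeval b F = 0 := hsq _ hF _ hF
      linear_combination aeval b u * h5
    refine ⟨Ideal.Quotient.liftₐ (Ideal.span {F}) (aeval fun i => b i + t i) ?_, ?_⟩
    · intro a ha
      obtain ⟨c, rfl⟩ := Ideal.mem_span_singleton'.1 ha
      rw [map_mul, hF2, mul_zero]
    · apply Ideal.Quotient.algHom_ext
      apply MvPolynomial.algHom_ext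
      intro i
      change Ideal.Quotient.mk I (aeval (fun i => b i + t i) (X i)) =
        g (Ideal.Quotient.mk _ (X i))
      rw [MvPolynomial.aeval_X, map_add, hb, Ideal.Quotient.eq_zero_iff_mem.2 (ht i), add_zero]
  exact ⟨hfs, hfp⟩

end Pool.Agent.GZero
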