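import Pool.Agent.GZero.SmW
import Pool.Agent.GZero.Jac
import Pool.Agent.GZero.Cubic

/-!
# `G_0` of every algebra of finite type is a direct summand of `G_0` of a smooth cubic hypersurface
-/

set_option linter.style.haveILetI false

universe u v

namespace Pool.Agent.GZero

open MvPolynomial (X C pderiv)

section

variable {k : Type u} [CommRing k] {I : Type} {r n : ℕ}

/-- The polynomials in the `y_l` and `z` over the ring of polynomials in the `x_i`. -/
noncomputable def flatZ (e : Fin r ⊕ Option I ≃ Fin n) :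
    MvPolynomial (Fin r) (Polynomial (MvPolynomial I k)) ≃ₐ[k] MvPolynomial (Fin n) k :=
  (MvPolynomial.mapAlgEquiv (Fin r) (MvPolynomial.optionEquivLeft k I).symm).trans (flat e)

theorem flatZ_X (e : Fin r ⊕ Option I ≃ Fin n) (l : Fin r) :
    flatZ (k := k) e (X l) = X (e (Sum.inl l)) := by
  unfold flatZ
  rw [AlgEquiv.trans_apply]
  have h : MvPolynomial.mapAlgEquiv (Fin r) (MvPolynomial.optionEquivLeft k I).symm (X l) =
      X l := by simp
  rw [h, flat_X]

theorem flatZ_C (e : Fin r ⊕ Option I ≃ Fin n) (p : MvPolynomial I k) :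
    flatZ (k := k) e (C (Polynomial.C p)) =
      MvPolynomial.rename (fun i => e (Sum.inr (some i))) p := by
  have h1 : (MvPolynomial.optionEquivLeft k I).symm (Polynomial.C p) =
      MvPolynomial.rename some p := Polynomial.aevalTower_C _ _ _
  have h : MvPolynomial.mapAlgEquiv (Fin r) (MvPolynomial.optionEquivLeft k I).symm
      (C (Polynomial.C p)) = C (MvPolynomial.rename some p) := by
    rw [← h1]
    simp
  unfold flatZ
  rw [AlgEquiv.trans_apply, h, flat_C, MvPolynomial.rename_rename]
  rfl

theorem flatZ_z (e : Fin r ⊕ Option I ≃ Fin n) :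
    flatZ (k := k) e (C Polynomial.X) = X (e (Sum.inr none)) := by
  have h1 : (MvPolynomial.optionEquivLeft k I).symm Polynomial.X = X none := by
    rw [AlgEquiv.symm_apply_eq]
    simp
  have h : MvPolynomial.mapAlgEquiv (Fin r) (MvPolynomial.optionEquivLeft k I).symm
      (C Polynomial.X) = C (X none) := by
    rw [← h1]
    simp
  unfold flatZ
  rw [AlgEquiv.trans_apply, h, flat_C, MvPolynomial.rename_X]

/-- The cubic `∑ y_l f_l + z - z^2`. -/
theorem flatZ_smW (e : Fin r ⊕ Option I ≃ Fin n) (f : Fin r → MvPolynomial I k) :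
    flatZ e (smW f) = ∑ l, X (e (Sum.inl l)) *
      MvPolynomial.rename (fun i => e (Sum.inr (some i))) (f l) +
        (X (e (Sum.inr none)) - X (e (Sum.inr none)) ^ 2) := by
  unfold smW pairing
  rw [map_add, map_sum, map_sub, map_pow, map_sub, map_pow, flatZ_z]
  congr 1
  refine Finset.sum_congr rfl fun l _ => ?_
  rw [map_mul, flatZ_X, flatZ_C]

theorem flatZ_degree (e : Fin r ⊕ Option I ≃ Fin n) (f : Fin r → MvPolynomial I k)
    (hf : ∀ l, (f l).totalDegree ≤ 2) : (flatZ e (smW f)).totalDegree ≤ 3 := by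
  rcases subsingleton_or_nontrivial k with hk | hk
  · rw [Subsingleton.elim (flatZ e (smW f)) 0, MvPolynomial.totalDegree_zero]
    norm_num
  rw [flatZ_smW]
  refine (MvPolynomial.totalDegree_add _ _).trans (max_le ?_ ?_)
  · refine (MvPolynomial.totalDegree_finsetSum _ _).trans (Finset.sup_le fun l _ => ?_)
    refine (MvPolynomial.totalDegree_mul _ _).trans ?_
    have h1 := (MvPolynomial.totalDegree_rename_le
      (fun i => e (Sum.inr (some i))) (f l)).trans (hf l)
    rw [MvPolynomial.totalDegree_X]
    omega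
  · refine (MvPolynomial.totalDegree_sub _ _).trans (max_le ?_ ?_)
    · rw [MvPolynomial.totalDegree_X]
      norm_num
    · rw [MvPolynomial.totalDegree_X_pow]
      norm_num

theorem pderiv_rename {σ τ : Type} (g : σ → τ) (j : τ) (hj : ∀ i, g i ≠ j)
    (p : MvPolynomial σ k) : pderiv j (MvPolynomial.rename g p) = 0 := by
  classical
  apply MvPolynomial.pderiv_eq_zero_of_notMem_vars
  intro h
  have h1 := MvPolynomial.vars_rename g p h
  obtain ⟨i, _, hi⟩ := Finset.mem_image.1 h1
  exact hj i hi

theorem smooth_flatZ (e : Fin r ⊕ Option I ≃ Fin n) (f : Fin r → MvPolynomial I k) :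
    Algebra.Smooth k (MvPolynomial (Fin n) k ⧸ Ideal.span {flatZ e (smW f)}) := by
  classical
  apply smooth_of_jacobian
  obtain ⟨F, hF⟩ : ∃ F, F = flatZ e (smW f) := ⟨_, rfl⟩
  rw [← hF]
  obtain ⟨J, hJ⟩ : ∃ J, J = Ideal.span {F} ⊔ Ideal.span (Set.range fun i => pderiv i F) := ⟨_, rfl⟩
  rw [← hJ]
  have hFJ : F ∈ J := by
    rw [hJ]
    exact (le_sup_left : Ideal.span {F} ≤ _) (Ideal.subset_span rfl)
  have hdJ : ∀ i, pderiv i F ∈ J := fun i => by
    rw [hJ]
    exact (le_sup_right : Ideal.span (Set.range fun i => pderiv i F) ≤ _)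
      (Ideal.subset_span ⟨i, rfl⟩)
  rw [flatZ_smW] at hF
  have hz : pderiv (e (Sum.inr none)) F = 1 - 2 * X (e (Sum.inr none)) := by
    rw [hF, map_add, map_sum, map_sub, Derivation.leibniz_pow, MvPolynomial.pderiv_X_self]
    have h1 : ∑ l, pderiv (e (Sum.inr none)) (X (e (Sum.inl l)) *
        MvPolynomial.rename (fun i => e (Sum.inr (some i))) (f l)) = 0 := by
      refine Finset.sum_eq_zero fun l _ => ?_
      rw [Derivation.leibniz, pderiv_rename, MvPolynomial.pderiv_X_of_ne, smul_zero, smul_zero,
        add_zero]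
      · intro h
        have := e.injective h
        simp at this
      · intro i h
        have := e.injective h
        simp at this
    rw [h1]
    simp
  have hy : ∀ l, pderiv (e (Sum.inl l)) F =
      MvPolynomial.rename (fun i => e (Sum.inr (some i))) (f l) := by
    intro l
    rw [hF, map_add, map_sum, map_sub, Derivation.leibniz_pow, MvPolynomial.pderiv_X_of_ne]
    · rw [smul_zero, smul_zero, sub_zero, add_zero, Finset.sum_eq_single l]
      · rw [Derivation.leibniz, pderiv_rename, MvPolynomial.pderiv_X_self, smul_zero, zero_add,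
          smul_eq_mul, mul_one]
        intro i h
        have := e.injective h
        simp at this
      · intro j _ hj
        rw [Derivation.leibniz, pderiv_rename, MvPolynomial.pderiv_X_of_ne, smul_zero, smul_zero,
          add_zero]
        · intro h
          have := e.injective h
          simp at this
          exact hj this
        · intro i h
          have := e.injective h
          simp at this
      · intro h
        exact absurd (Finset.mem_univ l) h
    · intro h
      have := e.injective h
      simp at this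
  have h1 : (1 : MvPolynomial (Fin n) k) = (1 - 2 * X (e (Sum.inr none))) *
      pderiv (e (Sum.inr none)) F + 4 * F -
        4 * ∑ l, X (e (Sum.inl l)) * pderiv (e (Sum.inl l)) F := by
    rw [Finset.sum_congr rfl fun l _ => by rw [hy l], hz]
    rw [hF]
    ring
  rw [h1]
  exact J.sub_mem (J.add_mem (J.mul_mem_left _ (hdJ _)) (J.mul_mem_left _ hFJ))
    (J.mul_mem_left _ (J.sum_mem fun l _ => J.mul_mem_left _ (hdJ _)))

end

/-- `G_0` of every algebra of finite type over a noetherian ring `k` is a direct summand of `G_0`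
of a smooth hypersurface of degree at most three. -/
theorem exists_smooth_cubic (k A : Type u) [CommRing k] [IsNoetherianRing k] [CommRing A]
    [Algebra k A] [Algebra.FiniteType k A] :
    ∃ (n : ℕ) (F : MvPolynomial (Fin n) k), F.totalDegree ≤ 3 ∧
      Algebra.Smooth k (MvPolynomial (Fin n) k ⧸ Ideal.span {F}) ∧
      ∃ (i : G0 A →+ G0 (MvPolynomial (Fin n) k ⧸ Ideal.span {F}))
        (t : G0 (MvPolynomial (Fin n) k ⧸ Ideal.span {F}) →+ G0 A), ∀ x, t (i x) = x := by
  obtain ⟨I, hI, r, f, hf, ⟨e⟩⟩ := exists_quadratic k A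
  obtain ⟨n, ⟨e0⟩⟩ := Finite.exists_equiv_fin (Fin r ⊕ Option I)
  refine ⟨n, flatZ e0 (smW f), flatZ_degree e0 f hf, smooth_flatZ e0 f, ?_⟩
  let E : SmR f ≃+* (MvPolynomial (Fin n) k ⧸ Ideal.span {flatZ e0 (smW f)}) :=
    Ideal.quotientEquiv _ _ (flatZ (k := k) e0).toRingEquiv (by
      rw [Ideal.map_span, Set.image_singleton]
      rfl)
  let g1 : G0 (Base f) ≃+ G0 A := G0.congrRing e.toRingEquiv
  let g2 : G0 (SmR f) ≃+ G0 (MvPolynomial (Fin n) k ⧸ Ideal.span {flatZ e0 (smW f)}) :=
    G0.congrRing E
  refine ⟨(g2.toAddMonoidHom.comp (inclS f)).comp g1.symm.toAddMonoidHom,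
    (g1.toAddMonoidHom.comp (smT f)).comp g2.symm.toAddMonoidHom, fun x => ?_⟩
  change g1 (smT f (g2.symm (g2 (inclS f (g1.symm x))))) = x
  rw [g2.symm_apply_apply, smT_inclS, g1.apply_symm_apply]

end Pool.Agent.GZero
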