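import Pool.Agent.GZero.GenJ
import Pool.Agent.GZero.SmC

/-!
# `G_0(A) ⊕ G_0(k)` is `G_0` of a smooth cubic hypersurface
-/

universe u v w

set_option linter.style.haveILetI false
set_option linter.unusedSectionVars false

namespace Pool.Agent.GZero

open LinearMap (ker range)
open TensorProduct Polynomial

theorem split_iso {G : Type v} {A : Type v} {K : Type v} [AddCommGroup G] [AddCommGroup A]
    [AddCommGroup K] (t : G →+ A) (i : A →+ G) (b : K →+ G) (ρ : G →+ K)
    (hti : ∀ x, t (i x) = x) (htb : ∀ y, t (b y) = 0) (hker : ∀ x, t x = 0 → ∃ y, b y = x)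
    (hρ : ∀ y, ρ (b y) = y) :
    ∃ e : G ≃+ A × K, (∀ x y, e (i x + b y) = (x, y)) := by
  have h1 : ∀ x, b (ρ (x - i (t x))) = x - i (t x) := by
    intro x
    obtain ⟨y, hy⟩ := hker (x - i (t x)) (by rw [map_sub, hti, sub_self])
    rw [← hy, hρ]
  let e : G ≃+ A × K :=
    { toFun := fun x => (t x, ρ (x - i (t x)))
      invFun := fun p => i p.1 + b p.2
      left_inv := fun x => by
        change i (t x) + b (ρ (x - i (t x))) = x
        rw [h1]
        abel
      right_inv := fun p => by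
        change (t (i p.1 + b p.2), ρ (i p.1 + b p.2 - i (t (i p.1 + b p.2)))) = p
        rw [map_add, hti, htb, add_zero, add_sub_cancel_left, hρ]
      map_add' := fun x y => by
        refine Prod.ext (map_add t x y) ?_
        change ρ (x + y - i (t (x + y))) = ρ (x - i (t x)) + ρ (y - i (t y))
        rw [← map_add ρ, map_add t, map_add i]
        congr 1
        abel }
  refine ⟨e, fun x y => ?_⟩
  exact e.right_inv (x, y)

section

variable {k : Type u} [CommRing k] {I : Type} [Finite I] {r : ℕ} (f : Fin r → MvPolynomial I k)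

theorem smooth_SmR : Algebra.Smooth k (SmR f) := by
  obtain ⟨n, ⟨e0⟩⟩ := Finite.exists_equiv_fin (Fin r ⊕ Option I)
  let E : SmR f ≃ₐ[k] (MvPolynomial (Fin n) k ⧸ Ideal.span {flatZ e0 (smW f)}) :=
    Ideal.quotientEquivAlg _ _ (flatZ (k := k) e0) (by
      rw [Ideal.map_span, Set.image_singleton]
      rfl)
  haveI := smooth_flatZ e0 f
  exact Algebra.Smooth.of_equiv E.symm

theorem flat_SmR : Module.Flat k (SmR f) := by
  haveI := smooth_SmR f
  exact Algebra.Smooth.flat k (SmR f)

end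

/-- `G_0(k)` is a direct summand. -/
theorem ret_SmR {k : Type u} [CommRing k] [IsNoetherianRing k] {I : Type} [Finite I] :
    ∀ {r : ℕ} (f : Fin r → MvPolynomial I k),
      haveI := flat_SmR f
      Ret k (SmR f) := by
  intro r
  induction r with
  | zero =>
    intro f
    haveI := flat_SmR f
    exact Ret.base f (Ret.mvPolynomial I)
  | succ r ih =>
    intro f
    haveI := flat_SmR f
    haveI := flat_SmR (Fin.tail f)
    exact Ret.step f (ih (Fin.tail f))

/-- The structure of the group `G_0` of the smooth hypersurface. -/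
theorem iso_SmR {k : Type u} [CommRing k] [IsNoetherianRing k] {I : Type} [Finite I]
    {r : ℕ} (f : Fin r → MvPolynomial I k) :
    haveI := flat_SmR f
    ∃ e : G0 (SmR f) ≃+ G0 (Base f) × G0 k,
      ∀ x y, e (inclS f x + G0.bc k (SmR f) y) = (x, y) := by
  haveI := flat_SmR f
  obtain ⟨ρ, hρ⟩ := ret_SmR f
  exact split_iso (smT f) (inclS f) (G0.bc k (SmR f)) ρ (smT_inclS f) (smT_bc f)
    (smT_ker f (G0.bc_mvPolynomial k I)) hρ

/-- Isomorphic algebras and base change. -/
theorem congrRing_bc {k B S : Type u} [CommRing k] [CommRing B] [CommRing S] [Algebra k B]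
    [Algebra k S] (E : B ≃ₐ[k] S) (Q : FMod k) :
    G0.congrRing E.toRingEquiv (G0.cls B (B ⊗[k] Q.carrier)) = G0.cls S (S ⊗[k] Q.carrier) := by
  refine (G0.res_mk (E.toRingEquiv.symm : S →+* B) E.toRingEquiv.symm.surjective
    ⟨B ⊗[k] Q.carrier⟩).trans ?_
  letI iS : Module S (B ⊗[k] Q.carrier) :=
    Module.compHom _ (E.toRingEquiv.symm : S →+* B)
  haveI hf : Module.Finite S (B ⊗[k] Q.carrier) :=
    finite_compHom (E.toRingEquiv.symm : S →+* B) E.toRingEquiv.symm.surjective _
  let φ : B ⊗[k] Q.carrier ≃ₗ[k] S ⊗[k] Q.carrier :=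
    TensorProduct.congr E.toLinearEquiv (LinearEquiv.refl k _)
  have hφ : ∀ (b : B) (q : Q.carrier), φ (b ⊗ₜ q) = E b ⊗ₜ q := fun b q => rfl
  have hlin : ∀ (s : S) (x : B ⊗[k] Q.carrier), φ (s • x) = s • φ x := by
    intro s x
    induction x using TensorProduct.induction_on with
    | zero => rw [smul_zero, map_zero, smul_zero]
    | add x y hx hy => rw [smul_add, map_add, hx, hy, map_add, smul_add]
    | tmul b q =>
      change φ (E.symm s • (b ⊗ₜ q)) = _
      rw [TensorProduct.smul_tmul', hφ, hφ, TensorProduct.smul_tmul', smul_eq_mul, map_mul,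
        E.apply_symm_apply, smul_eq_mul]
  let ψ : B ⊗[k] Q.carrier ≃ₗ[S] S ⊗[k] Q.carrier :=
    { φ.toAddEquiv with map_smul' := hlin }
  exact G0.cls_congr ψ

/-- For every noetherian ring `k` and every algebra `A` of finite type over `k` there is a smooth
hypersurface `S` of degree at most three in an affine space over `k` such that `G_0(S)` is
isomorphic to `G_0(A) ⊕ G_0(k)`; on the summand `G_0(k)` the isomorphism is given by base
change. -/
theorem exists_smooth_cubic_iso (k A : Type u) [CommRing k] [IsNoetherianRing k] [CommRing A]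
    [Algebra k A] [Algebra.FiniteType k A] :
    ∃ (n : ℕ) (F : MvPolynomial (Fin n) k), F.totalDegree ≤ 3 ∧
      Algebra.Smooth k (MvPolynomial (Fin n) k ⧸ Ideal.span {F}) ∧
      ∃ e : G0 (MvPolynomial (Fin n) k ⧸ Ideal.span {F}) ≃+ G0 A × G0 k,
        ∀ Q : FMod k, e (G0.cls (MvPolynomial (Fin n) k ⧸ Ideal.span {F})
          ((MvPolynomial (Fin n) k ⧸ Ideal.span {F}) ⊗[k] Q.carrier)) = (0, G0.mk Q) := by
  obtain ⟨I, hI, r, f, hf, ⟨e⟩⟩ := exists_quadratic k A
  obtain ⟨n, ⟨e0⟩⟩ := Finite.exists_equiv_fin (Fin r ⊕ Option I)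
  refine ⟨n, flatZ e0 (smW f), flatZ_degree e0 f hf, smooth_flatZ e0 f, ?_⟩
  haveI := flat_SmR f
  let E : SmR f ≃ₐ[k] (MvPolynomial (Fin n) k ⧸ Ideal.span {flatZ e0 (smW f)}) :=
    Ideal.quotientEquivAlg _ _ (flatZ (k := k) e0) (by
      rw [Ideal.map_span, Set.image_singleton]
      rfl)
  obtain ⟨e1, he1⟩ := iso_SmR f
  let g1 : G0 (Base f) ≃+ G0 A := G0.congrRing e.toRingEquiv
  let g2 : G0 (SmR f) ≃+ G0 (MvPolynomial (Fin n) k ⧸ Ideal.span {flatZ e0 (smW f)}) :=
    G0.congrRing E.toRingEquiv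
  refine ⟨g2.symm.trans (e1.trans (AddEquiv.prodCongr g1 (AddEquiv.refl _))), fun Q => ?_⟩
  have h1 := congrRing_bc E Q
  have h2 : g2.symm (G0.cls (MvPolynomial (Fin n) k ⧸ Ideal.span {flatZ e0 (smW f)})
      ((MvPolynomial (Fin n) k ⧸ Ideal.span {flatZ e0 (smW f)}) ⊗[k] Q.carrier)) =
      G0.cls (SmR f) (SmR f ⊗[k] Q.carrier) := by
    rw [AddEquiv.symm_apply_eq]
    exact h1.symm
  have h3 := he1 0 (G0.mk Q)
  rw [map_zero, zero_add, G0.bc_mk] at h3
  rw [AddEquiv.trans_apply, h2, AddEquiv.trans_apply, h3]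
  exact Prod.ext (map_zero g1) rfl

end Pool.Agent.GZero
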