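import Pool.Agent.GZero.GenK
import Pool.Agent.GZero.Cyl

/-!
# The group `G_0` of the hypersurface `y_1 f_1 + … + y_r f_r + z - z^2 = 0`
-/

universe u v w

set_option linter.style.haveILetI false
set_option linter.unusedSectionVars false

namespace Pool.Agent.GZero

open TensorProduct

variable {k : Type u} [CommRing k] {m r : ℕ}

theorem exists_cubic_equiv (f : Fin r → MvPolynomial (Fin m) k) :
    ∃ E : MvPolynomial (Fin r) (Polynomial (MvPolynomial (Fin m) k)) ≃ₐ[k]
      MvPolynomial (Fin r ⊕ Option (Fin m)) k, E (smW f) = cubic f ∧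
      (∀ l, E (MvPolynomial.X l) = MvPolynomial.X (Sum.inl l)) ∧
      E (MvPolynomial.C Polynomial.X) = MvPolynomial.X (Sum.inr none) ∧
      ∀ i, E (MvPolynomial.C (Polynomial.C (MvPolynomial.X i))) =
        MvPolynomial.X (Sum.inr (some i)) := by
  obtain ⟨n, ⟨e0⟩⟩ := Finite.exists_equiv_fin (Fin r ⊕ Option (Fin m))
  refine ⟨(flatZ e0).trans (MvPolynomial.renameEquiv k e0).symm, ?_, ?_, ?_, ?_⟩
  · rw [AlgEquiv.trans_apply, flatZ_smW, AlgEquiv.symm_apply_eq]
    unfold cubic
    simp only [MvPolynomial.renameEquiv_apply, map_add, map_sum, map_mul, map_sub, map_pow,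
      MvPolynomial.rename_X, MvPolynomial.rename_rename]
    rfl
  · intro l
    rw [AlgEquiv.trans_apply, flatZ_X, AlgEquiv.symm_apply_eq, MvPolynomial.renameEquiv_apply,
      MvPolynomial.rename_X]
  · rw [AlgEquiv.trans_apply, flatZ_z, AlgEquiv.symm_apply_eq, MvPolynomial.renameEquiv_apply,
      MvPolynomial.rename_X]
  · intro i
    rw [AlgEquiv.trans_apply, flatZ_C, AlgEquiv.symm_apply_eq, MvPolynomial.renameEquiv_apply,
      MvPolynomial.rename_X, MvPolynomial.rename_X]

/-- Every algebra of finite type has a presentation by polynomials of degree at most two in the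
variables `x_1, …, x_m`. -/
theorem exists_quadratic_fin (k A : Type u) [CommRing k] [IsNoetherianRing k] [CommRing A]
    [Algebra k A] [Algebra.FiniteType k A] : ∃ (m r : ℕ) (f : Fin r → MvPolynomial (Fin m) k),
      (∀ l, (f l).totalDegree ≤ 2) ∧ Nonempty (Quo f ≃ₐ[k] A) := by
  obtain ⟨I, hI, r, f, hf, ⟨e⟩⟩ := exists_quadratic k A
  obtain ⟨m, ⟨e0⟩⟩ := Finite.exists_equiv_fin I
  refine ⟨m, r, fun l => MvPolynomial.rename e0 (f l), fun l =>
    (MvPolynomial.totalDegree_rename_le e0 (f l)).trans (hf l), ⟨?_⟩⟩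
  refine (Ideal.quotientEquivAlg _ _ (MvPolynomial.renameEquiv k e0) ?_).symm.trans e
  rw [Ideal.map_span, ← Set.range_comp]
  rfl

/-- The map `tauH` in the variables of `cubic f`. -/
theorem tauH_eq_sect (f : Fin r → MvPolynomial (Fin m) k)
    (E : MvPolynomial (Fin r) (Polynomial (MvPolynomial (Fin m) k)) ≃ₐ[k]
      MvPolynomial (Fin r ⊕ Option (Fin m)) k)
    (h1 : ∀ l, E (MvPolynomial.X l) = MvPolynomial.X (Sum.inl l))
    (h2 : E (MvPolynomial.C Polynomial.X) = MvPolynomial.X (Sum.inr none))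
    (h3 : ∀ i, E (MvPolynomial.C (Polynomial.C (MvPolynomial.X i))) =
        MvPolynomial.X (Sum.inr (some i)))
    (p : MvPolynomial (Fin r ⊕ Option (Fin m)) k) :
    tauH f (Ideal.Quotient.mk (Ideal.span {smW f}) (E.symm p)) =
      MvPolynomial.aeval (values f) p := by
  have key : (((tauH f).comp (Ideal.Quotient.mk (Ideal.span {smW f}))).comp
      (E.symm : MvPolynomial (Fin r ⊕ Option (Fin m)) k →+*
        MvPolynomial (Fin r) (Polynomial (MvPolynomial (Fin m) k)))) =
      ((MvPolynomial.aeval (values f) :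
        MvPolynomial (Fin r ⊕ Option (Fin m)) k →ₐ[k] MvPolynomial (Fin r) (Quo f)) :
        MvPolynomial (Fin r ⊕ Option (Fin m)) k →+* MvPolynomial (Fin r) (Quo f)) := by
    apply MvPolynomial.ringHom_ext
    · intro c
      have hc : (E.symm : MvPolynomial (Fin r ⊕ Option (Fin m)) k →+*
          MvPolynomial (Fin r) (Polynomial (MvPolynomial (Fin m) k))) (MvPolynomial.C c) =
          MvPolynomial.C (Polynomial.C (MvPolynomial.C c)) := E.symm.commutes c
      rw [RingHom.comp_apply, hc]
      refine (tauH_b f (MvPolynomial.C c)).trans ?_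
      exact ((MvPolynomial.aeval (R := k) (values f)).commutes c).symm
    · rintro (l | o | i)
      · have hc : (E.symm : MvPolynomial (Fin r ⊕ Option (Fin m)) k →+*
            MvPolynomial (Fin r) (Polynomial (MvPolynomial (Fin m) k)))
            (MvPolynomial.X (Sum.inl l)) = MvPolynomial.X l := by
          rw [← h1 l]
          exact E.symm_apply_apply _
        rw [RingHom.comp_apply, hc]
        refine (tauH_y f l).trans ?_
        exact (MvPolynomial.aeval_X (values f) (Sum.inl l)).symm
      · have hc : (E.symm : MvPolynomial (Fin r ⊕ Option (Fin m)) k →+*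
            MvPolynomial (Fin r) (Polynomial (MvPolynomial (Fin m) k)))
            (MvPolynomial.X (Sum.inr none)) = MvPolynomial.C Polynomial.X := by
          rw [← h2]
          exact E.symm_apply_apply _
        rw [RingHom.comp_apply, hc]
        refine (tauH_z f).trans ?_
        exact (MvPolynomial.aeval_X (values f) (Sum.inr none)).symm
      · have hc : (E.symm : MvPolynomial (Fin r ⊕ Option (Fin m)) k →+*
            MvPolynomial (Fin r) (Polynomial (MvPolynomial (Fin m) k)))
            (MvPolynomial.X (Sum.inr (some i))) =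
              MvPolynomial.C (Polynomial.C (MvPolynomial.X i)) := by
          rw [← h3 i]
          exact E.symm_apply_apply _
        rw [RingHom.comp_apply, hc]
        refine (tauH_b f (MvPolynomial.X i)).trans ?_
        exact (MvPolynomial.aeval_X (values f) (Sum.inr (some i))).symm
  exact RingHom.congr_fun key p

theorem inclS_mk {P : Type u} [CommRing P] (f : Fin r → P) (N : FMod (Base f)) :
    inclS f (G0.mk N) =
      G0.mk ((N.ext (MvPolynomial (Fin r) (Base f))).res (tauH f) (tauH_surjective f)) := by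
  unfold inclS
  rw [AddMonoidHom.comp_apply, G0.bc_mk]
  exact G0.res_mk (tauH f) (tauH_surjective f) _

/-- The map `tauH` with values in `A[y]`. -/
noncomputable def tauQ (f : Fin r → MvPolynomial (Fin m) k) :
    SmR f →+* MvPolynomial (Fin r) (Quo f) := tauH f

theorem tauQ_surjective (f : Fin r → MvPolynomial (Fin m) k) :
    Function.Surjective (tauQ f) := tauH_surjective f

/-- The inclusion of `G_0(A)`. -/
noncomputable def inclQ (f : Fin r → MvPolynomial (Fin m) k) : G0 (Quo f) →+ G0 (SmR f) :=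
  inclS f

theorem inclQ_mk (f : Fin r → MvPolynomial (Fin m) k) (M : FMod (Quo f)) :
    inclQ f (G0.mk M) =
      G0.mk ((M.ext (MvPolynomial (Fin r) (Quo f))).res (tauQ f) (tauQ_surjective f)) :=
  inclS_mk f M

theorem iso_inclQ [IsNoetherianRing k] (f : Fin r → MvPolynomial (Fin m) k) :
    haveI := flat_SmR f
    ∃ e : G0 (SmR f) ≃+ G0 (Quo f) × G0 k,
      ∀ x y, e (inclQ f x + G0.bc k (SmR f) y) = (x, y) := iso_SmR f

/-- The identity of a module. -/
noncomputable def resRes {B C D : Type u} [CommRing B] [CommRing C] [CommRing D]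
    (σ : B →+* D) (hσ : Function.Surjective σ) (τ : C →+* D) (hτ : Function.Surjective τ)
    (N : FMod D) : (N.res σ hσ).carrier ≃+ (N.res τ hτ).carrier := AddEquiv.refl N.carrier

theorem resRes_smul {B C D : Type u} [CommRing B] [CommRing C] [CommRing D]
    (σ : B →+* D) (hσ : Function.Surjective σ) (τ : C →+* D) (hτ : Function.Surjective τ)
    (N : FMod D) (b : B) (c : C) (h : σ b = τ c) (n : (N.res σ hσ).carrier) :
    resRes σ hσ τ hτ N (b • n) = c • resRes σ hσ τ hτ N n := by
  let n' : N.carrier := n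
  exact congrArg (fun d : D => d • n') h

theorem res_res_mk {B C D : Type u} [CommRing B] [CommRing C] [CommRing D] (e : B ≃+* C)
    (σ : B →+* D) (hσ : Function.Surjective σ) (τ : C →+* D) (hτ : Function.Surjective τ)
    (h : ∀ b, τ (e b) = σ b) (N : FMod D) :
    G0.congrRing e (G0.mk (N.res σ hσ)) = G0.mk (N.res τ hτ) := by
  refine (G0.res_mk (e.symm : C →+* B) e.symm.surjective (N.res σ hσ)).trans ?_
  letI i1 : Module C (N.res σ hσ).carrier :=
    Module.compHom (N.res σ hσ).carrier (e.symm : C →+* B)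
  haveI i2 : Module.Finite C (N.res σ hσ).carrier :=
    finite_compHom (e.symm : C →+* B) e.symm.surjective _
  have ht : ∀ (c : C) (n : (N.res σ hσ).carrier),
      resRes σ hσ τ hτ N (c • n) = c • resRes σ hσ τ hτ N n := by
    intro c n
    refine resRes_smul σ hσ τ hτ N (e.symm c) c ?_ n
    rw [← h, e.apply_symm_apply]
  have h7 : G0.cls C (N.res σ hσ).carrier = G0.cls C (N.res τ hτ).carrier :=
    G0.cls_congr ((resRes σ hσ τ hτ N).toLinearEquiv ht)
  exact h7

/-- **Theorem.** The algebra `S = k[x, y, z]/(y_1 f_1(x) + … + y_r f_r(x) + z - z^2)` is smooth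
over `k`, and its group `G_0` is isomorphic to `G_0(A) ⊕ G_0(k)`, `A = k[x]/(f)`. -/
theorem cub_iso [IsNoetherianRing k] (f : Fin r → MvPolynomial (Fin m) k) :
    Algebra.Smooth k (Cub f) ∧ ∃ e : G0 (Cub f) ≃+ G0 (Quo f) × G0 k,
      (∀ Q : FMod k, e (G0.mk (Q.ext (Cub f))) = (0, G0.mk Q)) ∧
      ∀ M : FMod (Quo f), e (G0.mk (cyl f M)) = (G0.mk M, 0) := by
  obtain ⟨E0, hE0, hE1, hE2, hE3⟩ := exists_cubic_equiv f
  haveI := flat_SmR f
  let E : SmR f ≃ₐ[k] Cub f :=
    Ideal.quotientEquivAlg _ _ E0 (by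
      rw [Ideal.map_span, Set.image_singleton, ← hE0]
      rfl)
  haveI := smooth_SmR f
  refine ⟨Algebra.Smooth.of_equiv E, ?_⟩
  obtain ⟨e1, he1⟩ := iso_inclQ f
  let g2 : G0 (SmR f) ≃+ G0 (Cub f) := G0.congrRing E.toRingEquiv
  refine ⟨g2.symm.trans e1, fun Q => ?_, fun M => ?_⟩
  · have h1 := congrRing_bc E Q
    have h2 : g2.symm (G0.mk (Q.ext (Cub f))) = G0.cls (SmR f) (SmR f ⊗[k] Q.carrier) := by
      rw [AddEquiv.symm_apply_eq]
      exact h1.symm
    have h3 := he1 0 (G0.mk Q)
    rw [map_zero, zero_add, G0.bc_mk] at h3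
    rw [AddEquiv.trans_apply, h2, h3]
  · have h3 := he1 (G0.mk M) 0
    rw [map_zero, add_zero] at h3
    rw [AddEquiv.trans_apply, ← h3]
    congr 1
    rw [AddEquiv.symm_apply_eq, inclQ_mk]
    refine (res_res_mk E.toRingEquiv (tauQ f) (tauQ_surjective f)
      (sect f : Cub f →+* MvPolynomial (Fin r) (Quo f)) (sect_surjective f) (fun b => ?_) _).symm
    obtain ⟨q, rfl⟩ := Ideal.Quotient.mk_surjective b
    have h4 := tauH_eq_sect f E0 hE1 hE2 hE3 (E0 q)
    rw [E0.symm_apply_apply] at h4
    exact h4.symm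

end Pool.Agent.GZero
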