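import Pool.Agent.GZero.Act

/-!
# Koszul matrix factorisations of a regular sequence
-/

universe u v

set_option linter.style.haveILetI false
set_option linter.unusedSectionVars false

namespace Pool.Agent.GZero

open LinearMap (ker range)
open Matrix RingTheory.Sequence
open scoped Pointwise

variable {R : Type u} [CommRing R]

section step

variable {E O : Type} [Fintype E] [Fintype O] [DecidableEq E] [DecidableEq O]
variable (Φ : Matrix O E R) (Ψ : Matrix E O R) (y f : R) (M : Type u) [AddCommGroup M] [Module R M]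

/-- The first components of a cycle form a cycle modulo `y`. -/
theorem kos_cycle (v : E ⊕ O → M)
    (hv : act M (blk Φ Ψ y f) v = 0) :
    act (QuotSMulTop y M) Φ ((Submodule.mkQ _) ∘ (v ∘ Sum.inl)) = 0 := by
  rw [act_comp]
  rw [act_blk] at hv
  funext o
  have h2 := congrFun hv (Sum.inl o)
  simp only [Sum.elim_inl, Pi.add_apply, Pi.smul_apply, Function.comp_apply, Pi.zero_apply] at h2
  rw [Function.comp_apply, Submodule.mkQ_apply, Pi.zero_apply, Submodule.Quotient.mk_eq_zero]
  rw [eq_neg_of_add_eq_zero_left h2, ← smul_neg]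
  exact Submodule.smul_mem_pointwise_smul _ _ _ trivial

/-- The map from cycles to the homology modulo `y`. -/
noncomputable def kosMap : ker (act M (blk Φ Ψ y f)) →ₗ[R]
    Hm (act (QuotSMulTop y M) Ψ) (act (QuotSMulTop y M) Φ) where
  toFun v := hcl _ _ ((Submodule.mkQ _) ∘ (v.1 ∘ Sum.inl)) (kos_cycle Φ Ψ y f M v.1 v.2)
  map_add' _ _ := rfl
  map_smul' _ _ := rfl

variable (w : R) (h₀ : Ψ * Φ = w • (1 : Matrix E E R)) (h₁ : Φ * Ψ = w • (1 : Matrix O O R))
  (hf : ∀ m : M, f • m = 0) (hy : IsSMulRegular M y) (hw : ∀ m : M, w • m = 0)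

include h₀ hf hy hw

theorem kosMap_surj : Function.Surjective (kosMap Φ Ψ y f M) := by
  intro h
  obtain ⟨abar, hab, rfl⟩ := hcl_surj _ _ h
  choose a ha using fun e => Submodule.mkQ_surjective (y • (⊤ : Submodule R M)) (abar e)
  have ha' : (Submodule.mkQ (y • (⊤ : Submodule R M))) ∘ a = abar := funext ha
  have h1 : ∀ o, ∃ b, y • b = act M Φ a o := fun o => by
    rw [← ha', act_comp] at hab
    have h2 := congrFun hab o
    rw [Function.comp_apply, Submodule.mkQ_apply, Pi.zero_apply,
      Submodule.Quotient.mk_eq_zero] at h2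
    obtain ⟨b, _, hb⟩ := (Submodule.mem_smul_pointwise_iff_exists _ _ _).1 h2
    exact ⟨b, hb⟩
  choose b hb using h1
  have hΨ : act M Ψ b = 0 := by
    have h3 : y • act M Ψ b = 0 := by
      rw [← map_smul]
      have h4 : y • b = act M Φ a := funext hb
      rw [h4, ← act_mul, h₀, act_smul_one]
      funext e
      exact hw _
    funext e
    apply hy
    have h5 := congrFun h3 e
    rw [Pi.smul_apply, Pi.zero_apply] at h5
    change y • act M Ψ b e = y • (0 : M)
    rw [h5, smul_zero]
  have hcyc : act M (blk Φ Ψ y f) (Sum.elim a (-b)) = 0 := by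
    rw [act_blk, Sum.elim_comp_inl, Sum.elim_comp_inr, map_neg, hΨ]
    funext o
    rcases o with o | e
    · rw [Sum.elim_inl, Pi.add_apply, Pi.smul_apply, Pi.neg_apply, smul_neg, hb o]
      exact add_neg_cancel _
    · rw [Sum.elim_inr, neg_zero, sub_zero, Pi.smul_apply, hf]
      rfl
  refine ⟨⟨Sum.elim a (-b), hcyc⟩, ?_⟩
  change hcl _ _ ((Submodule.mkQ _) ∘ ((Sum.elim a (-b)) ∘ Sum.inl)) _ = _
  congr 1

include h₁

theorem kosMap_ker : Submodule.comap (ker (act M (blk Φ Ψ y f))).subtype
      (range (act M (blk Ψ Φ y f))) = ker (kosMap Φ Ψ y f M) := by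
  ext v
  constructor
  · rintro ⟨c, hc⟩
    rw [LinearMap.mem_ker]
    change hcl _ _ ((Submodule.mkQ _) ∘ (v.1 ∘ Sum.inl)) _ = 0
    rw [hcl_eq_zero]
    refine ⟨(Submodule.mkQ _) ∘ (c ∘ Sum.inl), ?_⟩
    rw [act_comp]
    funext e
    have h1 : act M (blk Ψ Φ y f) c = v.1 := hc
    rw [act_blk] at h1
    have h2 := congrFun h1 (Sum.inl e)
    simp only [Sum.elim_inl, Pi.add_apply, Pi.smul_apply, Function.comp_apply] at h2
    rw [Function.comp_apply, Function.comp_apply, Function.comp_apply, ← h2, map_add]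
    have h3 : (Submodule.mkQ (y • (⊤ : Submodule R M))) (y • c (Sum.inr e)) = 0 := by
      rw [Submodule.mkQ_apply, Submodule.Quotient.mk_eq_zero]
      exact Submodule.smul_mem_pointwise_smul _ _ _ trivial
    rw [h3, add_zero]
  · intro hv
    rw [LinearMap.mem_ker] at hv
    change hcl _ _ ((Submodule.mkQ _) ∘ (v.1 ∘ Sum.inl)) _ = 0 at hv
    rw [hcl_eq_zero] at hv
    obtain ⟨cbar, hcb⟩ := hv
    choose c hc using fun e => Submodule.mkQ_surjective (y • (⊤ : Submodule R M)) (cbar e)
    have hc' : (Submodule.mkQ (y • (⊤ : Submodule R M))) ∘ c = cbar := funext hc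
    have h1 : ∀ e, ∃ a', y • a' = v.1 (Sum.inl e) - act M Ψ c e := fun e => by
      rw [← hc', act_comp] at hcb
      have h2 := congrFun hcb e
      rw [Function.comp_apply, Function.comp_apply, Function.comp_apply] at h2
      have h3 : (Submodule.mkQ (y • (⊤ : Submodule R M))) (v.1 (Sum.inl e) - act M Ψ c e) = 0 := by
        rw [map_sub, h2, sub_self]
      rw [Submodule.mkQ_apply, Submodule.Quotient.mk_eq_zero] at h3
      obtain ⟨b, _, hb⟩ := (Submodule.mem_smul_pointwise_iff_exists _ _ _).1 h3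
      exact ⟨b, hb⟩
    choose a' ha' using h1
    have ha : v.1 ∘ Sum.inl = act M Ψ c + y • a' := by
      funext e
      rw [Function.comp_apply, Pi.add_apply, Pi.smul_apply, ha' e]
      abel
    have hv0 : act M (blk Φ Ψ y f) v.1 = 0 := v.2
    rw [act_blk] at hv0
    have hb : v.1 ∘ Sum.inr = - act M Φ a' := by
      funext o
      apply hy
      have h2 := congrFun hv0 (Sum.inl o)
      rw [Sum.elim_inl, ha, map_add, ← act_mul, h₁, act_smul_one, map_smul, Pi.add_apply,
        Pi.add_apply, Pi.smul_apply, Pi.smul_apply, Pi.smul_apply, hw, zero_add,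
        Pi.zero_apply] at h2
      change y • (v.1 ∘ Sum.inr) o = y • (- act M Φ a') o
      rw [Pi.neg_apply, smul_neg]
      exact eq_neg_of_add_eq_zero_right h2
    refine ⟨Sum.elim c a', ?_⟩
    change act M (blk Ψ Φ y f) (Sum.elim c a') = v.1
    rw [act_blk, Sum.elim_comp_inl, Sum.elim_comp_inr]
    funext o
    rcases o with e | o
    · have h2 := congrFun ha e
      rw [Function.comp_apply] at h2
      rw [h2]
      rfl
    · have h2 := congrFun hb o
      rw [Function.comp_apply] at h2
      rw [h2, Sum.elim_inr, Pi.sub_apply, Pi.smul_apply, hf, zero_sub]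
      rfl

/-- The homology of `X.cons y f` is the homology of `X` modulo `y`. -/
noncomputable def kosEquiv' : Hm (act M (blk Ψ Φ y f)) (act M (blk Φ Ψ y f)) ≃ₗ[R]
    Hm (act (QuotSMulTop y M) Ψ) (act (QuotSMulTop y M) Φ) :=
  (Submodule.quotEquivOfEq _ _ (kosMap_ker Φ Ψ y f M w h₀ h₁ hf hy hw)).trans
    ((kosMap Φ Ψ y f M).quotKerEquivOfSurjective (kosMap_surj Φ Ψ y f M w h₀ hf hy hw))

end step

/-- The homology of `X.cons y f` is the homology of `X` modulo `y`. -/
noncomputable def kosEquiv {w : R} (X : MF R w) (y f : R) (M : Type u) [AddCommGroup M]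
    [Module R M] (hf : ∀ m : M, f • m = 0) (hy : IsSMulRegular M y)
    (hw : ∀ m : M, w • m = 0) : (X.cons y f).H M ≃ₗ[R] X.H (QuotSMulTop y M) :=
  kosEquiv' X.Φ X.Ψ y f M w X.h₀ X.h₁ hf hy hw


/-- The potential `∑ y f` of a list of pairs. -/
def wL : List (R × R) → R
  | [] => 0
  | p :: L => wL L + p.1 * p.2

/-- The Koszul matrix factorisation of a list of pairs. -/
def XL : (L : List (R × R)) → MF R (wL L)
  | [] => MF.nil R
  | p :: L => (XL L).cons p.1 p.2

theorem XL_null (L : List (R × R)) (p : R × R) (hp : p ∈ L) :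
    (XL L).Null p.1 ∧ (XL L).Null p.2 := by
  induction L with
  | nil => exact absurd hp List.not_mem_nil
  | cons q L ih =>
    rcases List.mem_cons.1 hp with rfl | h
    · exact ⟨MF.null_fst _ _ _, MF.null_snd _ _ _⟩
    · exact ⟨(ih h).1.cons _ _, (ih h).2.cons _ _⟩

theorem wL_smul (L : List (R × R)) (M : Type u) [AddCommGroup M] [Module R M]
    (hf : ∀ p ∈ L, ∀ m : M, p.2 • m = 0) (m : M) : wL L • m = 0 := by
  induction L with
  | nil => exact zero_smul _ _
  | cons q L ih =>
    change (wL L + q.1 * q.2) • m = 0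
    rw [add_smul, ih (fun p hp => hf p (List.mem_cons_of_mem _ hp)), zero_add, mul_smul,
      hf q List.mem_cons_self, smul_zero]

theorem XL_homology (L : List (R × R)) : ∀ (M : Type u) [AddCommGroup M] [Module R M],
    (∀ p ∈ L, ∀ m : M, p.2 • m = 0) → IsWeaklyRegular M (L.map Prod.fst) →
    Nonempty ((XL L).H M ≃ₗ[R] M ⧸ (Ideal.ofList (L.map Prod.fst) • (⊤ : Submodule R M))) ∧
    Subsingleton ((XL L).op.H M) := by
  induction L with
  | nil =>
    intro M _ _ _ _
    constructor
    · have e1 : ((XL ([] : List (R × R))).H M) ≃ₗ[R] (Unit → M) := by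
        have h1 : ker (act M (XL ([] : List (R × R))).Φ) = ⊤ := by
          rw [eq_top_iff]
          intro v _
          rw [LinearMap.mem_ker]
          funext o
          exact o.elim
        have h2 : Submodule.comap (ker (act M (XL ([] : List (R × R))).Φ)).subtype
            (range (act M (XL ([] : List (R × R))).Ψ)) = ⊥ := by
          rw [eq_bot_iff]
          rintro ⟨v, hv⟩ ⟨c, hc⟩
          rw [Submodule.mem_bot]
          apply Subtype.ext
          have h3 : c = 0 := by
            funext o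
            exact o.elim
          rw [h3, map_zero] at hc
          exact hc.symm
        exact (Submodule.quotEquivOfEqBot _ h2).trans
          ((LinearEquiv.ofEq _ _ h1).trans Submodule.topEquiv)
      have e2 : (Unit → M) ≃ₗ[R] M := LinearEquiv.funUnique Unit R M
      have h4 : Ideal.ofList (([] : List (R × R)).map Prod.fst) • (⊤ : Submodule R M) = ⊥ := by
        rw [List.map_nil, Ideal.ofList_nil, Submodule.bot_smul]
      exact ⟨(e1.trans e2).trans (Submodule.quotEquivOfEqBot _ h4).symm⟩
    · refine ⟨fun a b => ?_⟩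
      obtain ⟨x, hx, rfl⟩ := hcl_surj _ _ a
      obtain ⟨x', hx', rfl⟩ := hcl_surj _ _ b
      congr 1
      funext o
      exact o.elim
  | cons q L ih =>
    intro M _ _ hf hreg
    rw [List.map_cons, isWeaklyRegular_cons_iff] at hreg
    obtain ⟨hy, hreg'⟩ := hreg
    have hfq : ∀ m : M, q.2 • m = 0 := hf q List.mem_cons_self
    have hfL : ∀ p ∈ L, ∀ m : M, p.2 • m = 0 := fun p hp => hf p (List.mem_cons_of_mem _ hp)
    have hfL' : ∀ p ∈ L, ∀ m : QuotSMulTop q.1 M, p.2 • m = 0 := fun p hp m => by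
      obtain ⟨m, rfl⟩ := Submodule.mkQ_surjective _ m
      rw [← map_smul, hfL p hp, map_zero]
    obtain ⟨⟨e1⟩, hs⟩ := ih (QuotSMulTop q.1 M) hfL' hreg'
    have hw := wL_smul L M hfL
    constructor
    · exact ⟨((kosEquiv (XL L) q.1 q.2 M hfq hy hw).trans e1).trans
        (Submodule.quotOfListConsSMulTopEquivQuotSMulTopInner M q.1 (L.map Prod.fst)).symm⟩
    · exact (kosEquiv (XL L).op q.1 q.2 M hfq hy hw).toEquiv.subsingleton

end Pool.Agent.GZero
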