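import Pool.Agent.GZero.Euler

/-!
# Matrix factorisations

`MF R w` is a pair of matrices `Φ`, `Ψ` over `R` with `Ψ Φ = w` and `Φ Ψ = w`. A pair `(y, f)` of
elements of `R` gives the matrix factorisation `X.cons y f` of `w + y f`.
-/

universe u v

set_option linter.style.haveILetI false

namespace Pool.Agent.GZero

open LinearMap (ker range)
open Matrix

variable {R : Type u} [CommRing R]

/-- A matrix factorisation of `w`. -/
structure MF (R : Type u) [CommRing R] (w : R) where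
  /-- even indices -/
  E : Type
  /-- odd indices -/
  O : Type
  [fE : Fintype E]
  [fO : Fintype O]
  [dE : DecidableEq E]
  [dO : DecidableEq O]
  /-- from even to odd -/
  Φ : Matrix O E R
  /-- from odd to even -/
  Ψ : Matrix E O R
  h₀ : Ψ * Φ = w • (1 : Matrix E E R)
  h₁ : Φ * Ψ = w • (1 : Matrix O O R)

attribute [instance] MF.fE MF.fO MF.dE MF.dO

/-- Exchange of even and odd. -/
def MF.op {w : R} (X : MF R w) : MF R w where
  E := X.O
  O := X.E
  Φ := X.Ψ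
  Ψ := X.Φ
  h₀ := X.h₁
  h₁ := X.h₀

/-- The trivial matrix factorisation of `0`. -/
def MF.nil (R : Type u) [CommRing R] : MF R 0 where
  E := Unit
  O := Empty
  Φ := 0
  Ψ := 0
  h₀ := by simp
  h₁ := by simp

section blocks

variable {E O : Type} [Fintype E] [Fintype O] [DecidableEq E] [DecidableEq O]

/-- The block matrix of the tensor product with the pair `(y, f)`. -/
def blk (Φ : Matrix O E R) (Ψ : Matrix E O R) (y f : R) : Matrix (O ⊕ E) (E ⊕ O) R :=
  fromBlocks Φ (y • 1) (f • 1) (-Ψ)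

theorem blk_mul (Φ : Matrix O E R) (Ψ : Matrix E O R) (y f w : R)
    (h₀ : Ψ * Φ = w • (1 : Matrix E E R)) (h₁ : Φ * Ψ = w • (1 : Matrix O O R)) :
    blk Ψ Φ y f * blk Φ Ψ y f = (w + y * f) • (1 : Matrix (E ⊕ O) (E ⊕ O) R) := by
  unfold blk
  rw [fromBlocks_multiply, ← fromBlocks_one, fromBlocks_smul]
  congr 1
  · rw [h₀, smul_mul_smul_comm, one_mul, ← add_smul]
  · simp
  · simp
  · rw [Matrix.neg_mul, Matrix.mul_neg, neg_neg, h₁, smul_mul_smul_comm, one_mul, ← add_smul,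
      add_comm w, mul_comm f y]

/-- The homotopy for `y`. -/
def hoY (R : Type u) [CommRing R] (E O : Type) [DecidableEq E] : Matrix (O ⊕ E) (E ⊕ O) R :=
  fromBlocks 0 0 1 0

/-- The homotopy for `f`. -/
def hoF (R : Type u) [CommRing R] (E O : Type) [DecidableEq O] : Matrix (O ⊕ E) (E ⊕ O) R :=
  fromBlocks 0 1 0 0

theorem blk_fst (Φ : Matrix O E R) (Ψ : Matrix E O R) (y f : R) :
    blk Ψ Φ y f * hoY R E O + hoY R O E * blk Φ Ψ y f =
      y • (1 : Matrix (E ⊕ O) (E ⊕ O) R) := by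
  unfold blk hoY
  rw [fromBlocks_multiply, fromBlocks_multiply, fromBlocks_add, ← fromBlocks_one,
    fromBlocks_smul]
  congr 1 <;> simp

theorem blk_snd (Φ : Matrix O E R) (Ψ : Matrix E O R) (y f : R) :
    blk Ψ Φ y f * hoF R E O + hoF R O E * blk Φ Ψ y f =
      f • (1 : Matrix (E ⊕ O) (E ⊕ O) R) := by
  unfold blk hoF
  rw [fromBlocks_multiply, fromBlocks_multiply, fromBlocks_add, ← fromBlocks_one,
    fromBlocks_smul]
  congr 1 <;> simp

theorem blk_old (Φ : Matrix O E R) (Ψ : Matrix E O R) (y f s : R) (a : Matrix O E R)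
    (a' : Matrix E O R) (h1 : Ψ * a + a' * Φ = s • (1 : Matrix E E R))
    (h2 : Φ * a' + a * Ψ = s • (1 : Matrix O O R)) :
    blk Ψ Φ y f * fromBlocks a 0 0 (-a') + fromBlocks a' 0 0 (-a) * blk Φ Ψ y f =
      s • (1 : Matrix (E ⊕ O) (E ⊕ O) R) := by
  unfold blk
  rw [fromBlocks_multiply, fromBlocks_multiply, fromBlocks_add, ← fromBlocks_one,
    fromBlocks_smul]
  congr 1
  · simpa using h1
  · simp
  · simp
  · simpa using h2

end blocks

/-- The matrix factorisation of `w + y f`. -/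
def MF.cons {w : R} (X : MF R w) (y f : R) : MF R (w + y * f) where
  E := X.E ⊕ X.O
  O := X.O ⊕ X.E
  Φ := blk X.Φ X.Ψ y f
  Ψ := blk X.Ψ X.Φ y f
  h₀ := blk_mul X.Φ X.Ψ y f w X.h₀ X.h₁
  h₁ := blk_mul X.Ψ X.Φ y f w X.h₁ X.h₀

theorem MF.cons_op {w : R} (X : MF R w) (y f : R) : (X.cons y f).op = X.op.cons y f := rfl

/-- `s` is homotopic to zero. -/
def MF.Null {w : R} (X : MF R w) (s : R) : Prop :=
  ∃ (a : Matrix X.O X.E R) (a' : Matrix X.E X.O R),
    X.Ψ * a + a' * X.Φ = s • (1 : Matrix X.E X.E R) ∧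
    X.Φ * a' + a * X.Ψ = s • (1 : Matrix X.O X.O R)

theorem MF.Null.op {w : R} {X : MF R w} {s : R} (h : X.Null s) : X.op.Null s := by
  obtain ⟨a, a', h1, h2⟩ := h
  exact ⟨a', a, h2, h1⟩

theorem MF.null_fst {w : R} (X : MF R w) (y f : R) : (X.cons y f).Null y :=
  ⟨hoY R X.E X.O, hoY R X.O X.E, blk_fst X.Φ X.Ψ y f, blk_fst X.Ψ X.Φ y f⟩

theorem MF.null_snd {w : R} (X : MF R w) (y f : R) : (X.cons y f).Null f :=
  ⟨hoF R X.E X.O, hoF R X.O X.E, blk_snd X.Φ X.Ψ y f, blk_snd X.Ψ X.Φ y f⟩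

theorem MF.Null.cons {w : R} {X : MF R w} {s : R} (h : X.Null s) (y f : R) :
    (X.cons y f).Null s := by
  obtain ⟨a, a', h1, h2⟩ := h
  exact ⟨fromBlocks a 0 0 (-a'), fromBlocks a' 0 0 (-a), blk_old X.Φ X.Ψ y f s a a' h1 h2,
    blk_old X.Ψ X.Φ y f s a' a h2 h1⟩

end Pool.Agent.GZero
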