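import Pool.Agent.GZero.Kos

/-!
# The variables form a weakly regular sequence on `N[y_1, …, y_r]`
-/

universe u v

set_option linter.style.haveILetI false
set_option linter.unusedSectionVars false

namespace Pool.Agent.GZero

open LinearMap (ker range)
open RingTheory.Sequence TensorProduct
open MvPolynomial (X C)
open scoped Pointwise

variable {A : Type u} [CommRing A] {r : ℕ} (N : Type u) [AddCommGroup N] [Module A N]

/-- `N[y_1, …, y_r]`. -/
abbrev PM (A : Type u) [CommRing A] (r : ℕ) (N : Type u) [AddCommGroup N] [Module A N] : Type u :=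
  (MvPolynomial (Fin r) A) ⊗[A] N

/-- The list of the variables. -/
noncomputable def vars (A : Type u) [CommRing A] (r : ℕ) : List (MvPolynomial (Fin r) A) :=
  List.ofFn fun i => X i

/-- Division by a variable. -/
noncomputable def divX (A : Type u) [CommRing A] {r : ℕ} (i : Fin r) :
    MvPolynomial (Fin r) A →ₗ[A] MvPolynomial (Fin r) A where
  toFun p := p.divMonomial (Finsupp.single i 1)
  map_add' p q := MvPolynomial.add_divMonomial _ _ _
  map_smul' a p := by
    ext m
    rw [MvPolynomial.coeff_divMonomial, MvPolynomial.coeff_smul, RingHom.id_apply,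
      MvPolynomial.coeff_smul, MvPolynomial.coeff_divMonomial]

theorem smul_injective (i : Fin r) :
    IsSMulRegular (PM A r N) (X i : MvPolynomial (Fin r) A) := by
  have h : ∀ x : PM A r N, LinearMap.rTensor N (divX A i) ((X i : MvPolynomial (Fin r) A) • x) = x := by
    intro x
    induction x using TensorProduct.induction_on with
    | zero => simp
    | tmul s n =>
      rw [TensorProduct.smul_tmul', LinearMap.rTensor_tmul, smul_eq_mul]
      congr 1
      exact MvPolynomial.X_mul_divMonomial i s
    | add x y hx hy => rw [smul_add, map_add, hx, hy]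
  intro x y hxy
  rw [← h x, ← h y]
  exact congrArg _ hxy

/-- The first `k` variables are replaced by zero. -/
noncomputable def killA (A : Type u) [CommRing A] (r k : ℕ) :
    MvPolynomial (Fin r) A →ₐ[A] MvPolynomial (Fin r) A :=
  MvPolynomial.aeval fun j => if j.val < k then 0 else X j

/-- The first `k` variables are replaced by zero. -/
noncomputable def kill (A : Type u) [CommRing A] (r k : ℕ) (N : Type u) [AddCommGroup N]
    [Module A N] : PM A r N →ₗ[A] PM A r N :=
  LinearMap.rTensor N (killA A r k).toLinearMap

theorem kill_tmul (k : ℕ) (s : MvPolynomial (Fin r) A) (n : N) :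
    kill A r k N (s ⊗ₜ n) = killA A r k s ⊗ₜ n := by
  unfold kill
  rw [LinearMap.rTensor_tmul]
  rfl

theorem kill_smul (k : ℕ) (s : MvPolynomial (Fin r) A) (x : PM A r N) :
    kill A r k N (s • x) = killA A r k s • kill A r k N x := by
  induction x using TensorProduct.induction_on with
  | zero => simp
  | tmul s' n =>
    rw [TensorProduct.smul_tmul', kill_tmul, kill_tmul, TensorProduct.smul_tmul', smul_eq_mul,
      smul_eq_mul, map_mul]
  | add x y hx hy => rw [smul_add, map_add, hx, hy, map_add, smul_add]

/-- The ideal generated by the first `k` variables. -/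
noncomputable def idl (A : Type u) [CommRing A] (r k : ℕ) : Ideal (MvPolynomial (Fin r) A) :=
  Ideal.ofList ((vars A r).take k)

theorem X_mem_idl (k : ℕ) (j : Fin r) (hj : j.val < k) : (X j : MvPolynomial (Fin r) A) ∈ idl A r k := by
  apply Ideal.subset_span
  change X j ∈ (vars A r).take k
  rw [List.mem_take_iff_getElem]
  refine ⟨j.val, ?_, ?_⟩
  · simp [vars, hj]
  · simp [vars]

theorem killA_mem (k : ℕ) (s : MvPolynomial (Fin r) A) (hs : s ∈ idl A r k) :
    killA A r k s = 0 := by
  have h1 : idl A r k ≤ RingHom.ker (killA A r k) := by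
    unfold idl Ideal.ofList
    rw [Ideal.span_le]
    intro s hs
    change s ∈ (vars A r).take k at hs
    rw [List.mem_take_iff_getElem] at hs
    obtain ⟨j, hj, rfl⟩ := hs
    have hj' : j < r := by
      have := hj
      simp [vars] at this
      exact this.2
    have hj'' : j < k := by
      have := hj
      simp [vars] at this
      exact this.1
    have h2 : (vars A r)[j]'(by simpa [vars] using hj') = X ⟨j, hj'⟩ := by
      simp [vars]
    rw [SetLike.mem_coe, RingHom.mem_ker, h2]
    unfold killA
    rw [MvPolynomial.aeval_X, if_pos hj'']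
  exact h1 hs

theorem sub_killA (k : ℕ) (s : MvPolynomial (Fin r) A) : s - killA A r k s ∈ idl A r k := by
  induction s using MvPolynomial.induction_on with
  | C a =>
    have : killA A r k (C a) = C a := by
      unfold killA
      rw [MvPolynomial.aeval_C]
      rfl
    rw [this, sub_self]
    exact Ideal.zero_mem _
  | add p q hp hq =>
    have : p + q - killA A r k (p + q) = (p - killA A r k p) + (q - killA A r k q) := by
      rw [map_add]; ring
    rw [this]
    exact Ideal.add_mem _ hp hq
  | mul_X p j hp =>
    have h1 : X j - killA A r k (X j) ∈ idl A r k := by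
      unfold killA
      rw [MvPolynomial.aeval_X]
      split
      · rename_i hj
        rw [sub_zero]
        exact X_mem_idl k j hj
      · rw [sub_self]
        exact Ideal.zero_mem _
    have : p * X j - killA A r k (p * X j) =
        (p - killA A r k p) * X j + killA A r k p * (X j - killA A r k (X j)) := by
      rw [map_mul]; ring
    rw [this]
    exact Ideal.add_mem _ (Ideal.mul_mem_right _ _ hp) (Ideal.mul_mem_left _ _ h1)

theorem sub_kill (k : ℕ) (x : PM A r N) :
    x - kill A r k N x ∈ (idl A r k • ⊤ : Submodule (MvPolynomial (Fin r) A) (PM A r N)) := by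
  induction x using TensorProduct.induction_on with
  | zero => simp
  | tmul s n =>
    rw [kill_tmul, ← TensorProduct.sub_tmul]
    have h : (s - killA A r k s) ⊗ₜ[A] n = (s - killA A r k s) • ((1 : MvPolynomial (Fin r) A) ⊗ₜ[A] n) := by
      rw [TensorProduct.smul_tmul', smul_eq_mul, mul_one]
    rw [h]
    exact Submodule.smul_mem_smul (sub_killA k s) trivial
  | add x y hx hy =>
    have : x + y - kill A r k N (x + y) = (x - kill A r k N x) + (y - kill A r k N y) := by
      rw [map_add]; abel
    rw [this]
    exact Submodule.add_mem _ hx hy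

theorem mem_idl_smul (k : ℕ) (x : PM A r N) :
    x ∈ (idl A r k • ⊤ : Submodule (MvPolynomial (Fin r) A) (PM A r N)) ↔ kill A r k N x = 0 := by
  constructor
  · intro hx
    induction hx using Submodule.smul_induction_on' with
    | smul s hs n _ => rw [kill_smul, killA_mem k s hs, zero_smul]
    | add x _ y _ hx hy => rw [map_add, hx, hy, add_zero]
  · intro hx
    have := sub_kill N k x
    rwa [hx, sub_zero] at this

theorem vars_weaklyRegular : IsWeaklyRegular (PM A r N) (vars A r) := by
  refine ⟨fun i hi => ?_⟩
  have hi' : i < r := by simpa [vars] using hi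
  have h2 : (vars A r)[i] = X ⟨i, hi'⟩ := by simp [vars]
  rw [h2, isSMulRegular_quotient_iff_mem_of_smul_mem]
  intro x hx
  change x ∈ (idl A r i • ⊤ : Submodule (MvPolynomial (Fin r) A) (PM A r N))
  change _ ∈ (idl A r i • ⊤ : Submodule (MvPolynomial (Fin r) A) (PM A r N)) at hx
  rw [mem_idl_smul] at hx ⊢
  rw [kill_smul] at hx
  have h3 : killA A r i (X ⟨i, hi'⟩) = X ⟨i, hi'⟩ := by
    unfold killA
    rw [MvPolynomial.aeval_X, if_neg (lt_irrefl i)]
  rw [h3] at hx
  apply smul_injective N ⟨i, hi'⟩
  change _ = (X ⟨i, hi'⟩ : MvPolynomial (Fin r) A) • (0 : PM A r N)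
  rw [smul_zero]
  exact hx

/-- The constant term. -/
noncomputable def constC (A : Type u) [CommRing A] (r : ℕ) (N : Type u) [AddCommGroup N]
    [Module A N] : PM A r N →ₗ[A] N :=
  (TensorProduct.lid A N).toLinearMap.comp
    (LinearMap.rTensor N (MvPolynomial.aeval (fun _ : Fin r => (0 : A))).toLinearMap)

theorem constC_tmul (s : MvPolynomial (Fin r) A) (n : N) :
    constC A r N (s ⊗ₜ n) = MvPolynomial.aeval (fun _ : Fin r => (0 : A)) s • n := by
  unfold constC
  rw [LinearMap.comp_apply, LinearMap.rTensor_tmul]
  rfl

theorem constC_smul (s : MvPolynomial (Fin r) A) (x : PM A r N) :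
    constC A r N (s • x) = MvPolynomial.aeval (fun _ : Fin r => (0 : A)) s • constC A r N x := by
  induction x using TensorProduct.induction_on with
  | zero => simp
  | tmul s' n =>
    rw [TensorProduct.smul_tmul', constC_tmul, constC_tmul, smul_eq_mul, map_mul, mul_smul]
  | add x y hx hy => rw [smul_add, map_add, hx, hy, map_add, smul_add]

theorem constC_surjective : Function.Surjective (constC A r N) := fun n => by
  refine ⟨1 ⊗ₜ n, ?_⟩
  rw [constC_tmul, map_one, one_smul]

theorem killA_all (s : MvPolynomial (Fin r) A) :
    killA A r r s = C (MvPolynomial.aeval (fun _ : Fin r => (0 : A)) s) := by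
  have h : killA A r r = (Algebra.ofId A (MvPolynomial (Fin r) A)).comp
      (MvPolynomial.aeval (fun _ : Fin r => (0 : A))) := by
    ext j
    unfold killA
    simp
  rw [h]
  rfl

theorem kill_all (x : PM A r N) : kill A r r N x = 1 ⊗ₜ constC A r N x := by
  induction x using TensorProduct.induction_on with
  | zero => simp
  | tmul s n =>
    rw [kill_tmul, constC_tmul, killA_all, TensorProduct.tmul_smul, TensorProduct.smul_tmul']
    congr 1
    rw [MvPolynomial.smul_eq_C_mul, mul_one]
  | add x y hx hy => rw [map_add, hx, hy, map_add, TensorProduct.tmul_add]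

theorem constC_ker (x : PM A r N) : constC A r N x = 0 ↔
    x ∈ (Ideal.ofList (vars A r) • ⊤ : Submodule (MvPolynomial (Fin r) A) (PM A r N)) := by
  have h1 : idl A r r = Ideal.ofList (vars A r) := by
    unfold idl
    rw [List.take_of_length_le (by simp [vars])]
  rw [← h1, mem_idl_smul, kill_all]
  constructor
  · intro h
    rw [h, TensorProduct.tmul_zero]
  · intro h
    have h2 := congrArg (constC A r N) h
    rwa [constC_tmul, map_one, one_smul, map_zero] at h2

end Pool.Agent.GZero
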