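import Pool.Agent.GZero.Sus2

/-!
# The ring `P[z][y_1, …, y_r] / (∑ y_l f_l + z - z^2)`
-/

universe u v w

set_option linter.style.haveILetI false
set_option linter.unusedSectionVars false

namespace Pool.Agent.GZero

open LinearMap (ker range)
open RingTheory.Sequence TensorProduct Polynomial

variable {P : Type u} [CommRing P] {r : ℕ} (f : Fin r → P)

/-- The equation `∑ y f + z - z^2`. -/
noncomputable def smW : MvPolynomial (Fin r) P[X] :=
  pairing (fun l => (C (f l) : P[X])) + MvPolynomial.C (X - X ^ 2)

theorem eval_smW {B : Type v} [CommRing B] (g : P[X] →+* B) (Y : Fin r → B) :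
    MvPolynomial.eval₂Hom g Y (smW f) = ∑ l, Y l * g (C (f l)) + (g X - g X ^ 2) := by
  unfold smW
  rw [map_add, eval_pairing, MvPolynomial.eval₂Hom_C, map_sub, map_pow]

/-- The ring `P[z][y] / (∑ y f + z - z^2)`. -/
abbrev SmR : Type u := HR (smW f)

/-- The element `z`. -/
noncomputable def SmR.z : SmR f := HR.c (smW f) X

/-- The elements `y_l`. -/
noncomputable def SmR.y (l : Fin r) : SmR f := HR.x (smW f) l

/-- The elements of `P`. -/
noncomputable def SmR.b : P →+* SmR f := (HR.c (smW f)).comp C

theorem SmR.rel : ∑ l : Fin r, SmR.y f l * SmR.b f (f l) + (SmR.z f - SmR.z f ^ 2) = 0 := by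
  have h := eval_smW f (HR.c (smW f)) (HR.x (smW f))
  have h2 : MvPolynomial.eval₂Hom (HR.c (smW f)) (HR.x (smW f)) =
      Ideal.Quotient.mk (Ideal.span {smW f}) := by
    apply MvPolynomial.ringHom_ext
    · intro a
      exact MvPolynomial.eval₂_C _ _ a
    · intro i
      exact MvPolynomial.eval₂_X _ _ i
  have h3 : (Ideal.Quotient.mk (Ideal.span {smW f})) (smW f) = 0 :=
    Ideal.Quotient.eq_zero_iff_mem.2 (Ideal.subset_span rfl)
  rw [h2, h3] at h
  exact h.symm

/-- The homomorphisms from `SmR f`. -/
noncomputable def SmR.lift {B : Type v} [CommRing B] (g : P →+* B) (z : B) (Y : Fin r → B)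
    (h : ∑ l : Fin r, Y l * g (f l) + (z - z ^ 2) = 0) : SmR f →+* B :=
  HR.lift (Polynomial.eval₂RingHom g z) Y (by
    rw [eval_smW]
    simpa using h)

section liftlemmas

variable {B : Type v} [CommRing B] (g : P →+* B) (z : B) (Y : Fin r → B)
    (h : ∑ l : Fin r, Y l * g (f l) + (z - z ^ 2) = 0)

theorem SmR.lift_y (l : Fin r) : SmR.lift f g z Y h (SmR.y f l) = Y l := HR.lift_x _ _ _ _

theorem SmR.lift_z : SmR.lift f g z Y h (SmR.z f) = z := by
  refine (HR.lift_c _ _ _ _).trans ?_
  simp

theorem SmR.lift_b (a : P) : SmR.lift f g z Y h (SmR.b f a) = g a := by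
  refine (HR.lift_c _ _ _ _).trans ?_
  simp

end liftlemmas

/-- The homomorphism `y ↦ s y`. -/
noncomputable def jH : SusR f →+* (SmR f)[X] :=
  SusR.lift f (C.comp (SmR.b f)) (C (SmR.z f)) (Fin.cons X (fun l => C (SmR.y f l) * X)) (by
    have h : ∑ l : Fin r, (Fin.cons X (fun l => C (SmR.y f l) * X) :
        Fin (r + 1) → (SmR f)[X]) l.succ * (C.comp (SmR.b f)) (f l) =
        X * C (∑ l : Fin r, SmR.y f l * SmR.b f (f l)) := by
      rw [map_sum, Finset.mul_sum]
      refine Finset.sum_congr rfl fun l _ => ?_
      rw [Fin.cons_succ, RingHom.comp_apply, map_mul]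
      ring
    rw [h, Fin.cons_zero, ← C_pow, ← C_sub, ← mul_add, ← C_add]
    have h2 : SmR.z f - SmR.z f ^ 2 + ∑ l : Fin r, SmR.y f l * SmR.b f (f l) = 0 := by
      linear_combination SmR.rel f
    rw [h2, C_0, mul_zero])

theorem jH_z : jH f (SusR.z f) = C (SmR.z f) := SusR.lift_z _ _ _ _ _
theorem jH_b (a : P) : jH f (SusR.b f a) = C (SmR.b f a) := SusR.lift_b _ _ _ _ _ _
theorem jH_s : jH f (SusR.s f) = X := SusR.lift_s _ _ _ _ _
theorem jH_y (l : Fin r) : jH f (SusR.y f l) = C (SmR.y f l) * X := SusR.lift_y _ _ _ _ _ _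

theorem jH_c (p : P[X]) : jH f (HR.c (susW f) p) = C (HR.c (smW f) p) := by
  have h : (jH f).comp (HR.c (susW f)) = C.comp (HR.c (smW f)) := by
    apply Polynomial.ringHom_ext
    · intro a
      exact jH_b f a
    · exact jH_z f
  exact RingHom.congr_fun h p

/-- Every element becomes homogeneous after multiplication by a power of the variable. -/
theorem exists_jH (v : (SmR f)[X]) : ∃ (k : ℕ) (b : SusR f), jH f b = X ^ k * v := by
  have hadd : ∀ v v' : (SmR f)[X], (∃ (k : ℕ) (b : SusR f), jH f b = X ^ k * v) →
      (∃ (k : ℕ) (b : SusR f), jH f b = X ^ k * v') →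
      ∃ (k : ℕ) (b : SusR f), jH f b = X ^ k * (v + v') := by
    rintro v v' ⟨k, b, hb⟩ ⟨k', b', hb'⟩
    refine ⟨k + k', SusR.s f ^ k' * b + SusR.s f ^ k * b', ?_⟩
    rw [map_add, map_mul, map_mul, map_pow, map_pow, jH_s, hb, hb', pow_add]
    ring
  induction v using Polynomial.induction_on with
  | C u =>
    induction u using HR.induction (smW f) with
    | hc a => exact ⟨0, HR.c (susW f) a, by rw [jH_c, pow_zero, one_mul]⟩
    | ha x y hx hy =>
      rw [map_add]
      exact hadd _ _ hx hy
    | hm x i hx =>
      obtain ⟨k, b, hb⟩ := hx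
      refine ⟨k + 1, b * SusR.y f i, ?_⟩
      rw [map_mul, hb, jH_y, map_mul, pow_succ]
      change X ^ k * C x * (C (SmR.y f i) * X) = X ^ k * X * (C x * C (SmR.y f i))
      ring
  | add p q hp hq => exact hadd _ _ hp hq
  | monomial n a h =>
    obtain ⟨k, b, hb⟩ := h
    refine ⟨k, b * SusR.s f, ?_⟩
    rw [map_mul, hb, jH_s, pow_succ]
    ring

/-- The module `M[X]` over `SusR f`. -/
@[reducible] noncomputable def wMod (M : Type u) [AddCommGroup M] [Module (SmR f) M] :
    Module (SusR f) (PolynomialModule (SmR f) M) :=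
  Module.compHom _ (jH f)

theorem single_span {S M : Type u} [CommRing S] [AddCommGroup M] [Module S M] (t : Set M)
    (ht : Submodule.span S t = ⊤) :
    Submodule.span S[X] ((fun m => PolynomialModule.single S 0 m) '' t) = ⊤ := by
  rw [eq_top_iff]
  intro x _
  induction x using PolynomialModule.induction_linear with
  | zero => exact Submodule.zero_mem _
  | add x y hx hy => exact Submodule.add_mem _ (hx trivial) (hy trivial)
  | single n m =>
    have hm : m ∈ Submodule.span S t := by rw [ht]; trivial
    refine Submodule.span_induction (p := fun m _ => PolynomialModule.single S n m ∈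
      Submodule.span S[X] ((fun m => PolynomialModule.single S 0 m) '' t))
      ?_ ?_ ?_ ?_ hm
    · intro m hm
      have h := PolynomialModule.monomial_smul_single (R := S) n (1 : S) 0 m
      rw [one_smul, add_zero] at h
      rw [← h]
      exact Submodule.smul_mem _ _ (Submodule.subset_span ⟨m, hm, rfl⟩)
    · rw [PolynomialModule.single_zero]
      exact Submodule.zero_mem _
    · intro x y _ _ hx hy
      rw [PolynomialModule.single_add]
      exact Submodule.add_mem _ hx hy
    · intro a x _ hx
      have h := PolynomialModule.monomial_smul_single (R := S) 0 a n x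
      rw [zero_add] at h
      rw [← h]
      exact Submodule.smul_mem _ _ hx

/-- A submodule which contains generators of degree zero is a lattice. -/
theorem cofinal (M : Type u) [AddCommGroup M] [Module (SmR f) M] (t : Set M)
    (ht : Submodule.span (SmR f) t = ⊤) :
    letI := wMod f M
    ∀ (H : Submodule (SusR f) (PolynomialModule (SmR f) M)),
      (∀ m ∈ t, PolynomialModule.single (SmR f) 0 m ∈ H) →
      ∀ x : PolynomialModule (SmR f) M, ∃ n : ℕ, SusR.s f ^ n • x ∈ H := by
  letI := wMod f M
  intro H hH x
  have hx : x ∈ Submodule.span (SmR f)[X]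
      ((fun m => PolynomialModule.single (SmR f) 0 m) '' t) := by
    rw [single_span t ht]
    trivial
  refine Submodule.span_induction (p := fun x _ => ∃ n : ℕ, SusR.s f ^ n • x ∈ H)
    ?_ ?_ ?_ ?_ hx
  · rintro _ ⟨m, hm, rfl⟩
    exact ⟨0, by rw [pow_zero, one_smul]; exact hH m hm⟩
  · exact ⟨0, by rw [smul_zero]; exact Submodule.zero_mem _⟩
  · rintro x y _ _ ⟨n, hn⟩ ⟨n', hn'⟩
    refine ⟨n + n', ?_⟩
    rw [smul_add]
    refine Submodule.add_mem _ ?_ ?_
    · rw [add_comm n n', pow_add, mul_smul]
      exact Submodule.smul_mem _ _ hn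
    · rw [pow_add, mul_smul]
      exact Submodule.smul_mem _ _ hn'
  · rintro v x _ ⟨n, hn⟩
    obtain ⟨k, b, hb⟩ := exists_jH f v
    refine ⟨k + n, ?_⟩
    have h1 : SusR.s f ^ (k + n) • v • x = b • SusR.s f ^ n • x := by
      change jH f (SusR.s f ^ (k + n)) • v • x = jH f b • jH f (SusR.s f ^ n) • x
      rw [hb, map_pow, map_pow, jH_s, smul_smul, smul_smul, pow_add]
      congr 1
      ring
    rw [h1]
    exact Submodule.smul_mem _ _ hn

theorem exists_lat (M : Type u) [AddCommGroup M] [Module (SmR f) M] [hM : Module.Finite (SmR f) M] :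
    letI := wMod f M
    ∃ H : Submodule (SusR f) (PolynomialModule (SmR f) M),
      IsLat (SusR.s f) (PolynomialModule (SmR f) M) H := by
  letI := wMod f M
  classical
  obtain ⟨t, ht⟩ := hM.fg_top
  exact ⟨Submodule.span (SusR f) ((fun m => PolynomialModule.single (SmR f) 0 m) '' (t : Set M)),
    ⟨t.image fun m => PolynomialModule.single (SmR f) 0 m, by rw [Finset.coe_image]⟩,
    cofinal f M (t : Set M) ht _ fun m hm => Submodule.subset_span ⟨m, hm, rfl⟩⟩

theorem mapX_injective {S M N : Type u} [CommRing S] [AddCommGroup M] [Module S M]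
    [AddCommGroup N] [Module S N] (i : M →ₗ[S] N) (hi : Function.Injective i) :
    Function.Injective (mapX i) := by
  intro x y h
  apply PolynomialModule.ext
  ext n
  apply hi
  rw [← mapX_coeff, ← mapX_coeff, h]

theorem mapX_lift {S M N : Type u} [CommRing S] [AddCommGroup M] [Module S M]
    [AddCommGroup N] [Module S N] (i : M →ₗ[S] N) (x : PolynomialModule S N)
    (hx : ∀ n, ∃ m, i m = x.coeff n) : ∃ y, mapX i y = x := by
  choose g hg using hx
  classical
  refine ⟨∑ n ∈ x.coeff.support, PolynomialModule.single S n (g n), ?_⟩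
  rw [map_sum]
  apply PolynomialModule.ext
  rw [PolynomialModule.coeff_sum]
  ext n
  rw [Finsupp.finsetSum_apply]
  by_cases hn : n ∈ x.coeff.support
  · rw [Finset.sum_eq_single_of_mem n hn]
    · rw [mapX_single, hg, PolynomialModule.coeff_single, Finsupp.single_eq_same]
    · intro j _ hj
      rw [mapX_single, PolynomialModule.coeff_single, Finsupp.single_eq_of_ne (Ne.symm hj)]
  · rw [Finset.sum_eq_zero]
    · rw [Finsupp.notMem_support_iff.1 hn]
    · intro j hj
      have hne : j ≠ n := fun h => hn (h ▸ hj)
      rw [mapX_single, PolynomialModule.coeff_single, Finsupp.single_eq_of_ne (Ne.symm hne)]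

section T

variable [IsNoetherianRing P]

/-- The retraction. -/
noncomputable def smT : G0 (SmR f) →+ G0 (Base f) :=
  G0.lift (fun M =>
    letI := wMod f M.carrier
    latV (SusR.s f) (SusR.Phi f) (PolynomialModule (SmR f) M.carrier)) (by
    intro M' M M'' i p hi hp h
    letI := wMod f M'.carrier
    letI := wMod f M.carrier
    letI := wMod f M''.carrier
    let i' : PolynomialModule (SmR f) M'.carrier →ₗ[SusR f] PolynomialModule (SmR f) M.carrier :=
      { toFun := mapX i
        map_add' := map_add _
        map_smul' := fun b m => (mapX i).map_smul (jH f b) m }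
    let p' : PolynomialModule (SmR f) M.carrier →ₗ[SusR f] PolynomialModule (SmR f) M''.carrier :=
      { toFun := mapX p
        map_add' := map_add _
        map_smul' := fun b m => (mapX p).map_smul (jH f b) m }
    refine (SusR.kills f).latV_add i' p' (mapX_injective i hi) ?_ ?_ (exists_lat f M.carrier)
    · intro x
      exact mapX_lift p x fun n => hp _
    · ext x
      constructor
      · rintro ⟨y, rfl⟩
        rw [LinearMap.mem_ker]
        apply PolynomialModule.ext
        ext n
        change p (i (y.coeff n)) = 0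
        have h1 : i (y.coeff n) ∈ ker p := by
          rw [← h]
          exact ⟨_, rfl⟩
        exact h1
      · intro hx
        refine mapX_lift i x fun n => ?_
        have h1 : x.coeff n ∈ ker p := by
          have h2 : (mapX p x).coeff n = 0 := by
            have h3 : mapX p x = 0 := hx
            rw [h3]
            rfl
          exact h2
        rw [← h] at h1
        exact h1)

theorem smT_mk (M : FMod (SmR f)) : smT f (G0.mk M) =
    (letI := wMod f M.carrier
     latV (SusR.s f) (SusR.Phi f) (PolynomialModule (SmR f) M.carrier)) :=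
  G0.lift_mk _ _ _

end T

end Pool.Agent.GZero
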