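import Pool.Agent.GZero.SmU

/-!
# `G_0(P/(f))` is a direct summand of `G_0(P[z][y] / (∑ y f + z - z^2))`
-/

universe u v w

set_option linter.style.haveILetI false
set_option linter.unusedSectionVars false

namespace Pool.Agent.GZero

open LinearMap (ker range)
open RingTheory.Sequence TensorProduct Polynomial

section hom

variable (A : Type u) [CommRing A] (r : ℕ) (N : Type u) [AddCommGroup N] [Module A N]

/-- The homogenisation `Y_0 ↦ X`, `Y_l ↦ y_l X`. -/
noncomputable def hgA : MvPolynomial (Fin (r + 1)) A →ₐ[A] (MvPolynomial (Fin r) A)[X] :=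
  MvPolynomial.aeval (Fin.cons X (fun l => C (MvPolynomial.X l) * X))

theorem hgA_monomial (m : Fin (r + 1) →₀ ℕ) :
    hgA A r (MvPolynomial.monomial m 1) =
      Polynomial.monomial (m 0 + (Finsupp.tail m).degree)
        (MvPolynomial.monomial (Finsupp.tail m) 1) := by
  have h1 : hgA A r (MvPolynomial.monomial m 1) = ∏ i : Fin (r + 1),
      (Fin.cons X (fun l => C (MvPolynomial.X l) * X) :
        Fin (r + 1) → (MvPolynomial (Fin r) A)[X]) i ^ m i := by
    unfold hgA
    rw [MvPolynomial.aeval_monomial, map_one, one_mul, Finsupp.prod_fintype]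
    intro i
    exact pow_zero _
  rw [h1, Fin.prod_univ_succ, Fin.cons_zero]
  have h2 : ∏ l : Fin r, (Fin.cons X (fun l => C (MvPolynomial.X l) * X) :
        Fin (r + 1) → (MvPolynomial (Fin r) A)[X]) l.succ ^ m l.succ =
      C (∏ l : Fin r, MvPolynomial.X l ^ (Finsupp.tail m) l) * X ^ (Finsupp.tail m).degree := by
    rw [Finsupp.degree_eq_sum, map_prod, ← Finset.prod_pow_eq_pow_sum, ← Finset.prod_mul_distrib]
    refine Finset.prod_congr rfl fun l _ => ?_
    rw [Fin.cons_succ, mul_pow, Finsupp.tail_apply, C_pow]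
  have h3 : (MvPolynomial.monomial (Finsupp.tail m) (1 : A)) =
      ∏ l : Fin r, MvPolynomial.X l ^ (Finsupp.tail m) l := by
    rw [MvPolynomial.monomial_eq, map_one, one_mul, Finsupp.prod_fintype]
    intro i
    exact pow_zero _
  rw [h2, ← h3, ← Polynomial.C_mul_X_pow_eq_monomial, pow_add]
  ring

/-- The linear map `y^a ↦ Y_0^(n - |a|) Y^a`. -/
noncomputable def unh (n : ℕ) : MvPolynomial (Fin r) A →ₗ[A] MvPolynomial (Fin (r + 1)) A :=
  (MvPolynomial.basisMonomials (Fin r) A).constr A fun a =>
    MvPolynomial.X 0 ^ (n - a.degree) * MvPolynomial.rename Fin.succ (MvPolynomial.monomial a 1)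

theorem unh_monomial (n : ℕ) (a : Fin r →₀ ℕ) : unh A r n (MvPolynomial.monomial a 1) =
    MvPolynomial.X 0 ^ (n - a.degree) * MvPolynomial.rename Fin.succ (MvPolynomial.monomial a 1) := by
  unfold unh
  have h := (MvPolynomial.basisMonomials (Fin r) A).constr_basis A (fun a =>
    MvPolynomial.X 0 ^ (n - a.degree) * MvPolynomial.rename Fin.succ
      (MvPolynomial.monomial a (1 : A))) a
  rwa [MvPolynomial.coe_basisMonomials] at h

theorem unh_tail (m : Fin (r + 1) →₀ ℕ) : unh A r (m 0 + (Finsupp.tail m).degree)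
    (MvPolynomial.monomial (Finsupp.tail m) 1) = MvPolynomial.monomial m 1 := by
  rw [unh_monomial, Nat.add_sub_cancel]
  have h3 : (MvPolynomial.monomial (Finsupp.tail m) (1 : A)) =
      ∏ l : Fin r, MvPolynomial.X l ^ (Finsupp.tail m) l := by
    rw [MvPolynomial.monomial_eq, map_one, one_mul, Finsupp.prod_fintype]
    intro i
    exact pow_zero _
  have h4 : (MvPolynomial.monomial m (1 : A)) = ∏ l : Fin (r + 1), MvPolynomial.X l ^ m l := by
    rw [MvPolynomial.monomial_eq, map_one, one_mul, Finsupp.prod_fintype]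
    intro i
    exact pow_zero _
  rw [h3, h4, Fin.prod_univ_succ, map_prod]
  congr 1
  refine Finset.prod_congr rfl fun l _ => ?_
  rw [map_pow, MvPolynomial.rename_X, Finsupp.tail_apply]

theorem hgA_C (a : A) : hgA A r (MvPolynomial.C a) = C (MvPolynomial.C a) :=
  (hgA A r).commutes a

theorem hgA_X (i : Fin (r + 1)) : hgA A r (MvPolynomial.X i) =
    (Fin.cons X (fun l => C (MvPolynomial.X l) * X) :
      Fin (r + 1) → (MvPolynomial (Fin r) A)[X]) i :=
  MvPolynomial.aeval_X _ _

/-- The homogenisation of modules. -/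
noncomputable def hom2 : PM A (r + 1) N →+ PolynomialModule (MvPolynomial (Fin r) A) (PM A r N) :=
  TensorProduct.liftAddHom
    (AddMonoidHom.mk' (fun p => AddMonoidHom.mk' (fun n =>
      hgA A r p • PolynomialModule.single (MvPolynomial (Fin r) A) 0
        ((1 : MvPolynomial (Fin r) A) ⊗ₜ[A] n : PM A r N))
      (fun n n' => by rw [TensorProduct.tmul_add, PolynomialModule.single_add, smul_add]))
      (fun p p' => by
        ext1 n
        change hgA A r (p + p') • PolynomialModule.single (MvPolynomial (Fin r) A) 0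
          ((1 : MvPolynomial (Fin r) A) ⊗ₜ[A] n : PM A r N) = _
        rw [map_add, add_smul]
        rfl))
    (fun a p n => by
      change hgA A r (a • p) • PolynomialModule.single (MvPolynomial (Fin r) A) 0
        ((1 : MvPolynomial (Fin r) A) ⊗ₜ[A] n : PM A r N) =
        hgA A r p • PolynomialModule.single (MvPolynomial (Fin r) A) 0
        ((1 : MvPolynomial (Fin r) A) ⊗ₜ[A] (a • n) : PM A r N)
      have h1 : ((1 : MvPolynomial (Fin r) A) ⊗ₜ[A] (a • n) : PM A r N) =
          (MvPolynomial.C a : MvPolynomial (Fin r) A) •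
            ((1 : MvPolynomial (Fin r) A) ⊗ₜ[A] n : PM A r N) := by
        rw [TensorProduct.tmul_smul, TensorProduct.smul_tmul', TensorProduct.smul_tmul',
          MvPolynomial.smul_eq_C_mul, smul_eq_mul]
      have h2 : PolynomialModule.single (MvPolynomial (Fin r) A) 0
          ((MvPolynomial.C a : MvPolynomial (Fin r) A) •
            ((1 : MvPolynomial (Fin r) A) ⊗ₜ[A] n : PM A r N)) =
          (C (MvPolynomial.C a) : (MvPolynomial (Fin r) A)[X]) •
            PolynomialModule.single (MvPolynomial (Fin r) A) 0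
              ((1 : MvPolynomial (Fin r) A) ⊗ₜ[A] n : PM A r N) := by
        rw [← Polynomial.monomial_zero_left, PolynomialModule.monomial_smul_single, zero_add]
      rw [h1, h2, smul_smul, MvPolynomial.smul_eq_C_mul, map_mul, hgA_C, mul_comm])

theorem hom2_tmul (p : MvPolynomial (Fin (r + 1)) A) (n : N) : hom2 A r N (p ⊗ₜ n) =
    hgA A r p • PolynomialModule.single (MvPolynomial (Fin r) A) 0
      ((1 : MvPolynomial (Fin r) A) ⊗ₜ[A] n : PM A r N) := rfl

theorem hom2_smul (q : MvPolynomial (Fin (r + 1)) A) (x : PM A (r + 1) N) :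
    hom2 A r N (q • x) = hgA A r q • hom2 A r N x := by
  induction x using TensorProduct.induction_on with
  | zero => rw [smul_zero, map_zero, smul_zero]
  | tmul p n => rw [TensorProduct.smul_tmul', hom2_tmul, hom2_tmul, smul_eq_mul, map_mul, mul_smul]
  | add x y hx hy => rw [smul_add, map_add, hx, hy, map_add, smul_add]

/-- The left inverse. -/
noncomputable def unh2 : PolynomialModule (MvPolynomial (Fin r) A) (PM A r N) →+ PM A (r + 1) N :=
  (Finsupp.liftAddHom fun n => (LinearMap.rTensor N (unh A r n)).toAddMonoidHom).comp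
    (PolynomialModule.coeffAddEquiv (R := MvPolynomial (Fin r) A) (M := PM A r N)).toAddMonoidHom

theorem unh2_single (n : ℕ) (m : PM A r N) :
    unh2 A r N (PolynomialModule.single (MvPolynomial (Fin r) A) n m) =
      LinearMap.rTensor N (unh A r n) m :=
  Finsupp.liftAddHom_apply_single _ _ _

theorem unh2_hom2 (x : PM A (r + 1) N) : unh2 A r N (hom2 A r N x) = x := by
  induction x using TensorProduct.induction_on with
  | zero => rw [map_zero, map_zero]
  | add x y hx hy => rw [map_add, map_add, hx, hy]
  | tmul p n =>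
    induction p using MvPolynomial.induction_on' with
    | add p q hp hq => rw [TensorProduct.add_tmul, map_add, map_add, hp, hq]
    | monomial m a =>
      have h1 : (MvPolynomial.monomial m a ⊗ₜ[A] n : PM A (r + 1) N) =
          MvPolynomial.monomial m 1 ⊗ₜ[A] (a • n) := by
        have h0 : MvPolynomial.monomial m a = a • (MvPolynomial.monomial m 1 :
            MvPolynomial (Fin (r + 1)) A) := by
          rw [MvPolynomial.smul_monomial, smul_eq_mul, mul_one]
        rw [h0, TensorProduct.smul_tmul]
      rw [h1, hom2_tmul, hgA_monomial, PolynomialModule.monomial_smul_single, unh2_single,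
        TensorProduct.smul_tmul', smul_eq_mul, mul_one, LinearMap.rTensor_tmul, add_zero, unh_tail]

theorem hom2_injective : Function.Injective (hom2 A r N) :=
  Function.LeftInverse.injective (unh2_hom2 A r N)

end hom

section transfer

variable {R S : Type u} [CommRing R] [CommRing S] (τ : R →+* S) (M : Type u) [AddCommGroup M]
  [Module R M] [Module S M]

/-- The identity on coefficients. -/
noncomputable def pmE : PolynomialModule S M ≃+ PolynomialModule R M :=
  (PolynomialModule.coeffAddEquiv (R := S) (M := M)).trans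
    (PolynomialModule.coeffAddEquiv (R := R) (M := M)).symm

theorem pmE_single (n : ℕ) (m : M) : pmE (R := R) (S := S) M (PolynomialModule.single S n m) =
    PolynomialModule.single R n m := rfl

theorem pmE_smul (h : ∀ (b : R) (m : M), b • m = τ b • m) (v : R[X]) (w : PolynomialModule S M) :
    pmE M (v.map τ • w) = v • (pmE M w : PolynomialModule R M) := by
  induction w using PolynomialModule.induction_linear with
  | zero => rw [smul_zero, map_zero, smul_zero]
  | add x y hx hy => rw [smul_add, map_add, hx, hy, map_add, smul_add]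
  | single n m =>
    induction v using Polynomial.induction_on' with
    | add p q hp hq => rw [Polynomial.map_add, add_smul, map_add, hp, hq, add_smul]
    | monomial k a =>
      rw [Polynomial.map_monomial, PolynomialModule.monomial_smul_single, pmE_single, pmE_single,
        PolynomialModule.monomial_smul_single, h]

end transfer

variable {P : Type u} [CommRing P] {r : ℕ} (f : Fin r → P)

theorem mk_f (l : Fin r) : (Ideal.Quotient.mk (Ideal.span (Set.range f))) (f l) = 0 :=
  Ideal.Quotient.eq_zero_iff_mem.2 (Ideal.subset_span ⟨l, rfl⟩)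

/-- The surjection onto `(P/(f))[y]` with `z ↦ 1`. -/
noncomputable def tauH : SmR f →+* MvPolynomial (Fin r) (Base f) :=
  SmR.lift f (MvPolynomial.C.comp (Ideal.Quotient.mk _)) 1 (fun l => MvPolynomial.X l) (by
    rw [one_pow, sub_self, add_zero]
    refine Finset.sum_eq_zero fun l _ => ?_
    rw [RingHom.comp_apply, mk_f, map_zero, mul_zero])

theorem tauH_z : tauH f (SmR.z f) = 1 := SmR.lift_z _ _ _ _ _
theorem tauH_b (a : P) : tauH f (SmR.b f a) = MvPolynomial.C (Ideal.Quotient.mk _ a) :=
  SmR.lift_b _ _ _ _ _ _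
theorem tauH_y (l : Fin r) : tauH f (SmR.y f l) = MvPolynomial.X l := SmR.lift_y _ _ _ _ _ _

theorem tauH_surjective : Function.Surjective (tauH f) := by
  intro v
  induction v using MvPolynomial.induction_on with
  | C a =>
    obtain ⟨p, rfl⟩ := Ideal.Quotient.mk_surjective a
    exact ⟨_, tauH_b f p⟩
  | add p q hp hq =>
    obtain ⟨a, ha⟩ := hp
    obtain ⟨b, hb⟩ := hq
    exact ⟨a + b, by rw [map_add, ha, hb]⟩
  | mul_X p i hp =>
    obtain ⟨a, ha⟩ := hp
    exact ⟨a * SmR.y f i, by rw [map_mul, ha, tauH_y]⟩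

/-- The surjection onto `(P/(f))[s, y]` with `z ↦ 1`. -/
noncomputable def thetaH : SusR f →+* MvPolynomial (Fin (r + 1)) (Base f) :=
  SusR.lift f (MvPolynomial.C.comp (Ideal.Quotient.mk _)) 1 (fun l => MvPolynomial.X l) (by
    rw [one_pow, sub_self, mul_zero, zero_add]
    refine Finset.sum_eq_zero fun l _ => ?_
    rw [RingHom.comp_apply, mk_f, map_zero, mul_zero])

theorem thetaH_z : thetaH f (SusR.z f) = 1 := SusR.lift_z _ _ _ _ _
theorem thetaH_b (a : P) : thetaH f (SusR.b f a) = MvPolynomial.C (Ideal.Quotient.mk _ a) :=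
  SusR.lift_b _ _ _ _ _ _
theorem thetaH_s : thetaH f (SusR.s f) = MvPolynomial.X 0 := SusR.lift_s _ _ _ _ _
theorem thetaH_y (l : Fin r) : thetaH f (SusR.y f l) = MvPolynomial.X l.succ :=
  SusR.lift_y _ _ _ _ _ _

theorem thetaH_surjective : Function.Surjective (thetaH f) := by
  intro v
  induction v using MvPolynomial.induction_on with
  | C a =>
    obtain ⟨p, rfl⟩ := Ideal.Quotient.mk_surjective a
    exact ⟨_, thetaH_b f p⟩
  | add p q hp hq =>
    obtain ⟨a, ha⟩ := hp
    obtain ⟨b, hb⟩ := hq
    exact ⟨a + b, by rw [map_add, ha, hb]⟩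
  | mul_X p i hp =>
    obtain ⟨a, ha⟩ := hp
    refine Fin.cases ?_ (fun l => ?_) i
    · exact ⟨a * SusR.s f, by rw [map_mul, ha, thetaH_s]⟩
    · exact ⟨a * SusR.y f l, by rw [map_mul, ha, thetaH_y]⟩

theorem map_jH (x : SusR f) : (jH f x).map (tauH f) = hgA (Base f) r (thetaH f x) := by
  have h : (Polynomial.mapRingHom (tauH f)).comp (jH f) =
      ((hgA (Base f) r : MvPolynomial (Fin (r + 1)) (Base f) →ₐ[Base f]
        (MvPolynomial (Fin r) (Base f))[X]) : MvPolynomial (Fin (r + 1)) (Base f) →+*
        (MvPolynomial (Fin r) (Base f))[X]).comp (thetaH f) := by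
    refine SusR.hom_ext f (B := (MvPolynomial (Fin r) (Base f))[X]) ?_ ?_ ?_ ?_
    · intro a
      rw [RingHom.comp_apply, RingHom.comp_apply, jH_b, thetaH_b, Polynomial.coe_mapRingHom,
        Polynomial.map_C, tauH_b]
      exact (hgA_C _ _ _).symm
    · rw [RingHom.comp_apply, RingHom.comp_apply, jH_z, thetaH_z, Polynomial.coe_mapRingHom,
        Polynomial.map_C, tauH_z, map_one, map_one]
    · rw [RingHom.comp_apply, RingHom.comp_apply, jH_s, thetaH_s, Polynomial.coe_mapRingHom,
        Polynomial.map_X]
      exact (hgA_X _ _ 0).symm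
    · intro l
      rw [RingHom.comp_apply, RingHom.comp_apply, jH_y, thetaH_y, Polynomial.coe_mapRingHom,
        Polynomial.map_mul, Polynomial.map_C, Polynomial.map_X, tauH_y]
      exact (hgA_X _ _ l.succ).symm
  exact RingHom.congr_fun h x

end Pool.Agent.GZero
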