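import Pool.Agent.GZero.SmV

/-!
# `G_0(P/(f))` is a direct summand of `G_0(P[z][y] / (∑ y_l f_l + z - z^2))`: the retraction
-/

universe u v w

set_option linter.style.haveILetI false
set_option linter.unusedSectionVars false

namespace Pool.Agent.GZero

open LinearMap (ker range)
open RingTheory.Sequence TensorProduct Polynomial

variable {P : Type u} [CommRing P] {r : ℕ} (f : Fin r → P)

theorem eps_theta (x : SusR f) : SusR.eps f x =
    MvPolynomial.aeval (fun _ : Fin (r + 1) => (0 : Base f)) (thetaH f x) := by
  have h : SusR.eps f = ((MvPolynomial.aeval (fun _ : Fin (r + 1) => (0 : Base f)) :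
      MvPolynomial (Fin (r + 1)) (Base f) →ₐ[Base f] Base f) :
        MvPolynomial (Fin (r + 1)) (Base f) →+* Base f).comp (thetaH f) := by
    refine SusR.hom_ext f (B := Base f) ?_ ?_ ?_ ?_
    · intro a
      rw [RingHom.comp_apply, thetaH_b, SusR.eps_b]
      simp
    · rw [RingHom.comp_apply, thetaH_z, map_one]
      exact SusR.lift_z _ _ _ _ _
    · rw [RingHom.comp_apply, thetaH_s]
      refine (SusR.lift_s _ _ _ _ _).trans ?_
      simp
    · intro l
      rw [RingHom.comp_apply, thetaH_y]
      refine (SusR.lift_y _ _ _ _ _ _).trans ?_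
      simp
  exact RingHom.congr_fun h x

theorem SusR.prs1_snd (p : SusR f × SusR f) (hp : p ∈ SusR.prs1 f) : thetaH f p.2 = 0 := by
  rcases List.mem_cons.1 hp with h | h
  · rw [h, map_sub, map_one, thetaH_z, sub_self]
  · obtain ⟨l, rfl⟩ := List.mem_ofFn.1 h
    change thetaH f (SusR.b f (f l)) = 0
    rw [thetaH_b, mk_f, map_zero]

theorem SusR.prs1_fst : ((SusR.prs1 f).map Prod.fst).map (thetaH f) = vars (Base f) (r + 1) := by
  unfold SusR.prs1 SusR.prs vars
  rw [List.map_cons, List.map_cons, List.map_ofFn, List.map_ofFn, List.ofFn_succ]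
  congr 1
  · change thetaH f (SusR.s f * SusR.z f) = _
    rw [map_mul, thetaH_s, thetaH_z, mul_one]
  · congr 1
    funext l
    exact thetaH_y f l

section

variable [IsNoetherianRing P]

theorem chi_theta (N : FMod (Base f)) :
    SusR.chi f (G0.res (thetaH f) (thetaH_surjective f)
      (G0.cls (MvPolynomial (Fin (r + 1)) (Base f)) (PM (Base f) (r + 1) N.carrier))) =
      G0.mk N := by
  rw [G0.cls, G0.res_mk]
  letI iB : Module (SusR f) (PM (Base f) (r + 1) N.carrier) := Module.compHom _ (thetaH f)
  haveI hfin : Module.Finite (SusR f) (PM (Base f) (r + 1) N.carrier) :=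
    finite_compHom (thetaH f) (thetaH_surjective f) _
  rw [G0.cls, SusR.chi_mk]
  letI iN : Module (SusR f) N.carrier := Module.compHom N.carrier (SusR.eps f)
  have tow : @IsScalarTower (SusR f) (MvPolynomial (Fin (r + 1)) (Base f))
      (PM (Base f) (r + 1) N.carrier) (thetaH f).toAlgebra.toSMul _ iB.toSMul :=
    @IsScalarTower.mk _ _ _ (thetaH f).toAlgebra.toSMul _ iB.toSMul
      fun b s m => mul_smul (thetaH f b) s m
  have h := @homology_of_tower (SusR f) (MvPolynomial (Fin (r + 1)) (Base f))
    (PM (Base f) (r + 1) N.carrier)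
    _ _ (thetaH f).toAlgebra _ iB _ tow (SusR.prs1 f) (vars (Base f) (r + 1))
    (SusR.prs1_fst f) (vars_weaklyRegular N.carrier) (SusR.prs1_snd f) N.carrier _ iN
    { toFun := constC (Base f) (r + 1) N.carrier
      map_add' := map_add _
      map_smul' := fun b m => by
        have h1 := constC_smul N.carrier (thetaH f b) m
        rw [← eps_theta] at h1
        exact h1 }
    (constC_surjective N.carrier) (fun x => constC_ker N.carrier x)
  obtain ⟨⟨e⟩, hsub⟩ := h
  change clV (SusR.eps f) _ - clV (SusR.eps f) _ = _
  rw [@clV_subsingleton _ _ _ _ (SusR.eps f) (SusR.eps_surjective f) _ _ _ hsub, sub_zero,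
    clV_congr e, clV_restrict (SusR.eps f) (SusR.eps_surjective f) N.carrier N.carrier
      (AddEquiv.refl _) (fun b n => rfl)]
  rfl

theorem Phi_theta (N : FMod (Base f)) :
    SusR.Phi f (G0.res (thetaH f) (thetaH_surjective f)
      (G0.cls (MvPolynomial (Fin (r + 1)) (Base f)) (PM (Base f) (r + 1) N.carrier))) =
      G0.mk N := by
  rw [SusR.Phi_apply, chi_theta, G0.res_comp, G0.cls, G0.res_mk, G0.cls, SusR.chi_zero, sub_zero]
  intro m
  change (thetaH f (SusR.inv f (SusR.z f))) • m = 0
  rw [SusR.inv_z, map_sub, map_one, thetaH_z, sub_self, zero_smul]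

/-- The inclusion `N ↦ N[y]`. -/
noncomputable def inclS : G0 (Base f) →+ G0 (SmR f) :=
  (G0.res (tauH f) (tauH_surjective f)).comp (G0.bc (Base f) (MvPolynomial (Fin r) (Base f)))

theorem smT_inclS (x : G0 (Base f)) : smT f (inclS f x) = x := by
  have key : (smT f).comp (inclS f) = AddMonoidHom.id _ := by
    refine G0.hom_ext fun N => ?_
    rw [AddMonoidHom.comp_apply, AddMonoidHom.id_apply]
    unfold inclS
    rw [AddMonoidHom.comp_apply, G0.bc_mk, G0.cls, G0.res_mk]
    letI iB : Module (SmR f) (PM (Base f) r N.carrier) := Module.compHom _ (tauH f)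
    haveI hfin : Module.Finite (SmR f) (PM (Base f) r N.carrier) :=
      finite_compHom (tauH f) (tauH_surjective f) _
    rw [G0.cls, smT_mk]
    letI iW := wMod f (PM (Base f) r N.carrier)
    letI iT : Module (SusR f) (PM (Base f) (r + 1) N.carrier) := Module.compHom _ (thetaH f)
    haveI hT : Module.Finite (SusR f) (PM (Base f) (r + 1) N.carrier) :=
      finite_compHom (thetaH f) (thetaH_surjective f) _
    let κ : PM (Base f) (r + 1) N.carrier →ₗ[SusR f]
        PolynomialModule (SmR f) (PM (Base f) r N.carrier) :=
      { toFun := fun x => pmE (R := SmR f) (S := MvPolynomial (Fin r) (Base f))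
          (PM (Base f) r N.carrier) (hom2 (Base f) r N.carrier x)
        map_add' := fun x y => by rw [map_add, map_add]
        map_smul' := fun b x => by
          change pmE (R := SmR f) (S := MvPolynomial (Fin r) (Base f)) (PM (Base f) r N.carrier)
            (hom2 (Base f) r N.carrier (thetaH f b • x)) = _
          rw [hom2_smul, ← map_jH]
          exact pmE_smul (tauH f) (PM (Base f) r N.carrier) (fun _ _ => rfl) (jH f b) _ }
    have hκ : Function.Injective κ := fun x y h =>
      hom2_injective (Base f) r N.carrier ((pmE (R := SmR f)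
        (S := MvPolynomial (Fin r) (Base f)) (PM (Base f) r N.carrier)).injective h)
    have h := (SusR.kills f).latV_of_injective κ hκ ?_
    · refine h.trans ?_
      have h2 := Phi_theta f N
      rw [G0.cls, G0.res_mk] at h2
      exact h2
    · refine cofinal f (PM (Base f) r N.carrier) (Set.range fun n : N.carrier =>
        ((1 : MvPolynomial (Fin r) (Base f)) ⊗ₜ[Base f] n : PM (Base f) r N.carrier)) ?_ _ ?_
      · rw [eq_top_iff]
        intro x _
        induction x using TensorProduct.induction_on with
        | zero => exact Submodule.zero_mem _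
        | add x y hx hy => exact Submodule.add_mem _ (hx trivial) (hy trivial)
        | tmul p n =>
          obtain ⟨b, rfl⟩ := tauH_surjective f p
          have h3 : (tauH f b ⊗ₜ[Base f] n : PM (Base f) r N.carrier) =
              b • ((1 : MvPolynomial (Fin r) (Base f)) ⊗ₜ[Base f] n :
                PM (Base f) r N.carrier) := by
            change _ = tauH f b • ((1 : MvPolynomial (Fin r) (Base f)) ⊗ₜ[Base f] n :
                PM (Base f) r N.carrier)
            rw [TensorProduct.smul_tmul', smul_eq_mul, mul_one]
          rw [h3]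
          exact Submodule.smul_mem _ _ (Submodule.subset_span ⟨n, rfl⟩)
      · rintro _ ⟨n, rfl⟩
        refine ⟨(1 : MvPolynomial (Fin (r + 1)) (Base f)) ⊗ₜ[Base f] n, ?_⟩
        change pmE (R := SmR f) (S := MvPolynomial (Fin r) (Base f)) (PM (Base f) r N.carrier)
          (hom2 (Base f) r N.carrier (1 ⊗ₜ n)) = _
        rw [hom2_tmul, map_one, one_smul, pmE_single]
  exact DFunLike.congr_fun key x

end

end Pool.Agent.GZero
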