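import Pool.Agent.GZero.Poly
import Pool.Agent.GZero.Functor

/-!
# `G_0(P / (f))` is a direct summand of `G_0(P[y] / (∑ y_l f_l))`
-/

universe u v

set_option linter.style.haveILetI false
set_option linter.unusedSectionVars false

namespace Pool.Agent.GZero

open LinearMap (ker range)
open RingTheory.Sequence TensorProduct
open MvPolynomial (X C)

theorem MF.chi_add' {R : Type u} [CommRing R] [IsNoetherianRing R] {A : Type u} [CommRing A]
    {w : R} (hw : w = 0) {X : MF R w} (ε : R →+* A)
    (hε : Function.Surjective ε) (hN : ∀ b, ε b = 0 → b ∈ Ideal.span {s : R | X.Null s})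
    {M' M M'' : Type u} [AddCommGroup M'] [Module R M'] [AddCommGroup M] [Module R M]
    [AddCommGroup M''] [Module R M''] [Module.Finite R M'] [Module.Finite R M]
    [Module.Finite R M''] (i : M' →ₗ[R] M) (p : M →ₗ[R] M'')
    (hi : Function.Injective i) (hp : Function.Surjective p) (h : range i = ker p) :
    X.chi ε M = X.chi ε M' + X.chi ε M'' := by
  subst hw
  exact MF.chi_add ε hε hN i p hi hp h

/-- The homology of the Koszul matrix factorisation of a module over an algebra `S` on which the
second members of the pairs vanish and the first ones are regular. -/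
theorem homology_of_tower {B S M : Type u} [CommRing B] [CommRing S] [Algebra B S]
    [AddCommGroup M] [Module B M] [Module S M] [IsScalarTower B S M] (L : List (B × B))
    (vs : List S) (hv : (L.map Prod.fst).map (algebraMap B S) = vs)
    (hreg : IsWeaklyRegular M vs) (hf : ∀ p ∈ L, algebraMap B S p.2 = 0) (N : Type u)
    [AddCommGroup N] [Module B N] (c : M →ₗ[B] N) (hc : Function.Surjective c)
    (hker : ∀ x, c x = 0 ↔ x ∈ (Ideal.ofList vs • ⊤ : Submodule S M)) :
    Nonempty ((XL L).H M ≃ₗ[B] N) ∧ Subsingleton ((XL L).op.H M) := by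
  have hreg' : IsWeaklyRegular M (L.map Prod.fst) := by
    rw [← isWeaklyRegular_map_algebraMap_iff (S := S), hv]
    exact hreg
  have hf' : ∀ p ∈ L, ∀ m : M, p.2 • m = 0 := fun p hp m => by
    rw [← algebraMap_smul S, hf p hp, zero_smul]
  obtain ⟨⟨e⟩, hsub⟩ := XL_homology L M hf' hreg'
  refine ⟨?_, hsub⟩
  have hk : (Ideal.ofList (L.map Prod.fst) • (⊤ : Submodule B M)) = ker c := by
    ext x
    have h1 := Ideal.smul_restrictScalars (R := B) (Ideal.ofList (L.map Prod.fst))
      (⊤ : Submodule S M)
    rw [Submodule.restrictScalars_top, Ideal.map_ofList, hv] at h1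
    rw [LinearMap.mem_ker, hker, ← h1]
    exact Iff.rfl
  exact ⟨e.trans ((Submodule.quotEquivOfEq _ _ hk).trans (c.quotKerEquivOfSurjective hc))⟩

section

variable {P : Type u} [CommRing P] {r : ℕ} (f : Fin r → P)

/-- The polynomial `∑ y_l f_l`. -/
noncomputable def pairing : MvPolynomial (Fin r) P := ∑ l, X l * C (f l)

/-- The ring `P / (f_1, …, f_r)`. -/
abbrev Base : Type u := P ⧸ Ideal.span (Set.range f)

/-- The ring `P[y_1, …, y_r] / (∑ y_l f_l)`. -/
abbrev Hyp : Type u := MvPolynomial (Fin r) P ⧸ Ideal.span {pairing f}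

/-- The surjection onto `(P / (f))[y]`. -/
noncomputable def toS : Hyp f →+* MvPolynomial (Fin r) (Base f) :=
  Ideal.Quotient.lift _ (MvPolynomial.map (Ideal.Quotient.mk _)) (by
    intro a ha
    have h1 : Ideal.span {pairing f} ≤ RingHom.ker
        (MvPolynomial.map (σ := Fin r) (Ideal.Quotient.mk (Ideal.span (Set.range f)))) := by
      rw [Ideal.span_le, Set.singleton_subset_iff, SetLike.mem_coe, RingHom.mem_ker]
      unfold pairing
      rw [map_sum]
      refine Finset.sum_eq_zero fun l _ => ?_
      rw [map_mul, MvPolynomial.map_C]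
      have h2 : (Ideal.Quotient.mk (Ideal.span (Set.range f))) (f l) = 0 :=
        Ideal.Quotient.eq_zero_iff_mem.2 (Ideal.subset_span ⟨l, rfl⟩)
      rw [h2, map_zero, mul_zero]
    exact h1 ha)

theorem toS_mk (p : MvPolynomial (Fin r) P) :
    toS f (Ideal.Quotient.mk _ p) = MvPolynomial.map (Ideal.Quotient.mk _) p := rfl

theorem toS_surjective : Function.Surjective (toS f) := fun s => by
  obtain ⟨p, hp⟩ := MvPolynomial.map_surjective (σ := Fin r) _
    (Ideal.Quotient.mk_surjective (I := Ideal.span (Set.range f))) s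
  exact ⟨Ideal.Quotient.mk _ p, hp⟩

/-- The surjection onto `P / (f)`. -/
noncomputable def toA : Hyp f →+* Base f :=
  (MvPolynomial.aeval (fun _ : Fin r => (0 : Base f))).toRingHom.comp (toS f)

theorem toA_surjective : Function.Surjective (toA f) := fun a => by
  obtain ⟨b, hb⟩ := toS_surjective f (C a)
  refine ⟨b, ?_⟩
  change (MvPolynomial.aeval (fun _ : Fin r => (0 : Base f))) (toS f b) = a
  rw [hb]
  simp

theorem toA_mk (p : MvPolynomial (Fin r) P) : toA f (Ideal.Quotient.mk _ p) =
    Ideal.Quotient.mk _ (MvPolynomial.aeval (fun _ : Fin r => (0 : P)) p) := by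
  have h : ((MvPolynomial.aeval (fun _ : Fin r => (0 : Base f))).toRingHom.comp
      (MvPolynomial.map (Ideal.Quotient.mk (Ideal.span (Set.range f))))) =
      (Ideal.Quotient.mk (Ideal.span (Set.range f))).comp
        (MvPolynomial.aeval (fun _ : Fin r => (0 : P))).toRingHom := by
    apply MvPolynomial.ringHom_ext
    · intro a
      simp
    · intro i
      simp
  exact RingHom.congr_fun h p

/-- The list of the pairs `(y_l, f_l)` in the ring `Hyp f`. -/
noncomputable def prs : List (Hyp f × Hyp f) :=
  List.ofFn fun l => (Ideal.Quotient.mk _ (X l), Ideal.Quotient.mk _ (C (f l)))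

theorem wL_ofFn {R : Type u} [CommRing R] {n : ℕ} (p : Fin n → R × R) :
    wL (List.ofFn p) = ∑ l, (p l).1 * (p l).2 := by
  induction n with
  | zero => simp [wL]
  | succ n ih =>
    rw [List.ofFn_succ, Fin.sum_univ_succ]
    change wL (List.ofFn fun i => p i.succ) + (p 0).1 * (p 0).2 = _
    rw [ih, add_comm]

theorem wL_prs : wL (prs f) = 0 := by
  unfold prs
  rw [wL_ofFn]
  have h : (Ideal.Quotient.mk (Ideal.span {pairing f})) (pairing f) = 0 :=
    Ideal.Quotient.eq_zero_iff_mem.2 (Ideal.subset_span rfl)
  have h2 : (Ideal.Quotient.mk (Ideal.span {pairing f})) (pairing f) =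
      ∑ l, (Ideal.Quotient.mk (Ideal.span {pairing f})) (X l) *
        (Ideal.Quotient.mk (Ideal.span {pairing f})) (C (f l)) :=
    (map_sum (Ideal.Quotient.mk (Ideal.span {pairing f})) (fun l => X l * C (f l))
      Finset.univ).trans (Finset.sum_congr rfl fun l _ => map_mul _ _ _)
  rw [h] at h2
  exact h2.symm

theorem mem_prs (l : Fin r) :
    ((Ideal.Quotient.mk _ (X l), Ideal.Quotient.mk _ (C (f l))) : Hyp f × Hyp f) ∈ prs f :=
  List.mem_ofFn.2 ⟨l, rfl⟩

theorem null_of_toA (b : Hyp f) (hb : toA f b = 0) :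
    b ∈ Ideal.span {s : Hyp f | (XL (prs f)).Null s} := by
  obtain ⟨p, rfl⟩ := Ideal.Quotient.mk_surjective b
  set J : Ideal (Hyp f) := Ideal.span {s : Hyp f | (XL (prs f)).Null s} with hJ
  have hX : ∀ l : Fin r, (Ideal.Quotient.mk (Ideal.span {pairing f})) (X l) ∈ J := fun l =>
    Ideal.subset_span (XL_null (prs f) _ (mem_prs f l)).1
  have hC : ∀ l : Fin r, (Ideal.Quotient.mk (Ideal.span {pairing f})) (C (f l)) ∈ J := fun l =>
    Ideal.subset_span (XL_null (prs f) _ (mem_prs f l)).2
  have h1 : ∀ p ∈ idl P r r, (Ideal.Quotient.mk (Ideal.span {pairing f})) p ∈ J := by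
    have h2 : idl P r r ≤ Ideal.comap (Ideal.Quotient.mk (Ideal.span {pairing f})) J := by
      unfold idl Ideal.ofList
      rw [Ideal.span_le]
      intro s hs
      change s ∈ (vars P r).take r at hs
      rw [List.take_of_length_le (by simp [vars])] at hs
      obtain ⟨l, rfl⟩ := List.mem_ofFn.1 hs
      exact hX l
    exact fun p hp => h2 hp
  have h3 := h1 _ (sub_killA (A := P) r p)
  rw [killA_all, map_sub] at h3
  set a : P := MvPolynomial.aeval (fun _ : Fin r => (0 : P)) p with ha
  have h4 : a ∈ Ideal.span (Set.range f) := by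
    have h5 : toA f (Ideal.Quotient.mk _ p) = Ideal.Quotient.mk _ a := toA_mk f p
    rw [h5] at hb
    exact Ideal.Quotient.eq_zero_iff_mem.1 hb
  have h6 : (Ideal.Quotient.mk (Ideal.span {pairing f})) (C a) ∈ J := by
    have h7 : Ideal.span (Set.range f) ≤
        Ideal.comap ((Ideal.Quotient.mk (Ideal.span {pairing f})).comp C) J := by
      rw [Ideal.span_le]
      rintro _ ⟨l, rfl⟩
      exact hC l
    exact h7 h4
  have h8 := Ideal.add_mem _ h3 h6
  rwa [sub_add_cancel] at h8

section retract

variable [IsNoetherianRing P]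

/-- The retraction. -/
noncomputable def retr : G0 (Hyp f) →+ G0 (Base f) :=
  G0.lift (fun M => (XL (prs f)).chi (toA f) M.carrier) (fun _ _ _ i p hi hp h =>
    MF.chi_add' (wL_prs f) (toA f) (toA_surjective f) (null_of_toA f) i p hi hp h)

theorem retr_mk (M : FMod (Hyp f)) :
    retr f (G0.mk M) = (XL (prs f)).chi (toA f) M.carrier := G0.lift_mk _ _ _

/-- The inclusion `N ↦ N[y]`. -/
noncomputable def incl : G0 (Base f) →+ G0 (Hyp f) :=
  (G0.res (toS f) (toS_surjective f)).comp (G0.bc (Base f) (MvPolynomial (Fin r) (Base f)))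

theorem retr_incl (x : G0 (Base f)) : retr f (incl f x) = x := by
  have key : (retr f).comp (incl f) = AddMonoidHom.id _ := by
    refine G0.hom_ext fun N => ?_
    rw [AddMonoidHom.comp_apply, AddMonoidHom.id_apply]
    unfold incl
    rw [AddMonoidHom.comp_apply, G0.bc_mk, G0.cls, G0.res_mk]
    letI iB : Module (Hyp f) (PM (Base f) r N.carrier) := Module.compHom _ (toS f)
    haveI hfin : Module.Finite (Hyp f) (PM (Base f) r N.carrier) :=
      finite_compHom (toS f) (toS_surjective f) _
    rw [G0.cls, retr_mk]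
    letI iN : Module (Hyp f) N.carrier := Module.compHom N.carrier (toA f)
    have tow : @IsScalarTower (Hyp f) (MvPolynomial (Fin r) (Base f)) (PM (Base f) r N.carrier)
        (toS f).toAlgebra.toSMul _ iB.toSMul :=
      @IsScalarTower.mk _ _ _ (toS f).toAlgebra.toSMul _ iB.toSMul
        fun b s m => mul_smul (toS f b) s m
    have h := @homology_of_tower (Hyp f) (MvPolynomial (Fin r) (Base f)) (PM (Base f) r N.carrier)
      _ _ (toS f).toAlgebra _ iB _ tow (prs f) (vars (Base f) r) (by
        have hmap : (prs f).map Prod.fst = List.ofFn fun l : Fin r =>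
            (Ideal.Quotient.mk (Ideal.span {pairing f}) (X l) : Hyp f) := by
          unfold prs
          rw [List.map_ofFn]
          rfl
        rw [hmap, List.map_ofFn]
        unfold vars
        congr 1
        funext l
        change toS f (Ideal.Quotient.mk _ (X l)) = X l
        rw [toS_mk, MvPolynomial.map_X]) (vars_weaklyRegular N.carrier) (by
        intro p hp
        obtain ⟨l, rfl⟩ := List.mem_ofFn.1 hp
        change toS f (Ideal.Quotient.mk _ (C (f l))) = 0
        rw [toS_mk, MvPolynomial.map_C]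
        have h3 : (Ideal.Quotient.mk (Ideal.span (Set.range f))) (f l) = 0 :=
          Ideal.Quotient.eq_zero_iff_mem.2 (Ideal.subset_span ⟨l, rfl⟩)
        rw [h3, map_zero]) N.carrier _ iN
      { toFun := constC (Base f) r N.carrier
        map_add' := map_add _
        map_smul' := fun b m => constC_smul N.carrier (toS f b) m }
      (constC_surjective N.carrier) (fun x => constC_ker N.carrier x)
    obtain ⟨⟨e⟩, hsub⟩ := h
    change clV (toA f) _ - clV (toA f) _ = _
    rw [@clV_subsingleton _ _ _ _ (toA f) (toA_surjective f) _ _ _ hsub, sub_zero, clV_congr e,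
      clV_restrict (toA f) (toA_surjective f) N.carrier N.carrier (AddEquiv.refl _)
        (fun b n => rfl)]
    rfl
  exact DFunLike.congr_fun key x

end retract

end

end Pool.Agent.GZero
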