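import Pool.Agent.GZero.Summand
import Pool.Agent.GZero.Homotopy
import Pool.Agent.GZero.Lattice

/-!
# The ring `P[z][s, y_1, …, y_r] / (s (z - z^2) + ∑ y_l f_l)`
-/

universe u v w

set_option linter.style.haveILetI false
set_option linter.unusedSectionVars false

namespace Pool.Agent.GZero

open LinearMap (ker range)
open RingTheory.Sequence TensorProduct Polynomial

section lift

variable {T : Type u} [CommRing T] {m : ℕ} (W : MvPolynomial (Fin m) T)

/-- The quotient of a polynomial ring by one element. -/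
abbrev HR : Type u := MvPolynomial (Fin m) T ⧸ Ideal.span {W}

/-- The constants. -/
noncomputable def HR.c : T →+* HR W := (Ideal.Quotient.mk _).comp MvPolynomial.C

/-- The variables. -/
noncomputable def HR.x (i : Fin m) : HR W := Ideal.Quotient.mk _ (MvPolynomial.X i)

variable {W}

/-- The homomorphisms from the quotient. -/
noncomputable def HR.lift {B : Type v} [CommRing B] (g : T →+* B) (Y : Fin m → B)
    (h : MvPolynomial.eval₂Hom g Y W = 0) : HR W →+* B :=
  Ideal.Quotient.lift _ (MvPolynomial.eval₂Hom g Y) (by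
    intro a ha
    have h1 : Ideal.span {W} ≤ RingHom.ker (MvPolynomial.eval₂Hom g Y) := by
      rw [Ideal.span_le, Set.singleton_subset_iff]
      exact h
    exact h1 ha)

theorem HR.lift_c {B : Type v} [CommRing B] (g : T →+* B) (Y : Fin m → B)
    (h : MvPolynomial.eval₂Hom g Y W = 0) (a : T) : HR.lift g Y h (HR.c W a) = g a :=
  MvPolynomial.eval₂_C g Y a

theorem HR.lift_x {B : Type v} [CommRing B] (g : T →+* B) (Y : Fin m → B)
    (h : MvPolynomial.eval₂Hom g Y W = 0) (i : Fin m) : HR.lift g Y h (HR.x W i) = Y i :=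
  MvPolynomial.eval₂_X g Y i

theorem HR.hom_ext {B : Type v} [CommRing B] {φ ψ : HR W →+* B}
    (hC : φ.comp (HR.c W) = ψ.comp (HR.c W)) (hX : ∀ i, φ (HR.x W i) = ψ (HR.x W i)) : φ = ψ := by
  apply Ideal.Quotient.ringHom_ext
  apply MvPolynomial.ringHom_ext
  · exact fun a => RingHom.congr_fun hC a
  · exact hX

theorem HR.induction (W : MvPolynomial (Fin m) T) {p : HR W → Prop} (hc : ∀ a, p (HR.c W a))
    (ha : ∀ x y, p x → p y → p (x + y)) (hm : ∀ x i, p x → p (x * HR.x W i)) (x : HR W) : p x := by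
  obtain ⟨q, rfl⟩ := Ideal.Quotient.mk_surjective x
  induction q using MvPolynomial.induction_on with
  | C a => exact hc a
  | add q q' hq hq' => rw [map_add]; exact ha _ _ hq hq'
  | mul_X q i hq => rw [map_mul]; exact hm _ _ hq

theorem poly_comp_ext {P : Type u} [CommRing P] {B : Type v} [CommRing B] {φ ψ : P[X] →+* B}
    (hC : ∀ a, φ (C a) = ψ (C a)) (hX : φ X = ψ X) : φ = ψ :=
  Polynomial.ringHom_ext hC hX

end lift

variable {P : Type u} [CommRing P] {r : ℕ} (f : Fin r → P)

/-- The functions `z - z^2, f_1, …, f_r`. -/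
noncomputable def fs : Fin (r + 1) → P[X] := Fin.cons (X - X ^ 2) (fun l => C (f l))

/-- The equation. -/
noncomputable def susW : MvPolynomial (Fin (r + 1)) P[X] := pairing (fs f)

theorem eval_pairing {T : Type u} [CommRing T] {m : ℕ} (F : Fin m → T) {B : Type v} [CommRing B]
    (g : T →+* B) (Y : Fin m → B) :
    MvPolynomial.eval₂Hom g Y (pairing F) = ∑ l, Y l * g (F l) := by
  unfold pairing
  rw [map_sum]
  refine Finset.sum_congr rfl fun l _ => ?_
  rw [map_mul, MvPolynomial.eval₂Hom_X', MvPolynomial.eval₂Hom_C]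

theorem eval_susW {B : Type v} [CommRing B] (g : P[X] →+* B) (Y : Fin (r + 1) → B) :
    MvPolynomial.eval₂Hom g Y (susW f) =
      Y 0 * (g X - g X ^ 2) + ∑ l : Fin r, Y l.succ * g (C (f l)) := by
  unfold susW
  rw [eval_pairing, Fin.sum_univ_succ]
  congr 1
  change Y 0 * g (X - X ^ 2) = _
  rw [map_sub, map_pow]

/-- The ring `P[z][s, y] / (s (z - z^2) + ∑ y f)`. -/
abbrev SusR : Type u := HR (susW f)

/-- The element `s`. -/
noncomputable def SusR.s : SusR f := HR.x (susW f) 0

/-- The element `z`. -/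
noncomputable def SusR.z : SusR f := HR.c (susW f) X

/-- The elements `y_l`. -/
noncomputable def SusR.y (l : Fin r) : SusR f := HR.x (susW f) l.succ

/-- The elements of `P`. -/
noncomputable def SusR.b : P →+* SusR f := (HR.c (susW f)).comp C

theorem SusR.rel : SusR.s f * (SusR.z f - SusR.z f ^ 2) +
    ∑ l : Fin r, SusR.y f l * SusR.b f (f l) = 0 := by
  have h := eval_susW f (HR.c (susW f)) (HR.x (susW f))
  have h2 : MvPolynomial.eval₂Hom (HR.c (susW f)) (HR.x (susW f)) =
      Ideal.Quotient.mk (Ideal.span {susW f}) := by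
    apply MvPolynomial.ringHom_ext
    · intro a
      exact MvPolynomial.eval₂_C _ _ a
    · intro i
      exact MvPolynomial.eval₂_X _ _ i
  have h3 : (Ideal.Quotient.mk (Ideal.span {susW f})) (susW f) = 0 :=
    Ideal.Quotient.eq_zero_iff_mem.2 (Ideal.subset_span rfl)
  rw [h2, h3] at h
  exact h.symm

/-- The homomorphisms from `SusR f`. -/
noncomputable def SusR.lift {B : Type v} [CommRing B] (g : P →+* B) (z : B) (Y : Fin (r + 1) → B)
    (h : Y 0 * (z - z ^ 2) + ∑ l : Fin r, Y l.succ * g (f l) = 0) : SusR f →+* B :=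
  HR.lift (Polynomial.eval₂RingHom g z) Y (by
    rw [eval_susW]
    simpa using h)

section liftlemmas

variable {B : Type v} [CommRing B] (g : P →+* B) (z : B) (Y : Fin (r + 1) → B)
    (h : Y 0 * (z - z ^ 2) + ∑ l : Fin r, Y l.succ * g (f l) = 0)

theorem SusR.lift_s : SusR.lift f g z Y h (SusR.s f) = Y 0 := HR.lift_x _ _ _ _

theorem SusR.lift_y (l : Fin r) : SusR.lift f g z Y h (SusR.y f l) = Y l.succ := HR.lift_x _ _ _ _

theorem SusR.lift_z : SusR.lift f g z Y h (SusR.z f) = z := by
  refine (HR.lift_c _ _ _ _).trans ?_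
  simp

theorem SusR.lift_b (a : P) : SusR.lift f g z Y h (SusR.b f a) = g a := by
  refine (HR.lift_c _ _ _ _).trans ?_
  simp

end liftlemmas

theorem SusR.hom_ext {B : Type v} [CommRing B] {φ ψ : SusR f →+* B}
    (hb : ∀ a, φ (SusR.b f a) = ψ (SusR.b f a)) (hz : φ (SusR.z f) = ψ (SusR.z f))
    (hs : φ (SusR.s f) = ψ (SusR.s f)) (hy : ∀ l, φ (SusR.y f l) = ψ (SusR.y f l)) : φ = ψ := by
  apply HR.hom_ext
  · apply Polynomial.ringHom_ext
    · exact hb
    · exact hz
  · intro i
    refine Fin.cases ?_ (fun l => ?_) i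
    · exact hs
    · exact hy l

section chi

/-- The surjection onto `P/(f)` with `z ↦ 1`. -/
noncomputable def SusR.eps : SusR f →+* Base f :=
  SusR.lift f (Ideal.Quotient.mk _) 1 (fun _ => 0) (by simp)

theorem SusR.eps_b (a : P) : SusR.eps f (SusR.b f a) = Ideal.Quotient.mk _ a :=
  SusR.lift_b _ _ _ _ _ _

theorem SusR.eps_surjective : Function.Surjective (SusR.eps f) := fun a => by
  obtain ⟨p, rfl⟩ := Ideal.Quotient.mk_surjective a
  exact ⟨SusR.b f p, SusR.eps_b f p⟩

/-- The pairs `(y_l, f_l)`. -/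
noncomputable def SusR.prs : List (SusR f × SusR f) :=
  List.ofFn fun l => (SusR.y f l, SusR.b f (f l))

/-- The pairs `(s z, 1 - z)`, `(y_l, f_l)`. -/
noncomputable def SusR.prs1 : List (SusR f × SusR f) :=
  (SusR.s f * SusR.z f, 1 - SusR.z f) :: SusR.prs f

theorem SusR.wL_prs1 : wL (SusR.prs1 f) = 0 := by
  change wL (SusR.prs f) + SusR.s f * SusR.z f * (1 - SusR.z f) = 0
  unfold SusR.prs
  rw [wL_ofFn]
  have h := SusR.rel f
  change ∑ l : Fin r, SusR.y f l * SusR.b f (f l) + SusR.s f * SusR.z f * (1 - SusR.z f) = 0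
  linear_combination h

theorem SusR.null_of_eps (x : SusR f) (hx : SusR.eps f x = 0) :
    x ∈ Ideal.span {t : SusR f | (XL (SusR.prs1 f)).Null t} := by
  set J : Ideal (SusR f) := Ideal.span {t : SusR f | (XL (SusR.prs1 f)).Null t} with hJ
  have hmem : ∀ p ∈ SusR.prs1 f, p.1 ∈ J ∧ p.2 ∈ J := fun p hp =>
    ⟨Ideal.subset_span (XL_null _ _ hp).1, Ideal.subset_span (XL_null _ _ hp).2⟩
  have h0 := hmem _ (List.mem_cons_self : _ ∈ SusR.prs1 f)
  have h1 : ∀ l, SusR.y f l ∈ J ∧ SusR.b f (f l) ∈ J := fun l =>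
    hmem _ (List.mem_cons_of_mem _ (List.mem_ofFn.2 ⟨l, rfl⟩))
  have hs : SusR.s f ∈ J := by
    have h2 := J.add_mem h0.1 (J.mul_mem_left (SusR.s f) h0.2)
    have h3 : SusR.s f * SusR.z f + SusR.s f * (1 - SusR.z f) = SusR.s f := by ring
    rwa [h3] at h2
  have hzero : ∀ t ∈ J, (Ideal.Quotient.mk J) t = 0 := fun t ht =>
    Ideal.Quotient.eq_zero_iff_mem.2 ht
  let π : SusR f →+* (SusR f ⧸ J) := Ideal.Quotient.mk J
  let θ : Base f →+* (SusR f ⧸ J) :=
    Ideal.Quotient.lift _ (π.comp (SusR.b f)) (by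
      intro a ha
      have h4 : Ideal.span (Set.range f) ≤ RingHom.ker (π.comp (SusR.b f)) := by
        rw [Ideal.span_le]
        rintro _ ⟨l, rfl⟩
        exact hzero _ (h1 l).2
      exact h4 ha)
  have h5 : θ.comp (SusR.eps f) = π := by
    refine SusR.hom_ext f (B := SusR f ⧸ J) (φ := θ.comp (SusR.eps f)) (ψ := π) ?_ ?_ ?_ ?_
    · intro a
      rw [RingHom.comp_apply, SusR.eps_b]
      rfl
    · rw [RingHom.comp_apply]
      unfold SusR.eps
      rw [SusR.lift_z, map_one]
      have h7 : π (1 - SusR.z f) = 0 := hzero _ h0.2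
      rw [map_sub, map_one, sub_eq_zero] at h7
      exact h7
    · rw [RingHom.comp_apply]
      unfold SusR.eps
      rw [SusR.lift_s, map_zero]
      exact (hzero _ hs).symm
    · intro l
      rw [RingHom.comp_apply]
      unfold SusR.eps
      rw [SusR.lift_y, map_zero]
      exact (hzero _ (h1 l).1).symm
  have h6 : π x = 0 := by
    rw [← h5, RingHom.comp_apply, hx, map_zero]
  exact Ideal.Quotient.eq_zero_iff_mem.1 h6

variable [IsNoetherianRing P]

/-- The class of the part at `z = 1` of the homology. -/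
noncomputable def SusR.chi : G0 (SusR f) →+ G0 (Base f) :=
  G0.lift (fun M => (XL (SusR.prs1 f)).chi (SusR.eps f) M.carrier) (fun _ _ _ i p hi hp h =>
    MF.chi_add' (SusR.wL_prs1 f) (SusR.eps f) (SusR.eps_surjective f) (SusR.null_of_eps f)
      i p hi hp h)

theorem SusR.chi_mk (M : FMod (SusR f)) :
    SusR.chi f (G0.mk M) = (XL (SusR.prs1 f)).chi (SusR.eps f) M.carrier := G0.lift_mk _ _ _

/-- The class is zero if `z` acts as zero. -/
theorem SusR.chi_zero (M : FMod (SusR f)) (hM : ∀ m : M.carrier, SusR.z f • m = 0) :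
    SusR.chi f (G0.mk M) = 0 := by
  rw [SusR.chi_mk]
  have h1 : (XL (SusR.prs1 f)).Null (1 - SusR.z f) :=
    (XL_null (SusR.prs1 f) _ (List.mem_cons_self : _ ∈ SusR.prs1 f)).2
  have key : ∀ (X : MF (SusR f) (wL (SusR.prs1 f))), X.Null (1 - SusR.z f) →
      Subsingleton (X.H M.carrier) := by
    intro X hX
    have h2 : ∀ x : X.H M.carrier, x = 0 := by
      intro x
      have h3 := hX.smul x
      obtain ⟨v, hv, rfl⟩ := hcl_surj _ _ x
      have h4 : (1 - SusR.z f) • v = v := by
        rw [sub_smul, one_smul]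
        have h5 : SusR.z f • v = 0 := by
          funext e
          exact hM _
        rw [h5, sub_zero]
      change hcl _ _ ((1 - SusR.z f) • v) (by rw [map_smul, hv, smul_zero]) = 0 at h3
      rw [hcl_eq_zero] at h3 ⊢
      rwa [h4] at h3
    exact ⟨fun a b => (h2 a).trans (h2 b).symm⟩
  haveI := key _ h1
  haveI := key _ h1.op
  unfold MF.chi
  rw [clV_subsingleton _ (SusR.eps_surjective f), clV_subsingleton _ (SusR.eps_surjective f),
    sub_zero]

end chi

end Pool.Agent.GZero
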