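import Pool.Agent.GZero.Sus

/-!
# The homomorphism which vanishes on the modules killed by `s`
-/

universe u v w

set_option linter.style.haveILetI false
set_option linter.unusedSectionVars false

namespace Pool.Agent.GZero

open LinearMap (ker range)
open RingTheory.Sequence TensorProduct Polynomial

section res

variable {B T S : Type u} [CommRing B] [CommRing T] [CommRing S]

theorem G0.res_comp (σ : B →+* S) (hσ : Function.Surjective σ) (τ : S →+* T)
    (hτ : Function.Surjective τ) (x : G0 T) :
    G0.res σ hσ (G0.res τ hτ x) = G0.res (τ.comp σ) (hτ.comp hσ) x := by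
  have key : (G0.res σ hσ).comp (G0.res τ hτ) = G0.res (τ.comp σ) (hτ.comp hσ) := by
    refine G0.hom_ext fun M => ?_
    rw [AddMonoidHom.comp_apply, G0.res_mk, G0.res_mk, G0.cls, G0.res_mk]
  exact DFunLike.congr_fun key x

/-- Two restrictions agree on the class of a module with a suitable automorphism. -/
theorem G0.res_eq_of_equiv (φ ψ : B →+* S) (hφ : Function.Surjective φ)
    (hψ : Function.Surjective ψ) (M : FMod S) (e : M.carrier ≃+ M.carrier)
    (he : ∀ b m, e (φ b • m) = ψ b • e m) :
    G0.res φ hφ (G0.mk M) = G0.res ψ hψ (G0.mk M) := by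
  rw [G0.res_mk, G0.res_mk]
  have h1 := finite_compHom φ hφ M.carrier
  have h2 := finite_compHom ψ hψ M.carrier
  exact @G0.cls_congr B _ M.carrier M.carrier _ (Module.compHom M.carrier φ) h1 _
    (Module.compHom M.carrier ψ) h2
    (@LinearEquiv.mk B B _ _ _ _ _ _ M.carrier M.carrier _ _ (Module.compHom M.carrier φ)
      (Module.compHom M.carrier ψ)
      (@LinearMap.mk B B _ _ _ M.carrier M.carrier _ _ (Module.compHom M.carrier φ)
        (Module.compHom M.carrier ψ) e.toAddHom he) e.symm e.left_inv e.right_inv)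

/-- The class of a killed module is a restriction. -/
theorem G0.res_clV (σ : B →+* S) (hσ : Function.Surjective σ) (Q : FMod B)
    (hQ : Killed σ Q.carrier) : G0.res σ hσ (clV σ Q.carrier) = G0.mk Q := by
  have hg : Good σ Q.carrier := ⟨hσ, Q.fin, hQ⟩
  rw [clV_eq σ Q.carrier hg]
  letI := modVia σ hg.1 Q.carrier hg.2.2
  haveI := modVia_finite σ hg.1 Q.carrier hg.2.2
  rw [G0.cls, G0.res_mk]
  refine G0.cls_of_eq Q _ (Module.ext' _ _ fun b m => ?_) _
  exact modVia_smul σ hσ Q.carrier hQ b m

end res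

variable {P : Type u} [CommRing P] {r : ℕ} (f : Fin r → P)

/-- The involution `z ↦ 1 - z`. -/
noncomputable def SusR.inv : SusR f →+* SusR f :=
  SusR.lift f (SusR.b f) (1 - SusR.z f) (HR.x (susW f)) (by
    have h := SusR.rel f
    change SusR.s f * (1 - SusR.z f - (1 - SusR.z f) ^ 2) +
      ∑ l : Fin r, SusR.y f l * SusR.b f (f l) = 0
    linear_combination h)

theorem SusR.inv_z : SusR.inv f (SusR.z f) = 1 - SusR.z f := SusR.lift_z _ _ _ _ _
theorem SusR.inv_b (a : P) : SusR.inv f (SusR.b f a) = SusR.b f a := SusR.lift_b _ _ _ _ _ _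
theorem SusR.inv_s : SusR.inv f (SusR.s f) = SusR.s f := SusR.lift_s _ _ _ _ _
theorem SusR.inv_y (l : Fin r) : SusR.inv f (SusR.y f l) = SusR.y f l := SusR.lift_y _ _ _ _ _ _

theorem SusR.inv_inv (x : SusR f) : SusR.inv f (SusR.inv f x) = x := by
  have h : (SusR.inv f).comp (SusR.inv f) = RingHom.id _ := by
    refine SusR.hom_ext f ?_ ?_ ?_ ?_
    · intro a
      rw [RingHom.comp_apply, SusR.inv_b, SusR.inv_b]
      rfl
    · rw [RingHom.comp_apply, SusR.inv_z, map_sub, map_one, SusR.inv_z]
      change _ = SusR.z f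
      ring
    · rw [RingHom.comp_apply, SusR.inv_s, SusR.inv_s]
      rfl
    · intro l
      rw [RingHom.comp_apply, SusR.inv_y, SusR.inv_y]
      rfl
  exact RingHom.congr_fun h x

theorem SusR.inv_surjective : Function.Surjective (SusR.inv f) := fun x =>
  ⟨SusR.inv f x, SusR.inv_inv f x⟩

theorem hyp_rel : ∑ l : Fin r, HR.x (pairing f) l * HR.c (pairing f) (f l) = 0 := by
  have h := eval_pairing f (HR.c (pairing f)) (HR.x (pairing f))
  have h2 : MvPolynomial.eval₂Hom (HR.c (pairing f)) (HR.x (pairing f)) =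
      Ideal.Quotient.mk (Ideal.span {pairing f}) := by
    apply MvPolynomial.ringHom_ext
    · intro a
      exact MvPolynomial.eval₂_C _ _ a
    · intro i
      exact MvPolynomial.eval₂_X _ _ i
  have h3 : (Ideal.Quotient.mk (Ideal.span {pairing f})) (pairing f) = 0 :=
    Ideal.Quotient.eq_zero_iff_mem.2 (Ideal.subset_span rfl)
  rw [h2, h3] at h
  exact h.symm

/-- The quotient by `s`. -/
noncomputable def SusR.sig : SusR f →+* (Hyp f)[X] :=
  SusR.lift f (C.comp (HR.c (pairing f))) X (Fin.cons 0 (fun l => C (HR.x (pairing f) l))) (by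
    rw [Fin.cons_zero, zero_mul, zero_add]
    have h : ∑ l : Fin r, (Fin.cons 0 (fun l => C (HR.x (pairing f) l)) :
        Fin (r + 1) → (Hyp f)[X]) l.succ * (C.comp (HR.c (pairing f))) (f l) =
        C (∑ l : Fin r, HR.x (pairing f) l * HR.c (pairing f) (f l)) := by
      rw [map_sum]
      refine Finset.sum_congr rfl fun l _ => ?_
      rw [Fin.cons_succ, RingHom.comp_apply, map_mul]
    rw [h, hyp_rel, map_zero])

theorem SusR.sig_z : SusR.sig f (SusR.z f) = X := SusR.lift_z _ _ _ _ _
theorem SusR.sig_b (a : P) : SusR.sig f (SusR.b f a) = C (HR.c (pairing f) a) :=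
  SusR.lift_b _ _ _ _ _ _
theorem SusR.sig_s : SusR.sig f (SusR.s f) = 0 := SusR.lift_s _ _ _ _ _
theorem SusR.sig_y (l : Fin r) : SusR.sig f (SusR.y f l) = C (HR.x (pairing f) l) :=
  SusR.lift_y _ _ _ _ _ _

theorem SusR.sig_surjective : Function.Surjective (SusR.sig f) := by
  intro v
  induction v using Polynomial.induction_on with
  | C u =>
    induction u using HR.induction (pairing f) with
    | hc a => exact ⟨_, SusR.sig_b f a⟩
    | ha x y hx hy =>
      obtain ⟨a, ha⟩ := hx
      obtain ⟨b, hb⟩ := hy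
      exact ⟨a + b, by rw [map_add, ha, hb, map_add]⟩
    | hm x i hx =>
      obtain ⟨a, ha⟩ := hx
      exact ⟨a * SusR.y f i, by rw [map_mul, ha, SusR.sig_y, map_mul]⟩
  | add p q hp hq =>
    obtain ⟨a, ha⟩ := hp
    obtain ⟨b, hb⟩ := hq
    exact ⟨a + b, by rw [map_add, ha, hb]⟩
  | monomial n a h =>
    obtain ⟨b, hb⟩ := h
    exact ⟨b * SusR.z f, by rw [map_mul, hb, SusR.sig_z, pow_succ, mul_assoc]⟩

theorem SusR.mem_of_sig (x : SusR f) (hx : SusR.sig f x = 0) :
    x ∈ Ideal.span {SusR.s f} := by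
  let π : SusR f →+* (SusR f ⧸ Ideal.span {SusR.s f}) := Ideal.Quotient.mk _
  have hs : π (SusR.s f) = 0 := Ideal.Quotient.eq_zero_iff_mem.2 (Ideal.subset_span rfl)
  let g : Hyp f →+* (SusR f ⧸ Ideal.span {SusR.s f}) :=
    HR.lift (π.comp (SusR.b f)) (fun l => π (SusR.y f l)) (by
      refine (eval_pairing (B := SusR f ⧸ Ideal.span {SusR.s f}) f _ _).trans ?_
      have h0 : ∑ l : Fin r, SusR.y f l * SusR.b f (f l) ∈ Ideal.span {SusR.s f} := by
        rw [Ideal.mem_span_singleton']
        exact ⟨-(SusR.z f - SusR.z f ^ 2), by linear_combination -(SusR.rel f)⟩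
      have h : π (∑ l : Fin r, SusR.y f l * SusR.b f (f l)) = 0 :=
        Ideal.Quotient.eq_zero_iff_mem.2 h0
      rw [← h, map_sum]
      refine Finset.sum_congr rfl fun l _ => ?_
      rw [map_mul, RingHom.comp_apply])
  let ρ : (Hyp f)[X] →+* (SusR f ⧸ Ideal.span {SusR.s f}) :=
    Polynomial.eval₂RingHom g (π (SusR.z f))
  have h : ρ.comp (SusR.sig f) = π := by
    refine SusR.hom_ext f (B := SusR f ⧸ Ideal.span {SusR.s f}) (φ := ρ.comp (SusR.sig f))
      (ψ := π) ?_ ?_ ?_ ?_
    · intro a
      rw [RingHom.comp_apply, SusR.sig_b]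
      refine (Polynomial.eval₂_C _ _).trans ?_
      exact HR.lift_c _ _ _ _
    · rw [RingHom.comp_apply, SusR.sig_z]
      exact Polynomial.eval₂_X _ _
    · rw [RingHom.comp_apply, SusR.sig_s, map_zero]
      exact hs.symm
    · intro l
      rw [RingHom.comp_apply, SusR.sig_y]
      refine (Polynomial.eval₂_C _ _).trans ?_
      exact HR.lift_x _ _ _ _
  have h2 : π x = 0 := by
    rw [← h, RingHom.comp_apply, hx, map_zero]
  exact Ideal.Quotient.eq_zero_iff_mem.1 h2

/-- The involution of `N[X]`. -/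
theorem comp_comp_self {S N : Type u} [CommRing S] [AddCommGroup N] [Module S N]
    (p : PolynomialModule S N) :
    PolynomialModule.comp (1 - X : S[X]) (PolynomialModule.comp (1 - X : S[X]) p) = p := by
  induction p using PolynomialModule.induction_linear with
  | zero => rw [map_zero, map_zero]
  | add p q hp hq => rw [map_add, map_add, hp, hq]
  | single i n =>
    rw [PolynomialModule.comp_single, PolynomialModule.comp_smul, PolynomialModule.comp_single,
      pow_zero, one_smul]
    have h : ((1 - X : S[X]) ^ i).comp (1 - X) = monomial i 1 := by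
      rw [Polynomial.pow_comp, Polynomial.sub_comp, Polynomial.one_comp, Polynomial.X_comp,
        sub_sub_cancel, Polynomial.monomial_one_right_eq_X_pow]
    rw [h, PolynomialModule.monomial_smul_single, one_smul, add_zero]

/-- The automorphism of `N[X]` given by `X ↦ 1 - X`. -/
noncomputable def flipX (S N : Type u) [CommRing S] [AddCommGroup N] [Module S N] :
    PolynomialModule S N ≃+ PolynomialModule S N where
  toFun := PolynomialModule.comp (1 - X : S[X])
  invFun := PolynomialModule.comp (1 - X : S[X])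
  left_inv := comp_comp_self
  right_inv := comp_comp_self
  map_add' := map_add _

theorem flipX_smul (S N : Type u) [CommRing S] [AddCommGroup N] [Module S N] (a : S[X])
    (p : PolynomialModule S N) :
    flipX S N (a • p) = a.comp (1 - X) • flipX S N p := PolynomialModule.comp_smul _ _ _

theorem SusR.sig_inv (x : SusR f) : SusR.sig f (SusR.inv f x) = (SusR.sig f x).comp (1 - X) := by
  have h : (SusR.sig f).comp (SusR.inv f) =
      (Polynomial.compRingHom (1 - X)).comp (SusR.sig f) := by
    refine SusR.hom_ext f (B := (Hyp f)[X]) (φ := (SusR.sig f).comp (SusR.inv f))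
      (ψ := (Polynomial.compRingHom (1 - X)).comp (SusR.sig f)) ?_ ?_ ?_ ?_
    · intro a
      rw [RingHom.comp_apply, RingHom.comp_apply, SusR.inv_b, SusR.sig_b,
        Polynomial.coe_compRingHom_apply, Polynomial.C_comp]
    · rw [RingHom.comp_apply, RingHom.comp_apply, SusR.inv_z, map_sub, map_one, SusR.sig_z,
        Polynomial.coe_compRingHom_apply, Polynomial.X_comp]
    · rw [RingHom.comp_apply, RingHom.comp_apply, SusR.inv_s, SusR.sig_s, map_zero]
    · intro l
      rw [RingHom.comp_apply, RingHom.comp_apply, SusR.inv_y, SusR.sig_y,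
        Polynomial.coe_compRingHom_apply, Polynomial.C_comp]
  exact RingHom.congr_fun h x

variable [IsNoetherianRing P]

/-- The homomorphism which vanishes on the modules killed by `s`. -/
noncomputable def SusR.Phi : G0 (SusR f) →+ G0 (Base f) :=
  SusR.chi f - (SusR.chi f).comp (G0.res (SusR.inv f) (SusR.inv_surjective f))

theorem SusR.Phi_apply (x : G0 (SusR f)) : SusR.Phi f x =
    SusR.chi f x - SusR.chi f (G0.res (SusR.inv f) (SusR.inv_surjective f) x) := rfl

theorem SusR.res_inv (x : G0 (Hyp f)[X]) :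
    G0.res (SusR.inv f) (SusR.inv_surjective f) (G0.res (SusR.sig f) (SusR.sig_surjective f) x) =
      G0.res (SusR.sig f) (SusR.sig_surjective f) x := by
  have h := G0.poly_ext (S := Hyp f)
    ((G0.res (SusR.inv f) (SusR.inv_surjective f)).comp
      (G0.res (SusR.sig f) (SusR.sig_surjective f)) -
      G0.res (SusR.sig f) (SusR.sig_surjective f)) (by
    intro Q
    rw [AddMonoidHom.sub_apply, AddMonoidHom.comp_apply, sub_eq_zero, G0.res_comp]
    refine G0.res_eq_of_equiv _ _ _ _ ⟨PolynomialModule (Hyp f) Q.carrier⟩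
      (flipX (Hyp f) Q.carrier) ?_
    intro b m
    change flipX (Hyp f) Q.carrier (SusR.sig f (SusR.inv f b) • m) = _
    rw [SusR.sig_inv]
    refine (flipX_smul (Hyp f) Q.carrier _ _).trans ?_
    congr 1
    rw [Polynomial.comp_assoc, Polynomial.sub_comp, Polynomial.one_comp, Polynomial.X_comp,
      sub_sub_cancel, Polynomial.comp_X]) x
  rw [AddMonoidHom.sub_apply, AddMonoidHom.comp_apply, sub_eq_zero] at h
  exact h

theorem SusR.kills : Kills (SusR.s f) (SusR.Phi f) := by
  intro Q hQ
  have hk : Killed (B := SusR f) (A := (Hyp f)[X]) (SusR.sig f) Q.carrier := by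
    intro b hb n
    obtain ⟨c, rfl⟩ := Ideal.mem_span_singleton'.1 (SusR.mem_of_sig f b hb)
    rw [mul_smul, hQ, smul_zero]
  have h := G0.res_clV (B := SusR f) (S := (Hyp f)[X]) (SusR.sig f) (SusR.sig_surjective f) Q hk
  rw [← h, SusR.Phi_apply, SusR.res_inv, sub_self]

end Pool.Agent.GZero
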