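import Pool.Agent.GZero.Kos

/-!
# Exchange of the members of a pair
-/

universe u v

set_option linter.style.haveILetI false
set_option linter.unusedSectionVars false

namespace Pool.Agent.GZero

open LinearMap (ker range)
open Matrix

variable {R : Type u} [CommRing R]

section swap

variable {E O : Type} [Fintype E] [Fintype O] [DecidableEq E] [DecidableEq O]
variable (Φ : Matrix O E R) (Ψ : Matrix E O R) (y f : R) (M : Type u) [AddCommGroup M] [Module R M]

/-- The exchange of the summands. -/
def swE (R : Type u) [CommRing R] (E O : Type) (M : Type u) [AddCommGroup M] [Module R M] :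
    (E ⊕ O → M) →ₗ[R] (O ⊕ E → M) where
  toFun v := Sum.elim (-(v ∘ Sum.inr)) (v ∘ Sum.inl)
  map_add' v v' := by
    funext o
    rcases o with o | e
    · simp [add_comm]
    · simp
  map_smul' r v := by
    funext o
    rcases o with o | e
    · simp
    · simp

/-- The inverse of the exchange of the summands. -/
def swO (R : Type u) [CommRing R] (E O : Type) (M : Type u) [AddCommGroup M] [Module R M] :
    (O ⊕ E → M) →ₗ[R] (E ⊕ O → M) where
  toFun v := Sum.elim (v ∘ Sum.inr) (-(v ∘ Sum.inl))
  map_add' v v' := by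
    funext o
    rcases o with o | e
    · simp
    · simp [add_comm]
  map_smul' r v := by
    funext o
    rcases o with o | e
    · simp
    · simp

theorem swO_swE (v : E ⊕ O → M) : swO R E O M (swE R E O M v) = v := by
  funext o
  rcases o with o | e
  · rfl
  · change - - v (Sum.inr e) = _
    rw [neg_neg]

theorem swE_swO (v : O ⊕ E → M) : swE R E O M (swO R E O M v) = v := by
  funext o
  rcases o with o | e
  · change - - v (Sum.inl o) = _
    rw [neg_neg]
  · rfl

theorem swap_EO (v : E ⊕ O → M) : act M (blk Ψ Φ f y) (swE R E O M v) =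
    swO R E O M (act M (blk Φ Ψ y f) v) := by
  rw [act_blk, act_blk]
  change Sum.elim (act M Ψ (-(v ∘ Sum.inr)) + f • (v ∘ Sum.inl))
    (y • (-(v ∘ Sum.inr)) - act M Φ (v ∘ Sum.inl)) =
    Sum.elim (f • (v ∘ Sum.inl) - act M Ψ (v ∘ Sum.inr))
      (-(act M Φ (v ∘ Sum.inl) + y • (v ∘ Sum.inr)))
  congr 1
  · rw [map_neg]
    abel
  · rw [smul_neg]
    abel

theorem swap_OE (v : O ⊕ E → M) : act M (blk Φ Ψ f y) (swO R E O M v) =
    swE R E O M (act M (blk Ψ Φ y f) v) := by
  rw [act_blk, act_blk]
  change Sum.elim (act M Φ (v ∘ Sum.inr) + f • (-(v ∘ Sum.inl)))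
    (y • (v ∘ Sum.inr) - act M Ψ (-(v ∘ Sum.inl))) =
    Sum.elim (-(f • (v ∘ Sum.inl) - act M Φ (v ∘ Sum.inr)))
      (act M Ψ (v ∘ Sum.inl) + y • (v ∘ Sum.inr))
  congr 1
  · rw [smul_neg]
    abel
  · rw [map_neg]
    abel

/-- The homology does not change if the members of the pair and the even and odd parts are
exchanged. -/
noncomputable def swapEquiv' : Hm (act M (blk Ψ Φ y f)) (act M (blk Φ Ψ y f)) ≃ₗ[R]
    Hm (act M (blk Φ Ψ f y)) (act M (blk Ψ Φ f y)) :=
  LinearEquiv.ofLinear
    (hmap _ _ _ _ (swO R E O M) (swE R E O M) (swO R E O M)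
      (swap_EO Φ Ψ y f M) (swap_OE Φ Ψ y f M))
    (hmap _ _ _ _ (swE R E O M) (swO R E O M) (swE R E O M)
      (fun v => by
        have h := swap_EO Φ Ψ y f M (swO R E O M v)
        rw [swE_swO] at h
        rw [h, swE_swO])
      (fun v => by
        have h := swap_OE Φ Ψ y f M (swE R E O M v)
        rw [swO_swE] at h
        rw [h, swO_swE]))
    (by
      ext x
      obtain ⟨v, hv⟩ := x
      change hcl _ _ (swE R E O M (swO R E O M v)) _ = hcl _ _ v _
      congr 1
      exact swE_swO M v)
    (by
      ext x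
      obtain ⟨v, hv⟩ := x
      change hcl _ _ (swO R E O M (swE R E O M v)) _ = hcl _ _ v _
      congr 1
      exact swO_swE M v)

end swap

/-- Exchange of the members of a pair. -/
noncomputable def swapEquiv {w : R} (X : MF R w) (y f : R) (M : Type u) [AddCommGroup M]
    [Module R M] : (X.cons y f).H M ≃ₗ[R] (X.op.cons f y).H M :=
  swapEquiv' X.Φ X.Ψ y f M

/-- The homology of `X.cons y f` is the homology of `X.op` modulo `f`. -/
noncomputable def kosEquivSnd {w : R} (X : MF R w) (y f : R) (M : Type u) [AddCommGroup M]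
    [Module R M] (hy : ∀ m : M, y • m = 0) (hf : IsSMulRegular M f)
    (hw : ∀ m : M, w • m = 0) : (X.cons y f).H M ≃ₗ[R] X.op.H (QuotSMulTop f M) :=
  (swapEquiv X y f M).trans (kosEquiv X.op f y M hy hf hw)

end Pool.Agent.GZero
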